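import Mathlib

/-!
Determinants of bordered matrices, of rank one updates and of direct sums.
-/

set_option autoImplicit false

namespace Pool.Agent.W936.VN

open Matrix

variable {R : Type} [CommRing R] {ι κ : Type} [Fintype ι] [DecidableEq ι] [Fintype κ]
  [DecidableEq κ]

/-- `rowᵀ adj(M) col`, as the sum of `col i` times the determinant of `M` with the row `i` replaced by
`row` -/
def bq (M : Matrix ι ι R) (u v : ι → R) : R := ∑ i, u i * (M.updateRow i v).det

/-- the bordered matrix -/
def bord (M : Matrix ι ι R) (u v : ι → R) (g : R) : Matrix (ι ⊕ Unit) (ι ⊕ Unit) R :=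
  fromBlocks M (replicateCol Unit u) (replicateRow Unit v) (Matrix.of fun _ _ => g)

theorem det_unit (g : R) : (Matrix.of fun _ _ : Unit => g).det = g := by
  rw [Matrix.det_unique]
  rfl

theorem bord_swap (M : Matrix ι ι R) (v : ι → R) (i : ι) :
    ((bord M 0 v 0).updateRow (Sum.inl i) (Pi.single (Sum.inr ()) 1)).det =
      - (M.updateRow i v).det := by
  have h1 : (((bord M 0 v 0).updateRow (Sum.inl i) (Pi.single (Sum.inr ()) 1)).submatrix
      (Equiv.swap (Sum.inl i) (Sum.inr ())) id) =
      fromBlocks (M.updateRow i v) 0 0 (Matrix.of fun _ _ => 1) := by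
    ext a b
    rcases a with a | a
    · by_cases ha : a = i
      · subst ha
        rw [submatrix_apply, Equiv.swap_apply_left, updateRow_ne (by simp)]
        rcases b with b | b
        · simp [bord]
        · simp [bord]
      · rw [submatrix_apply, Equiv.swap_apply_of_ne_of_ne (by simpa using ha) (by simp),
          updateRow_ne (by simpa using ha)]
        rcases b with b | b
        · simp [bord, ha]
        · simp [bord]
    · rw [submatrix_apply, Equiv.swap_apply_right, updateRow_self]
      rcases b with b | b
      · simp
      · simp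
  have h2 := Matrix.det_permute (Equiv.swap (Sum.inl i) (Sum.inr ()))
    ((bord M 0 v 0).updateRow (Sum.inl i) (Pi.single (Sum.inr ()) 1))
  rw [h1, det_fromBlocks_zero₂₁, det_unit, mul_one, Equiv.Perm.sign_swap (by simp)] at h2
  rw [h2]
  simp

theorem det_bord (M : Matrix ι ι R) (u v : ι → R) (g : R) :
    (bord M u v g).det = g * M.det - bq M u v := by
  have h1 : bord M u v g = (bord M 0 v 0).updateCol (Sum.inr ()) (Sum.elim u fun _ => g) := by
    ext a b
    rcases b with b | b
    · rw [updateCol_ne (by simp)]
      rcases a with a | a <;> rfl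
    · rw [updateCol_self]
      rcases a with a | a <;> rfl
  rw [h1, ← cramer_apply, cramer_eq_adjugate_mulVec]
  simp only [mulVec, dotProduct, Fintype.sum_sum_type, adjugate_apply, bord_swap, Sum.elim_inl,
    Sum.elim_inr]
  have h2 : ((bord M 0 v 0).updateRow (Sum.inr ()) (Pi.single (Sum.inr ()) 1)) =
      fromBlocks M 0 0 (Matrix.of fun _ _ => 1) := by
    ext a b
    rcases a with a | a
    · rw [updateRow_ne (by simp)]
      rcases b with b | b
      · rfl
      · rfl
    · rw [updateRow_self]
      rcases b with b | b
      · simp
      · simp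
  simp only [Finset.univ_unique, Finset.sum_singleton, PUnit.default_eq_unit]
  rw [h2, det_fromBlocks_zero₂₁, det_unit, mul_one, bq]
  have h3 : ∑ x, - (M.updateRow x v).det * u x = - ∑ x, u x * (M.updateRow x v).det := by
    rw [← Finset.sum_neg_distrib]
    exact Finset.sum_congr rfl fun x _ => by ring
  rw [h3]
  ring

theorem bq_scale (M : Matrix ι ι R) (u v : ι → R) (g h : R) :
    bq M (fun i => g * u i) (fun i => h * v i) = g * h * bq M u v := by
  have h1 : ∀ i, (M.updateRow i fun j => h * v j).det = h * (M.updateRow i v).det := fun i => by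
    have : (fun j => h * v j) = h • v := rfl
    rw [this, det_updateRow_smul]
  simp only [bq, h1, Finset.mul_sum]
  exact Finset.sum_congr rfl fun x _ => by ring

/-- the determinant of a rank one update -/
theorem det_upd (M : Matrix ι ι R) (u v : ι → R) (g : R) :
    (Matrix.of fun i j => M i j + g * (u i * v j)).det = M.det + g * bq M u v := by
  have h1 := det_bord M u (fun j => (-g) * v j) 1
  have h2 : bord M u (fun j => (-g) * v j) 1 = fromBlocks M (replicateCol Unit u)
      (replicateRow Unit fun j => (-g) * v j) 1 := by
    unfold bord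
    congr 1
  rw [h2, det_fromBlocks_one₂₂, one_mul] at h1
  have h3 : bq M u (fun j => (-g) * v j) = - g * bq M u v := by
    have := bq_scale M u v 1 (-g)
    simp only [one_mul] at this
    exact this
  rw [h3] at h1
  have h4 : (Matrix.of fun i j => M i j + g * (u i * v j)) =
      M - replicateCol Unit u * replicateRow Unit fun j => (-g) * v j := by
    ext i j
    rw [Matrix.sub_apply, Matrix.mul_apply, Fintype.sum_unique]
    simp only [Matrix.of_apply, replicateCol_apply, replicateRow_apply]
    ring
  rw [h4, h1]
  ring

theorem bq_upd (M : Matrix ι ι R) (u v : ι → R) (g : R) :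
    bq (Matrix.of fun i j => M i j + g * (u i * v j)) u v = bq M u v := by
  have h1 := det_upd (Matrix.of fun i j => M i j + g * (u i * v j)) u v 1
  have h2 : (Matrix.of fun i j => (Matrix.of fun i j => M i j + g * (u i * v j)) i j +
      1 * (u i * v j)) = Matrix.of fun i j => M i j + (g + 1) * (u i * v j) := by
    ext i j
    simp only [Matrix.of_apply]
    ring
  rw [h2, det_upd, det_upd] at h1
  linear_combination - h1

theorem bq_sum (A : Matrix ι ι R) (B : Matrix κ κ R) (u v : ι → R) (u' v' : κ → R) :
    bq (fromBlocks A 0 0 B) (Sum.elim u u') (Sum.elim v v') =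
      A.det * bq B u' v' + bq A u v * B.det := by
  have h1 : ∀ i, ((fromBlocks A 0 0 B).updateRow (Sum.inl i) (Sum.elim v v')) =
      fromBlocks (A.updateRow i v) ((0 : Matrix ι κ R).updateRow i v') 0 B := by
    intro i
    ext a b
    rcases a with a | a
    · by_cases ha : a = i
      · subst ha
        rw [updateRow_self]
        rcases b with b | b
        · simp
        · simp
      · rw [updateRow_ne (by simpa using ha)]
        rcases b with b | b
        · simp [ha]
        · simp [ha]
    · rw [updateRow_ne (by simp)]
      rcases b with b | b <;> rfl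
  have h2 : ∀ i, ((fromBlocks A 0 0 B).updateRow (Sum.inr i) (Sum.elim v v')) =
      fromBlocks A 0 ((0 : Matrix κ ι R).updateRow i v) (B.updateRow i v') := by
    intro i
    ext a b
    rcases a with a | a
    · rw [updateRow_ne (by simp)]
      rcases b with b | b <;> rfl
    · by_cases ha : a = i
      · subst ha
        rw [updateRow_self]
        rcases b with b | b
        · simp
        · simp
      · rw [updateRow_ne (by simpa using ha)]
        rcases b with b | b
        · simp [ha]
        · simp [ha]
  simp only [bq, Fintype.sum_sum_type, Sum.elim_inl, Sum.elim_inr, h1, h2, det_fromBlocks_zero₂₁,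
    det_fromBlocks_zero₁₂]
  rw [add_comm, Finset.mul_sum, Finset.sum_mul]
  congr 1
  · exact Finset.sum_congr rfl fun x _ => by ring
  · exact Finset.sum_congr rfl fun x _ => by ring

theorem bq_bord (M : Matrix ι ι R) (u v : ι → R) (g : R) :
    bq (bord M u v g) (Sum.elim 0 fun _ => 1) (Sum.elim 0 fun _ => 1) = M.det := by
  have h1 : (bord M u v g).updateRow (Sum.inr ()) (Sum.elim 0 fun _ => 1) =
      fromBlocks M (replicateCol Unit u) 0 (Matrix.of fun _ _ => 1) := by
    ext a b
    rcases a with a | a
    · rw [updateRow_ne (by simp)]
      rcases b with b | b <;> rfl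
    · rw [updateRow_self]
      rcases b with b | b
      · simp
      · simp
  simp only [bq, Fintype.sum_sum_type, Sum.elim_inl, Sum.elim_inr, Pi.zero_apply, zero_mul,
    Finset.sum_const_zero, zero_add, one_mul]
  rw [Fintype.sum_unique]
  show ((bord M u v g).updateRow (Sum.inr ()) (Sum.elim 0 fun _ => 1)).det = M.det
  rw [h1, det_fromBlocks_zero₂₁, det_unit, mul_one]

theorem bq_unit (g : R) : bq (Matrix.of fun _ _ : Unit => g) (fun _ => 1) (fun _ => 1) = 1 := by
  rw [bq, Fintype.sum_unique, one_mul, Matrix.det_unique]
  simp

end Pool.Agent.W936.VN
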