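import Mathlib
import Pool.Agent.H530R2.Tre4

/-!
Networks: formulas whose gates are polynomial maps of vectors; jets of vectors of polynomials, and
the transformation of jets along a gate.
-/

set_option autoImplicit false

namespace Pool.Agent.W936.VN

open MvPolynomial Module Pool.Agent.H530R2

section tree

/-- networks: the values are vectors with index set `β`, the gates are polynomial maps -/
inductive VT (F : Type) [Field F] (β : Type) (n : ℕ) : Type
  | leaf (g : β → MvPolynomial (Fin n) F) : VT F β n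
  | gate (γ : β → MvPolynomial (β ⊕ β) F) (a b : VT F β n) : VT F β n

variable {F : Type} [Field F] {β : Type} {n : ℕ}

/-- the vector computed by a network -/
noncomputable def VT.val : VT F β n → β → MvPolynomial (Fin n) F
  | .leaf g => g
  | .gate γ a b => fun i => aeval (Sum.elim a.val b.val) (γ i)

open Classical in
/-- the number of leaves in which a variable occurs -/
noncomputable def VT.occ : VT F β n → Fin n → ℕ
  | .leaf g, i => if ∃ j, i ∈ (g j).vars then 1 else 0
  | .gate _ a b, i => a.occ i + b.occ i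

/-- the components of the leaves belong to a class -/
def VT.Lv (L : Set (MvPolynomial (Fin n) F)) : VT F β n → Prop
  | .leaf g => ∀ j, g j ∈ L
  | .gate _ a b => a.Lv L ∧ b.Lv L

/-- leaves -/
def VT.IsLeaf : VT F β n → Prop
  | .leaf _ => True
  | .gate _ _ _ => False

theorem VT.Lv.mono {L L' : Set (MvPolynomial (Fin n) F)} (h : L ⊆ L') {T : VT F β n}
    (hT : T.Lv L) : T.Lv L' := by
  induction T with
  | leaf g => exact fun j => h (hT j)
  | gate γ a b iha ihb => exact ⟨iha hT.1, ihb hT.2⟩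

theorem VT.val_supp (T : VT F β n) (j : β) :
    T.val j ∈ supported F {i : Fin n | T.occ i ≠ 0} := by
  classical
  induction T generalizing j with
  | leaf g =>
    rw [VT.val, mem_supported]
    intro i hi
    show VT.occ (.leaf g) i ≠ 0
    rw [VT.occ, if_pos ⟨j, Finset.mem_coe.1 hi⟩]
    exact one_ne_zero
  | gate γ a b iha ihb =>
    have h1 : (VT.gate γ a b).val j ∈ Algebra.adjoin F (Set.range (Sum.elim a.val b.val)) := by
      rw [Algebra.adjoin_range_eq_range_aeval]
      exact ⟨γ j, rfl⟩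
    refine (Algebra.adjoin_le ?_) h1
    rintro _ ⟨i | i, rfl⟩
    · refine supported_mono ?_ (iha i)
      intro x hx
      have hx' : a.occ x ≠ 0 := hx
      show a.occ x + b.occ x ≠ 0
      omega
    · refine supported_mono ?_ (ihb i)
      intro x hx
      have hx' : b.occ x ≠ 0 := hx
      show a.occ x + b.occ x ≠ 0
      omega

theorem VT.pderiv_val {T : VT F β n} {k : Fin n} (h : T.occ k = 0) (j : β) :
    pderiv k (T.val j) = 0 := by
  apply pderiv_eq_zero_of_notMem_vars
  intro hc
  exact (mem_supported.1 (T.val_supp j)) (Finset.mem_coe.2 hc) h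

/-- chain rule for gates -/
theorem pderiv_vgate [Fintype β] [DecidableEq β] (γ : MvPolynomial (β ⊕ β) F)
    (a b : β → MvPolynomial (Fin n) F) (k : Fin n) :
    pderiv k (aeval (Sum.elim a b) γ) =
      ∑ j, aeval (Sum.elim a b) (pderiv (Sum.inl j) γ) * pderiv k (a j) +
      ∑ j, aeval (Sum.elim a b) (pderiv (Sum.inr j) γ) * pderiv k (b j) := by
  have key : pderiv k (aeval (Sum.elim a b) γ) =
      ∑ x : β ⊕ β, aeval (Sum.elim a b) (pderiv x γ) * pderiv k (Sum.elim a b x) := by
    generalize Sum.elim a b = g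
    induction γ using MvPolynomial.induction_on with
    | C r =>
      rw [algHom_C]
      show pderiv k (C r) = _
      simp only [pderiv_C, map_zero, zero_mul, Finset.sum_const_zero]
    | add p q hp hq =>
      rw [map_add, map_add, hp, hq, ← Finset.sum_add_distrib]
      refine Finset.sum_congr rfl fun x _ => ?_
      rw [map_add, map_add, add_mul]
    | mul_X p i hp =>
      rw [map_mul, pderiv_mul, hp, aeval_X]
      have h1 : ∀ x : β ⊕ β, aeval g (pderiv x (p * X i)) * pderiv k (g x) =
          aeval g (pderiv x p) * pderiv k (g x) * g i +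
            aeval g p * (if x = i then pderiv k (g x) else 0) := by
        intro x
        rw [pderiv_mul, map_add, map_mul, aeval_X]
        by_cases h : x = i
        · subst h
          rw [pderiv_X_self, if_pos rfl, mul_one]
          ring
        · rw [pderiv_X_of_ne (Ne.symm h), if_neg h, mul_zero, map_zero, mul_zero]
          ring
      rw [Finset.sum_congr rfl fun x _ => h1 x, Finset.sum_add_distrib, ← Finset.sum_mul,
        ← Finset.mul_sum, Finset.sum_ite_eq' Finset.univ i, if_pos (Finset.mem_univ i)]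
  rw [key, Fintype.sum_sum_type]
  rfl

end tree

section jets

variable {F : Type} [Field F] {β : Type} {n ρ : ℕ}

/-- indices of the jets -/
def JB (β : Type) (ρ : ℕ) : ℕ → Type
  | 0 => β
  | l + 1 => JB β ρ l ⊕ (Fin ρ × JB β ρ l)

noncomputable instance JB.fintype (β : Type) [Fintype β] (ρ : ℕ) : (l : ℕ) → Fintype (JB β ρ l)
  | 0 => (inferInstance : Fintype β)
  | l + 1 => @instFintypeSum _ _ (JB.fintype β ρ l) (@instFintypeProd _ _ _ (JB.fintype β ρ l))

theorem JB.card (β : Type) [Fintype β] (ρ l : ℕ) :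
    Fintype.card (JB β ρ l) = Fintype.card β * (ρ + 1) ^ l := by
  induction l with
  | zero =>
    rw [pow_zero, mul_one]
    rfl
  | succ l ih =>
    have h1 : Fintype.card (JB β ρ (l + 1)) = Fintype.card (JB β ρ l ⊕ (Fin ρ × JB β ρ l)) :=
      Fintype.card_congr (Equiv.refl _)
    rw [h1, Fintype.card_sum, Fintype.card_prod, Fintype.card_fin, ih, pow_succ]
    ring

/-- iterated derivatives in the directions `κ` -/
noncomputable def vjet (κ : Fin ρ → Fin n) (g : β → MvPolynomial (Fin n) F) :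
    (l : ℕ) → JB β ρ l → MvPolynomial (Fin n) F
  | 0 => g
  | l + 1 => Sum.elim (vjet κ g l) (fun x => pderiv (κ x.1) (vjet κ g l x.2))

/-- sets closed under derivatives contain the jets -/
theorem vjet_mem {κ : Fin ρ → Fin n} {g : β → MvPolynomial (Fin n) F}
    (S : ℕ → Set (MvPolynomial (Fin n) F)) (h0 : ∀ j, g j ∈ S 0) (hm : ∀ l, S l ⊆ S (l + 1))
    (hd : ∀ l k, ∀ x ∈ S l, pderiv k x ∈ S (l + 1)) (l : ℕ) (i : JB β ρ l) :
    vjet κ g l i ∈ S l := by
  induction l with
  | zero => exact h0 i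
  | succ l ih =>
    rcases i with i | ⟨q, i⟩
    · exact hm l (ih i)
    · exact hd l _ _ (ih i)

/-- jets of larger order -/
theorem vjet_range_succ (κ : Fin ρ → Fin n) (g : β → MvPolynomial (Fin n) F) (l : ℕ) :
    Set.range (vjet κ g l) ⊆ Set.range (vjet κ g (l + 1)) := by
  rintro _ ⟨i, rfl⟩
  exact ⟨Sum.inl i, rfl⟩

theorem vjet_range_mono (κ : Fin ρ → Fin n) (g : β → MvPolynomial (Fin n) F) {l l' : ℕ}
    (h : l ≤ l') : Set.range (vjet κ g l) ⊆ Set.range (vjet κ g l') := by
  induction l', h using Nat.le_induction with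
  | base => exact le_rfl
  | succ b _ ih => exact ih.trans (vjet_range_succ κ g b)

/-- jets in more directions -/
theorem vjet_range_dir {ρ' : ℕ} {κ : Fin ρ → Fin n} {κ' : Fin ρ' → Fin n}
    (h : Set.range κ ⊆ Set.range κ') (g : β → MvPolynomial (Fin n) F) (l : ℕ) :
    Set.range (vjet κ g l) ⊆ Set.range (vjet κ' g l) := by
  induction l with
  | zero =>
    rintro _ ⟨i, rfl⟩
    exact ⟨i, rfl⟩
  | succ l ih =>
    rintro _ ⟨i | ⟨q, i⟩, rfl⟩
    · obtain ⟨i', hi'⟩ := ih ⟨i, rfl⟩
      exact ⟨Sum.inl i', hi'⟩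
    · obtain ⟨i', hi'⟩ := ih ⟨i, rfl⟩
      obtain ⟨q', hq'⟩ := h ⟨q, rfl⟩
      refine ⟨Sum.inr (q', i'), ?_⟩
      show pderiv (κ' q') (vjet κ' g l i') = pderiv (κ q) (vjet κ g l i)
      rw [hi', hq']

theorem vjet_pderiv (κ : Fin ρ → Fin n) (g : β → MvPolynomial (Fin n) F) (l : ℕ) (q : Fin ρ)
    {x : MvPolynomial (Fin n) F} (hx : x ∈ Set.range (vjet κ g l)) :
    pderiv (κ q) x ∈ Set.range (vjet κ g (l + 1)) := by
  obtain ⟨i, rfl⟩ := hx
  exact ⟨Sum.inr (q, i), rfl⟩

theorem vjet_self (κ : Fin ρ → Fin n) (g : β → MvPolynomial (Fin n) F) (l : ℕ) (j : β) :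
    g j ∈ Set.range (vjet κ g l) :=
  vjet_range_mono κ g (Nat.zero_le l) ⟨j, rfl⟩

/-- jets of polynomials generated by two vectors of polynomials -/
theorem vjet_adjoin (κ : Fin ρ → Fin n) {g a b : β → MvPolynomial (Fin n) F}
    (h : ∀ j, g j ∈ Algebra.adjoin F (Set.range a ∪ Set.range b)) (l : ℕ) (i : JB β ρ l) :
    vjet κ g l i ∈ Algebra.adjoin F (Set.range (vjet κ a l) ∪ Set.range (vjet κ b l)) := by
  induction l with
  | zero => exact h i
  | succ l ih =>
    have hmono : Algebra.adjoin F (Set.range (vjet κ a l) ∪ Set.range (vjet κ b l)) ≤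
        Algebra.adjoin F (Set.range (vjet κ a (l + 1)) ∪ Set.range (vjet κ b (l + 1))) :=
      Algebra.adjoin_mono (Set.union_subset_union (vjet_range_succ _ _ _) (vjet_range_succ _ _ _))
    rcases i with i | ⟨q, i⟩
    · exact hmono (ih i)
    · refine pderiv_mem_of_adjoin (κ q) ?_ ?_ (ih i)
      · intro x hx
        exact hmono (Algebra.subset_adjoin hx)
      · rintro x (hx | hx)
        · exact Algebra.subset_adjoin (Or.inl (vjet_pderiv κ a l q hx))
        · exact Algebra.subset_adjoin (Or.inr (vjet_pderiv κ b l q hx))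

theorem vjet_zero (κ : Fin ρ → Fin n) {g : β → MvPolynomial (Fin n) F} {k : Fin n}
    (h : ∀ j, pderiv k (g j) = 0) (l : ℕ) (i : JB β ρ l) : pderiv k (vjet κ g l i) = 0 :=
  vjet_mem (κ := κ) (fun _ => {x | pderiv k x = 0}) h (fun _ => le_rfl)
    (fun _ k' x (hx : pderiv k x = 0) => by
      show pderiv k (pderiv k' x) = 0
      rw [pderiv_comm', hx, map_zero]) l i

end jets

section et

variable {F : Type} [Field F] {β : Type} [Fintype β] [DecidableEq β] {n ρ : ℕ}

theorem Et.vec {Z : Finset (Fin n)} {g g' : β → MvPolynomial (Fin n) F}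
    {A : Matrix β β (MvPolynomial (Fin n) F)}
    (h : ∀ k ∈ Z, ∀ i, pderiv k (g i) = ∑ l, A i l * pderiv k (g' l)) :
    Et Z A.det g g' := by
  refine ⟨A, 1, h, ?_⟩
  rw [pow_one]
  exact det_inst _ _ _

theorem Et.vjet {Z : Finset (Fin n)} {g g' : β → MvPolynomial (Fin n) F}
    {A : Matrix β β (MvPolynomial (Fin n) F)} (κ : Fin ρ → Fin n)
    (h : ∀ k ∈ Z, ∀ i, pderiv k (g i) = ∑ l, A i l * pderiv k (g' l)) : ∀ l : ℕ,
    Et Z A.det (VN.vjet κ g l) (VN.vjet κ g' l)
  | 0 => Et.vec h
  | l + 1 => Et.prol κ (Et.vjet κ h l)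

end et

section gates

variable {F : Type} [Field F] {β : Type} {n : ℕ}

/-- the matrix of the partial derivatives of a gate with respect to its first argument -/
noncomputable def jacL (γ : β → MvPolynomial (β ⊕ β) F) (a b : β → MvPolynomial (Fin n) F) :
    Matrix β β (MvPolynomial (Fin n) F) :=
  Matrix.of fun i j => aeval (Sum.elim a b) (pderiv (Sum.inl j) (γ i))

/-- the matrix of the partial derivatives of a gate with respect to its second argument -/
noncomputable def jacR (γ : β → MvPolynomial (β ⊕ β) F) (a b : β → MvPolynomial (Fin n) F) :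
    Matrix β β (MvPolynomial (Fin n) F) :=
  Matrix.of fun i j => aeval (Sum.elim a b) (pderiv (Sum.inr j) (γ i))

/-- the condition on the arguments of a gate -/
def Okc [Fintype β] [DecidableEq β] (V : VanM F n) (e : ℕ) (Y₀ : Finset (Fin n)) (c : VT F β n)
    (J : Matrix β β (MvPolynomial (Fin n) F)) : Prop :=
  c.IsLeaf ∨ J = 0 ∨ ∀ Y, Y₀ ⊆ Y → J.det ∉ V.I e Y

/-- the determinants of the partial derivatives of the gates do not belong to the ideals -/
def VReg [Fintype β] [DecidableEq β] (V : VanM F n) (e : ℕ) (Y₀ : Finset (Fin n)) :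
    VT F β n → Prop
  | .leaf _ => True
  | .gate γ a b => VReg V e Y₀ a ∧ VReg V e Y₀ b ∧ Okc V e Y₀ a (jacL γ a.val b.val) ∧
      Okc V e Y₀ b (jacR γ a.val b.val)

variable [Fintype β] [DecidableEq β] {V : VanM F n} {Y₀ : Finset (Fin n)}

theorem Okc.mono {e e' : ℕ} {Y₁ : Finset (Fin n)} (he : e ≤ e') (hY : Y₀ ⊆ Y₁)
    {c : VT F β n} {J : Matrix β β (MvPolynomial (Fin n) F)} (h : Okc V e Y₀ c J) :
    Okc V e' Y₁ c J := by
  rcases h with h | h | h
  · exact Or.inl h
  · exact Or.inr (Or.inl h)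
  · exact Or.inr (Or.inr fun Y hY' hc => h Y (hY.trans hY') (V.mono he _ hc))

theorem VReg.mono {e e' : ℕ} {Y₁ : Finset (Fin n)} (he : e ≤ e') (hY : Y₀ ⊆ Y₁) {T : VT F β n}
    (h : VReg V e Y₀ T) : VReg V e' Y₁ T := by
  induction T with
  | leaf g => trivial
  | gate γ a b iha ihb =>
    exact ⟨iha h.1, ihb h.2.1, h.2.2.1.mono he hY, h.2.2.2.mono he hY⟩

end gates

end Pool.Agent.W936.VN
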