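import Mathlib
import Pool.Agent.W936.VN.Vec1

/-!
The family of classes of polynomials generated by a vector of polynomials.
-/

set_option autoImplicit false

namespace Pool.Agent.W936.VN

open MvPolynomial Module Pool.Agent.H530R2

section tree

variable {F : Type} [Field F] {β : Type} {n : ℕ} {V : VanM F n} {p : Cst} {Y₀ : Finset (Fin n)}

/-- polynomials in the jets of `g` and members of the class -/
def TV (𝔏 : LFam V p Y₀) (g : β → MvPolynomial (Fin n) F) (W : ℕ) :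
    Set (MvPolynomial (Fin n) F) :=
  {f | ∃ (ρ l : ℕ) (κ : Fin ρ → Fin n) (ι : Type) (_ : Fintype ι)
    (P : ι → MvPolynomial (Fin n) F), ρ ≤ W ∧ l ≤ W ∧ Fintype.card ι ≤ W ∧ (∀ i, P i ∈ 𝔏.K W) ∧
    f ∈ Algebra.adjoin F (Set.range (vjet κ g l) ∪ Set.range P)}

variable {𝔏 : LFam V p Y₀} {g : β → MvPolynomial (Fin n) F} {W W' : ℕ}

theorem TV.mono (h : W ≤ W') : TV 𝔏 g W ⊆ TV 𝔏 g W' := by
  rintro f ⟨ρ, l, κ, ι, i1, P, h1, h2, h3, h4, h5⟩
  exact ⟨ρ, l, κ, ι, i1, P, h1.trans h, h2.trans h, h3.trans h, fun i => 𝔏.mono h (h4 i), h5⟩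

theorem TV.val (j : β) : g j ∈ TV 𝔏 g W :=
  ⟨0, 0, Fin.elim0, Empty, inferInstance, Empty.elim, Nat.zero_le _, Nat.zero_le _,
    by simp, fun i => i.elim, Algebra.subset_adjoin (Or.inl ⟨j, rfl⟩)⟩

theorem TV.jet {ρ l : ℕ} (κ : Fin ρ → Fin n) (hρ : ρ ≤ W) (hl : l ≤ W) (i : JB β ρ l) :
    vjet κ g l i ∈ TV 𝔏 g W :=
  ⟨ρ, l, κ, Empty, inferInstance, Empty.elim, hρ, hl,
    by simp, fun i => i.elim, Algebra.subset_adjoin (Or.inl ⟨i, rfl⟩)⟩

theorem TV.ofK (hW : 1 ≤ W) {f : MvPolynomial (Fin n) F} (hf : f ∈ 𝔏.K W) : f ∈ TV 𝔏 g W :=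
  ⟨0, 0, Fin.elim0, Unit, inferInstance, fun _ => f, Nat.zero_le _, Nat.zero_le _,
    by simpa using hW, fun _ => hf, Algebra.subset_adjoin (Or.inr ⟨(), rfl⟩)⟩

theorem TV.comb {k : ℕ} {τ : Type} [Fintype τ] {h : τ → MvPolynomial (Fin n) F}
    {f : MvPolynomial (Fin n) F} (hτ : Fintype.card τ ≤ k) (hh : ∀ i, h i ∈ TV 𝔏 g W)
    (hf : f ∈ Algebra.adjoin F (Set.range h)) : f ∈ TV 𝔏 g (k * W + W) := by
  classical
  choose ρ l κ ι i1 P h1 h2 h3 h4 h5 using hh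
  have hcard : Fintype.card ((i : τ) × Fin (ρ i)) ≤ k * W := by
    rw [Fintype.card_sigma]
    calc ∑ i, Fintype.card (Fin (ρ i)) ≤ ∑ _i : τ, W :=
          Finset.sum_le_sum fun i _ => by rw [Fintype.card_fin]; exact h1 i
      _ = Fintype.card τ * W := by rw [Finset.sum_const, Finset.card_univ, smul_eq_mul]
      _ ≤ k * W := Nat.mul_le_mul_right _ hτ
  have hcard' : Fintype.card ((i : τ) × ι i) ≤ k * W := by
    rw [Fintype.card_sigma]
    calc ∑ i, Fintype.card (ι i) ≤ ∑ _i : τ, W := Finset.sum_le_sum fun i _ => h3 i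
      _ = Fintype.card τ * W := by rw [Finset.sum_const, Finset.card_univ, smul_eq_mul]
      _ ≤ k * W := Nat.mul_le_mul_right _ hτ
  refine ⟨Fintype.card ((i : τ) × Fin (ρ i)), W,
    fun q => κ ((Fintype.equivFin _).symm q).1 ((Fintype.equivFin _).symm q).2,
    (i : τ) × ι i, inferInstance, fun x => P x.1 x.2, by omega, by omega, by omega,
    fun x => 𝔏.mono (Nat.le_add_left _ _) (h4 x.1 x.2), ?_⟩
  refine (Algebra.adjoin_le ?_) hf
  rintro _ ⟨i, rfl⟩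
  refine Algebra.adjoin_mono ?_ (h5 i)
  apply Set.union_subset_union
  · refine (vjet_range_dir ?_ g (l i)).trans (vjet_range_mono _ g (h2 i))
    rintro _ ⟨q, rfl⟩
    refine ⟨Fintype.equivFin _ (⟨i, q⟩ : (i : τ) × Fin (ρ i)), ?_⟩
    beta_reduce
    rw [Equiv.symm_apply_apply]
  · rintro _ ⟨x, rfl⟩
    exact ⟨⟨i, x⟩, rfl⟩

theorem TV.der (k : Fin n) {f : MvPolynomial (Fin n) F} (hf : f ∈ TV 𝔏 g W) :
    pderiv k f ∈ TV 𝔏 g (2 * W + 1 + p.der W) := by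
  classical
  obtain ⟨ρ, l, κ, ι, i1, P, h1, h2, h3, h4, h5⟩ := hf
  refine ⟨ρ + 1, l + 1, Fin.cons k κ, ι ⊕ ι, inferInstance,
    Sum.elim P (fun i => pderiv k (P i)), by omega, by omega,
    by rw [Fintype.card_sum]; omega, ?_, ?_⟩
  · rintro (i | i)
    · exact 𝔏.mono (by omega) (h4 i)
    · exact 𝔏.mono (by omega) (𝔏.der_mem k (h4 i))
  · have hsub : Set.range (vjet κ g l) ⊆
        Set.range (vjet (Fin.cons k κ : Fin (ρ + 1) → Fin n) g l) := by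
      apply vjet_range_dir
      rintro _ ⟨q, rfl⟩
      exact ⟨q.succ, by rw [Fin.cons_succ]⟩
    refine pderiv_mem_of_adjoin k ?_ ?_ h5
    · rintro x (hx | ⟨i, rfl⟩)
      · exact Algebra.subset_adjoin (Or.inl (vjet_range_succ _ _ _ (hsub hx)))
      · exact Algebra.subset_adjoin (Or.inr ⟨Sum.inl i, rfl⟩)
    · rintro x (hx | ⟨i, rfl⟩)
      · have h6 := vjet_pderiv (Fin.cons k κ : Fin (ρ + 1) → Fin n) g l 0 (hsub hx)
        rw [Fin.cons_zero] at h6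
        exact Algebra.subset_adjoin (Or.inl h6)
      · exact Algebra.subset_adjoin (Or.inr ⟨Sum.inr i, rfl⟩)

/-- the family generated by a vector of polynomials -/
def vtree (𝔏 : LFam V p Y₀) (g : β → MvPolynomial (Fin n) F) (sd : ℕ → ℕ)
    (hsd : ∀ W, ∀ f ∈ TV 𝔏 g W, ∀ Y, Y₀ ⊆ Y → f ∈ V.I (sd W) Y → f = 0) :
    LFam V (p.next sd) Y₀ where
  K := TV 𝔏 g
  mono := TV.mono
  comb_mem := TV.comb
  der_mem := TV.der
  seeds := hsd

/-- the theorem for networks reading the variables outside the free set at most `k` times -/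
def VSeeds (F : Type) [Field F] (β : Type) [Fintype β] [DecidableEq β] (k : ℕ) : Prop :=
  ∀ (p : Cst) (eR W0 W : ℕ), ∃ e : ℕ, ∀ (n : ℕ) (V : VanM F n) (Y₀ : Finset (Fin n))
    (𝔏 : LFam V p Y₀) (T : VT F β n), (∀ i, i ∉ Y₀ → T.occ i ≤ k) → VReg V eR Y₀ T →
    T.Lv (𝔏.K W0) → ∀ f ∈ TV 𝔏 T.val W, ∀ Y, Y₀ ⊆ Y → f ∈ V.I e Y → f = 0

theorem VSeeds.zero [Fintype β] [DecidableEq β] : VSeeds F β 0 := by
  intro p eR W0 W
  refine ⟨p.em W W + W, ?_⟩
  intro n V Y₀ 𝔏 T hocc _ _ f hf Y hY hmem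
  obtain ⟨ρ, l, κ, ι, i1, P, h1, h2, h3, h4, h5⟩ := hf
  refine 𝔏.zero_free h4 h3 hY ?_ hmem
  refine (Algebra.adjoin_le ?_) h5
  rintro x (⟨i, rfl⟩ | ⟨i, rfl⟩)
  · have h6 : ∀ j, T.val j ∈ supported F (Y : Set (Fin n)) := by
      intro j
      refine supported_mono ?_ (T.val_supp j)
      intro i hi
      by_contra hc
      have := hocc i (fun hc' => hc (Finset.mem_coe.2 (hY hc')))
      exact hi (by omega)
    have h7 : vjet κ T.val l i ∈ supported F (Y : Set (Fin n)) :=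
      vjet_mem (fun _ => (supported F (Y : Set (Fin n)) : Set (MvPolynomial (Fin n) F))) h6
        (fun _ => le_rfl) (fun _ k x hx => pderiv_mem_supported k hx) l i
    exact Algebra.adjoin_mono Set.subset_union_right h7
  · exact Algebra.subset_adjoin (Or.inl ⟨i, rfl⟩)

end tree

end Pool.Agent.W936.VN
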