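import Mathlib
import Pool.Agent.W936.VN.Vec2

/-!
The induction for networks over a family of classes.
-/

set_option autoImplicit false

namespace Pool.Agent.W936.VN

open MvPolynomial Module Pool.Agent.H530R2

section claim

variable {F : Type} [Field F] {β : Type} {n : ℕ}

/-- the variables whose multiplicity is more than `k` -/
noncomputable def ZV (T : VT F β n) (Y : Finset (Fin n)) (k : ℕ) : Finset (Fin n) :=
  Finset.univ.filter fun i => i ∉ Y ∧ k < T.occ i

theorem mem_ZV {T : VT F β n} {Y : Finset (Fin n)} {k : ℕ} {i : Fin n} :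
    i ∈ ZV T Y k ↔ i ∉ Y ∧ k < T.occ i := by simp [ZV]

variable [Fintype β] [DecidableEq β]

/-- freeing the variables of multiplicity `k + 1`, by induction on the rank -/
theorem vec_claim (V : VanM F n) {Y₁ : Finset (Fin n)} {k N E eR : ℕ} {ρ l : ℕ}
    {κ : Fin ρ → Fin n} {ι : Type} [Fintype ι] {P : ι → MvPolynomial (Fin n) F}
    {L : Set (MvPolynomial (Fin n) F)} {f : MvPolynomial (Fin n) F}
    (hN : Fintype.card (JB β ρ l ⊕ ι) ≤ N) (heR : eR ≤ E)
    (hleaf : ∀ g : β → MvPolynomial (Fin n) F, (∀ j, g j ∈ L) → ∀ B Y : Finset (Fin n), Y₁ ⊆ Y →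
      Ctrl (B : Set (Fin n)) (Sum.elim (vjet κ g l) P) f → ∀ j, f ∈ V.I (j + E) Y →
      f ∈ V.I j (Y ∪ B))
    (hmem : ∀ B Y : Finset (Fin n), Y₁ ⊆ Y →
      Ctrl (B : Set (Fin n)) P f → ∀ j, f ∈ V.I (j + E) Y → f ∈ V.I j (Y ∪ B))
    (hone : ∀ a : VT F β n, VReg V eR Y₁ a → a.Lv L → ∀ Y : Finset (Fin n), Y₁ ⊆ Y →
      (∀ i, i ∉ Y → a.occ i ≤ k) → ∀ (ρ' : ℕ) (κ' : Fin ρ' → Fin n)
      (g : Fin ρ' → JB β ρ l ⊕ ι), ρ' ≤ N →
      (Matrix.of fun q q' => pderiv (κ' q) ((Sum.elim (vjet κ a.val l) P) (g q'))).det ≠ 0 →
      (Matrix.of fun q q' => pderiv (κ' q) ((Sum.elim (vjet κ a.val l) P) (g q'))).det ∉ V.I E Y)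
    (htwo : ∀ a b : VT F β n, VReg V eR Y₁ a → VReg V eR Y₁ b → a.Lv L → b.Lv L →
      ∀ B Y : Finset (Fin n), Y₁ ⊆ Y → (∀ i, i ∉ Y → a.occ i ≤ k) →
      (∀ i, i ∉ Y → b.occ i ≤ k) →
      Ctrl (B : Set (Fin n)) (Sum.elim (Sum.elim (vjet κ a.val l) (vjet κ b.val l)) P) f →
      ∀ j, f ∈ V.I (j + E) Y → f ∈ V.I j (Y ∪ B)) :
    ∀ (r : ℕ) (T : VT F β n), VReg V eR Y₁ T → T.Lv L → (∀ i, i ∉ Y₁ → T.occ i ≤ k + 1) →
      er (ZV T Y₁ k) (Sum.elim (vjet κ T.val l) P) ≤ r →
      Ctrl (ZV T Y₁ k : Set (Fin n)) (Sum.elim (vjet κ T.val l) P) f →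
      ∀ (j : ℕ) (Y : Finset (Fin n)), Y₁ ⊆ Y → f ∈ V.I (j + E + tc E (r + 1)) Y →
      f ∈ V.I (j + E) (Y ∪ ZV T Y₁ k) := by
  classical
  intro r
  induction r using Nat.strong_induction_on with
  | _ r IH =>
    intro T
    induction T with
    | leaf g =>
      intro _ hL _ _ hctl j Y hY hf
      refine hleaf g hL _ Y hY hctl (j + E) (V.mono ?_ _ hf)
      have := tc_ge E (r + 1)
      omega
    | gate γ a b iha ihb =>
      intro hR hL hocc her hctl j Y hY hf
      obtain ⟨hRa, hRb, hα, hα'⟩ := hR
      obtain ⟨hLa, hLb⟩ := hL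
      set T : VT F β n := .gate γ a b with hT
      have hoccT : ∀ i, T.occ i = a.occ i + b.occ i := fun i => rfl
      have hZa : ZV a Y₁ k ⊆ ZV T Y₁ k := by
        intro i hi
        rw [mem_ZV] at hi ⊢
        have := hoccT i
        exact ⟨hi.1, by omega⟩
      have hZb : ZV b Y₁ k ⊆ ZV T Y₁ k := by
        intro i hi
        rw [mem_ZV] at hi ⊢
        have := hoccT i
        exact ⟨hi.1, by omega⟩
      have hval : ∀ x, T.val x = aeval (Sum.elim a.val b.val) (γ x) := fun x => rfl
      -- the chain rule on the two sets
      have hda : ∀ i ∈ ZV a Y₁ k, ∀ x, pderiv i (T.val x) =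
          ∑ y, jacL γ a.val b.val x y * pderiv i (a.val y) := by
        intro i hi x
        rw [mem_ZV] at hi
        have h1 := hocc i hi.1
        have h2 := hoccT i
        rw [hval, pderiv_vgate]
        have h3 : ∀ y, pderiv i (b.val y) = 0 := fun y => VT.pderiv_val (by omega) y
        simp only [h3, mul_zero, Finset.sum_const_zero, add_zero]
        rfl
      have hdb : ∀ i ∈ ZV b Y₁ k, ∀ x, pderiv i (T.val x) =
          ∑ y, jacR γ a.val b.val x y * pderiv i (b.val y) := by
        intro i hi x
        rw [mem_ZV] at hi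
        have h1 := hocc i hi.1
        have h2 := hoccT i
        rw [hval, pderiv_vgate]
        have h3 : ∀ y, pderiv i (a.val y) = 0 := fun y => VT.pderiv_val (by omega) y
        simp only [h3, mul_zero, Finset.sum_const_zero, zero_add]
        rfl
      have hge := tc_ge E r
      -- the treatment of a child
      have hchild : ∀ (J : Matrix β β (MvPolynomial (Fin n) F)) (c : VT F β n),
          VReg V eR Y₁ c → c.Lv L → Okc V eR Y₁ c J →
          (∀ i, i ∉ Y₁ → c.occ i ≤ k + 1) → ZV c Y₁ k ⊆ ZV T Y₁ k →
          (∀ i ∈ ZV c Y₁ k, ∀ x, pderiv i (T.val x) = ∑ y, J x y * pderiv i (c.val y)) →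
          (er (ZV c Y₁ k) (Sum.elim (vjet κ c.val l) P) ≤ r →
            Ctrl (ZV c Y₁ k : Set (Fin n)) (Sum.elim (vjet κ c.val l) P) f →
            ∀ (j : ℕ) (Y : Finset (Fin n)), Y₁ ⊆ Y → f ∈ V.I (j + E + tc E (r + 1)) Y →
            f ∈ V.I (j + E) (Y ∪ ZV c Y₁ k)) →
          f ∈ V.I (j + E) (Y ∪ ZV T Y₁ k) ∨
            ∀ (j : ℕ) (Y : Finset (Fin n)), Y₁ ⊆ Y →
              f ∈ V.I (j + E + tc E r) Y → f ∈ V.I (j + E) (Y ∪ ZV c Y₁ k) := by
        intro J c hRc hLc hOk hoccc hZc hdc hrec
        have het : Et (ZV c Y₁ k) J.det (Sum.elim (vjet κ T.val l) P)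
            (Sum.elim (vjet κ c.val l) P) := (Et.vjet κ hdc l).sum P
        have hctl' : Ctrl (ZV c Y₁ k : Set (Fin n)) (Sum.elim (vjet κ c.val l) P) f :=
          Ctrl.trans (fun i => het.ctrl i) (hctl.mono (by exact_mod_cast hZc))
        rcases hOk with hOk | hOk | hOk
        · -- leaves
          right
          intro j Y hY hf
          cases c with
          | leaf g =>
            refine hleaf g hLc _ Y hY hctl' (j + E) (V.mono ?_ _ hf)
            omega
          | gate γ' a' b' => exact hOk.elim
        · -- no dependence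
          right
          intro j Y hY hf
          have hctl' : Ctrl (ZV c Y₁ k : Set (Fin n)) P f := by
            refine Ctrl.trans (J' := Sum.elim (vjet κ T.val l) P) ?_
              (hctl.mono (by exact_mod_cast hZc))
            rintro (i | i)
            · refine ⟨0, fun x hx => ?_⟩
              rw [Sum.elim_inl, vjet_zero κ (fun y => by
                rw [hdc x (Finset.mem_coe.1 hx), hOk]
                simp only [Matrix.zero_apply, zero_mul, Finset.sum_const_zero])]
              simp
            · refine ⟨Pi.single i 1, fun x _ => ?_⟩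
              rw [Finset.sum_eq_single i]
              · simp
              · intro b _ hb
                rw [Pi.single_eq_of_ne hb, zero_mul]
              · intro h; exact absurd (Finset.mem_univ _) h
          refine hmem _ Y hY hctl' (j + E) (V.mono ?_ _ hf)
          omega
        · have hα0 : J.det ≠ 0 := fun hc => hOk Y₁ le_rfl (by rw [hc]; exact Ideal.zero_mem _)
          have her' := het.er_eq hα0
          have hmono := er_mono hZc (Sum.elim (vjet κ T.val l) P)
          by_cases hlt : er (ZV c Y₁ k) (Sum.elim (vjet κ c.val l) P) <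
              er (ZV T Y₁ k) (Sum.elim (vjet κ T.val l) P)
          · right
            intro j Y hY hf
            obtain ⟨r', rfl⟩ : ∃ r', r = r' + 1 := ⟨r - 1, by omega⟩
            exact IH r' (by omega) c hRc hLc hoccc (by omega) hctl' j Y hY hf
          · left
            have h1 := hrec (by omega) hctl' j Y hY hf
            -- all further steps are lossless
            obtain ⟨ρ', m, κ', g, hρ', hκ', hμ, hrel⟩ := het.cramer
            have hspeq : sp (ZV c Y₁ k) (Sum.elim (vjet κ T.val l) P) =
                sp (ZV T Y₁ k) (Sum.elim (vjet κ T.val l) P) := by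
              apply Submodule.eq_of_le_of_finrank_le
              · unfold sp
                apply Submodule.span_mono
                apply Set.image_mono
                exact_mod_cast hZc
              · have h2 : er (ZV T Y₁ k) (Sum.elim (vjet κ T.val l) P) ≤
                    er (ZV c Y₁ k) (Sum.elim (vjet κ T.val l) P) := by omega
                exact h2
            set μ := (Matrix.of fun q q' =>
              pderiv (κ' q) ((Sum.elim (vjet κ c.val l) P) (g q'))).det with hμdef
            have hnon : ∀ Y', Y ∪ ZV c Y₁ k ⊆ Y' →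
                μ * J.det ^ m ∉ V.I (j + E) Y' := by
              intro Y' hY' hmem'
              have hpr := V.prime (j + E) Y'
              rcases hpr.mem_or_mem hmem' with h3 | h3
              · refine hone c hRc hLc Y' (hY.trans (Finset.subset_union_left.trans hY')) ?_
                  ρ' κ' g (hρ'.trans hN) hμ (V.mono (Nat.le_add_left _ _) _ h3)
                intro i hi
                by_contra hc
                apply hi
                apply hY'
                apply Finset.mem_union_right
                rw [mem_ZV]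
                exact ⟨fun hc' => hi (hY' (Finset.mem_union_left _ (hY hc'))), by omega⟩
              · have h4 := hpr.mem_of_pow_mem _ h3
                exact hOk Y' (hY.trans (Finset.subset_union_left.trans hY'))
                  (V.mono (by omega) _ h4)
            have hall : ∀ S : Finset (Fin n), S ⊆ ZV T Y₁ k →
                f ∈ V.I (j + E) (S ∪ (Y ∪ ZV c Y₁ k)) := by
              intro S
              induction S using Finset.induction_on with
              | empty => intro _; rw [Finset.empty_union]; exact h1
              | insert i S _ ihS =>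
                intro hS
                have ihS' := ihS (fun x hx => hS (Finset.mem_insert_of_mem hx))
                have hiT : i ∈ ZV T Y₁ k := hS (Finset.mem_insert_self _ _)
                rw [Finset.insert_union]
                by_cases hi : i ∈ S ∪ (Y ∪ ZV c Y₁ k)
                · rwa [Finset.insert_eq_of_mem hi]
                · obtain ⟨cf, hcf⟩ := hrel i (by
                    rw [hspeq]
                    exact Submodule.subset_span ⟨i, Finset.mem_coe.2 hiT, rfl⟩)
                  exact V.lossless1 hi (fun q => Finset.mem_union_right _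
                      (Finset.mem_union_right _ (hκ' q)))
                    (ctrl_pde hctl (Finset.mem_coe.2 hiT)
                      (fun q => Finset.mem_coe.2 (hZc (hκ' q))) hcf) ihS'
                    (hnon _ Finset.subset_union_right)
            have h5 := hall (ZV T Y₁ k) le_rfl
            have h6 : ZV T Y₁ k ∪ (Y ∪ ZV c Y₁ k) = Y ∪ ZV T Y₁ k := by
              rw [Finset.union_comm, Finset.union_assoc]
              congr 1
              exact Finset.union_eq_right.2 hZc
            rwa [h6] at h5
      have hocca : ∀ i, i ∉ Y₁ → a.occ i ≤ k + 1 := fun i hi => by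
        have h1 := hocc i hi
        have h2 := hoccT i
        omega
      have hoccb : ∀ i, i ∉ Y₁ → b.occ i ≤ k + 1 := fun i hi => by
        have h1 := hocc i hi
        have h2 := hoccT i
        omega
      rcases hchild _ a hRa hLa hα hocca hZa hda (fun h1 h2 => iha hRa hLa hocca h1 h2) with h | hfa
      · exact h
      rcases hchild _ b hRb hLb hα' hoccb hZb hdb (fun h1 h2 => ihb hRb hLb hoccb h1 h2)
        with h | hfb
      · exact h
      -- free both children, then the remaining variables
      have htc : tc E (r + 1) = 2 * tc E r + 3 * E := rfl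
      have h1 : f ∈ V.I (j + (tc E r + 2 * E) + E) (Y ∪ ZV a Y₁ k) := by
        refine hfa (j + (tc E r + 2 * E)) Y hY (V.mono ?_ _ hf)
        omega
      have h2 : f ∈ V.I (j + E + E) (Y ∪ ZV a Y₁ k ∪ ZV b Y₁ k) := by
        refine hfb (j + E) _ (hY.trans Finset.subset_union_left) (V.mono ?_ _ h1)
        omega
      have h3 : f ∈ V.I (j + E) (Y ∪ ZV a Y₁ k ∪ ZV b Y₁ k ∪ ZV T Y₁ k) := by
        refine htwo a b hRa hRb hLa hLb _ _
          (hY.trans (Finset.subset_union_left.trans Finset.subset_union_left)) ?_ ?_ ?_ (j + E) h2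
        · intro i hi
          by_contra hc
          apply hi
          apply Finset.mem_union_left
          apply Finset.mem_union_right
          rw [mem_ZV]
          exact ⟨fun hc' => hi (Finset.mem_union_left _ (Finset.mem_union_left _ (hY hc'))),
            by omega⟩
        · intro i hi
          by_contra hc
          apply hi
          apply Finset.mem_union_right
          rw [mem_ZV]
          exact ⟨fun hc' => hi (Finset.mem_union_left _ (Finset.mem_union_left _ (hY hc'))),
            by omega⟩
        · refine Ctrl.trans (J' := Sum.elim (vjet κ T.val l) P) ?_ hctl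
          have hgen : ∀ x ∈ Algebra.adjoin F (Set.range (Sum.elim (Sum.elim (vjet κ a.val l)
              (vjet κ b.val l)) P)), Ctrl (ZV T Y₁ k : Set (Fin n))
              (Sum.elim (Sum.elim (vjet κ a.val l) (vjet κ b.val l)) P) x := by
            intro x hx
            refine (ctrl_of_adjoin (W := ∅) ?_).mono (Set.subset_univ _ |>.trans (by simp))
            exact Algebra.adjoin_mono Set.subset_union_left hx
          rintro (i | i)
          · apply hgen
            have h4 : ∀ x, T.val x ∈ Algebra.adjoin F (Set.range a.val ∪ Set.range b.val) := by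
              intro x
              rw [← Set.Sum.elim_range, Algebra.adjoin_range_eq_range_aeval]
              exact ⟨γ x, rfl⟩
            refine Algebra.adjoin_mono ?_ (vjet_adjoin κ h4 l i)
            rintro x (⟨i, rfl⟩ | ⟨i, rfl⟩)
            · exact ⟨Sum.inl (Sum.inl i), rfl⟩
            · exact ⟨Sum.inl (Sum.inr i), rfl⟩
          · apply hgen
            exact Algebra.subset_adjoin ⟨Sum.inr i, rfl⟩
      have h6 : Y ∪ ZV a Y₁ k ∪ ZV b Y₁ k ∪ ZV T Y₁ k = Y ∪ ZV T Y₁ k := by
        rw [Finset.union_assoc, Finset.union_assoc]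
        congr 1
        rw [← Finset.union_assoc]
        exact Finset.union_eq_right.2 (Finset.union_subset hZa hZb)
      rwa [h6] at h3

end claim

end Pool.Agent.W936.VN
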