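import Mathlib
import Pool.Agent.W936.WB.Hits
import Pool.Agent.W936.VN.Vec4

/-!
The hitting theorem for networks of any depth whose gates are nonsingular at the origin.
-/

set_option autoImplicit false

namespace Pool.Agent.W936.VN

open MvPolynomial Module Pool.Agent.H530R2

section hit

variable {F : Type} [Field F] [CharZero F] {β : Type} [Fintype β] [DecidableEq β]

/-- the condition at the origin -/
def SOk {n : ℕ} (σ : Fin n → F) (c : VT F β n) (J : Matrix β β (MvPolynomial (Fin n) F)) : Prop :=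
  c.IsLeaf ∨ J = 0 ∨ eval σ J.det ≠ 0

/-- all gates are nonsingular at the origin -/
def SReg {n : ℕ} (σ : Fin n → F) : VT F β n → Prop
  | .leaf _ => True
  | .gate γ a b => SReg σ a ∧ SReg σ b ∧ SOk σ a (jacL γ a.val b.val) ∧
      SOk σ b (jacR γ a.val b.val)

theorem SReg.vreg {n : ℕ} {σ : Fin n → F} {T : VT F β n} (h : SReg σ T) :
    VReg (shVan (F := F) _ (natInj n) σ) 0 ∅ T := by
  have key : ∀ (c : VT F β n) (J : Matrix β β (MvPolynomial (Fin n) F)), SOk σ c J →
      Okc (shVan (F := F) _ (natInj n) σ) 0 ∅ c J := by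
    rintro c J (h | h | h)
    · exact Or.inl h
    · exact Or.inr (Or.inl h)
    · exact Or.inr (Or.inr fun Y _ hc => h (shVan_zero _ _ σ Y hc))
  induction T with
  | leaf g => trivial
  | gate γ a b iha ihb => exact ⟨iha h.1, ihb h.2.1, key _ _ h.2.2.1, key _ _ h.2.2.2⟩

/-- polynomials in `w` networks -/
theorem poly_hitV (β : Type) [Fintype β] [DecidableEq β] (𝔎 : Fam F) (k w W0 : ℕ) : ∃ m : ℕ,
    ∀ (n s : ℕ) (σ : Fin n → F),
    shVan (F := F) _ (natInj n) σ ∈ 𝔎.Ok s n → ∀ T : Fin w → VT F β n,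
    (∀ q, (T q).Lv (𝔎.K s n W0)) →
    (∀ q i, (T q).occ i ≤ k) → (∀ q, SReg σ (T q)) →
    ∀ f ∈ Algebra.adjoin F (Set.range fun x : Fin w × β => (T x.1).val x.2), f ≠ 0 →
    f ∉ (shVan (F := F) _ (natInj n) σ).I m ∅ := by
  classical
  set p := vcst F β k 0 W0 𝔎.cst w with hp
  refine ⟨p.sd (p.comb (w * Fintype.card β) (W0 + w)), ?_⟩
  intro n s σ hok T hL hocc hreg f hf hf0 hmem
  obtain ⟨𝔏', _, h2⟩ := vtrees (𝔎.toL hok) k 0 W0 w T
    (fun q i _ => hocc q i) (fun q => (hreg q).vreg) (fun q => hL q)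
  apply hf0
  exact 𝔏'.seeds _ _ (𝔏'.comb_mem (ι := Fin w × β) (g := fun x => (T x.1).val x.2)
    (by rw [Fintype.card_prod, Fintype.card_fin]) (fun x => h2 x.1 (W0 + w) x.2
      (Nat.le_add_left _ _)) hf) ∅ le_rfl hmem

end hit

end Pool.Agent.W936.VN
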