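import Mathlib
import Pool.Agent.W936.XN.Run
import Pool.Agent.W936.LC.Class
import Pool.Agent.W936.VN.Hit

/-!
Networks whose values are pairs of polynomials and whose gates are bilinear: formulas with division.
-/

set_option autoImplicit false

namespace Pool.Agent.W936.VN

open MvPolynomial Pool.Agent.H530R2 Pool.Agent.W936.RO Pool.Agent.W936.WB Pool.Agent.W936.XN
  Pool.Agent.W936.LC

open Pool.Agent.Results.MP_e2be99_lc.FormulasOverSparse (contents bd contents_eq)

variable {n : ℕ}

/-- `Prg w s D f`: the polynomial `f` is computed with depth `D`.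
* Depth `0`: polynomials with at most `s` monomials.
* `program` (depth `D + 1`): a polynomial `P` in the contents of the at most `w` registers of a
  linear program of any length `R`, whose matrices have entries of depth `D`, where every variable
  occurs in at most `w` of the matrices `M 0, …, M (R - 1)`. -/
inductive Prg {n : ℕ} (w s : ℕ) : ℕ → MvPolynomial (Fin n) ℂ → Prop
  | sparse {f : MvPolynomial (Fin n) ℂ} : f.support.card ≤ s → Prg w s 0 f
  | program {D u : ℕ} (c₀ : Fin u → ℂ)
      (M : ℕ → Matrix (Fin u) (Fin u) (MvPolynomial (Fin n) ℂ)) (R : ℕ)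
      (P : MvPolynomial (Fin u) ℂ) : u ≤ w →
      (∀ x, ((Finset.range R).filter fun b => ∃ i j, x ∈ (M b i j).vars).card ≤ w) →
      (∀ b i j, Prg w s D (M b i j)) → Prg w s (D + 1) (aeval (contents c₀ M R) P)

theorem prg_mem {w s D : ℕ} (𝔎 : Fam (RatFunc ℂ)) (σ : ℕ)
    (h𝔎 : ∀ f : MvPolynomial (Fin n) ℂ, f.support.card ≤ s → sext f ∈ 𝔎.K σ n 1)
    {f : MvPolynomial (Fin n) ℂ} (h : Prg w s D f) :
    sext f ∈ (up 𝔎 D).K σ n (bd w D) := by
  classical
  induction h with
  | @sparse f hf => exact h𝔎 f hf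
  | @program D u c₀ M R P hu hocc _ ih =>
    have hκ : ∀ x, ((Finset.range R).filter fun b =>
        x ∈ mv ((M b).map (map (algebraMap ℂ (RatFunc ℂ))))).card ≤ w := by
      intro x
      refine le_trans (Finset.card_le_card (t := (Finset.range R).filter fun b =>
        ∃ i j, x ∈ (M b i j).vars) ?_) (le_trans (le_of_eq ?_) (hocc x))
      · intro b hb
        rw [Finset.mem_filter] at hb ⊢
        refine ⟨hb.1, ?_⟩
        obtain ⟨i, j, hij⟩ := mem_mv.1 hb.2
        rw [Matrix.map_apply] at hij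
        exact ⟨i, j, by rwa [ext_vars] at hij⟩
      · congr!
    have huu : u * u ≤ w * w := Nat.mul_le_mul hu hu
    have hc : ∀ i, ∃ y, (fun j => C (algebraMap ℂ (RatFunc ℂ) (c₀ j)) :
        Fin u → MvPolynomial (Fin n) (RatFunc ℂ)) i = C y := fun i => ⟨_, rfl⟩
    have hbd : 1 ≤ bd w D := by
      clear * -
      induction D with
      | zero => exact le_rfl
      | succ D ih => simp only [bd]; omega
    have hf : sext (aeval (contents c₀ M R) P) ∈
        Algebra.adjoin (RatFunc ℂ) (Set.range (lin (fun j => C (algebraMap ℂ (RatFunc ℂ) (c₀ j)))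
          (fun t => (M t).map (map (algebraMap ℂ (RatFunc ℂ)))) R)) := by
      rw [ext_aeval, Algebra.adjoin_range_eq_range_aeval]
      refine ⟨map (algebraMap ℂ (RatFunc ℂ)) P, ?_⟩
      show aeval _ _ = aeval _ _
      congr 2
      funext i
      rw [contents_eq]
      exact (lin_map c₀ M R i).symm
    have hM : ∀ b i j, ((M b).map (map (algebraMap ℂ (RatFunc ℂ)))) i j ∈
        (up 𝔎 D).K σ n (bd w D) := fun b i j => ih b i j
    exact lin_out (κ := w) hc hM R hκ
      (by simp only [bd]; omega) (by simp only [bd]; omega) (by simp only [bd]; omega) hf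

theorem contents_sbt' {u : ℕ} (x : Fin n) (a : ℂ) (c₀ : Fin u → ℂ)
    (N : ℕ → Matrix (Fin u) (Fin u) (MvPolynomial (Fin n) ℂ)) (b : ℕ) :
    ∀ j, sbt x a (contents c₀ N b j) = contents c₀ (fun b => (N b).map (sbt x a)) b j := by
  induction b with
  | zero => intro j; simp only [contents, sbt_C]
  | succ b ih =>
    intro j
    simp only [contents, Matrix.vecMul, dotProduct, map_sum, map_mul, ih, Matrix.map_apply]

theorem prg_sbt {w s D : ℕ} (x : Fin n) (a : ℂ)
    {f : MvPolynomial (Fin n) ℂ} (h : Prg w s D f) : Prg w s D (sbt x a f) := by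
  classical
  induction h with
  | @sparse f hf =>
    refine Prg.sparse ?_
    refine le_trans (Finset.card_le_card (t := f.support.image fun e => e.erase x) ?_)
      (Finset.card_image_le.trans hf)
    intro b hb
    obtain ⟨e, he, rfl⟩ := support_sbt x a f hb
    exact Finset.mem_image_of_mem _ he
  | @program D u c₀ M R P hu hocc _ ih =>
    have h1 : sbt x a (aeval (contents c₀ M R) P) =
        aeval (contents c₀ (fun b => (M b).map (sbt x a)) R) P := by
      rw [comp_aeval_apply]
      congr 2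
      funext j
      exact contents_sbt' x a c₀ M R j
    rw [h1]
    refine Prg.program c₀ _ R P hu (fun y => ?_) (fun b i j => ih b i j)
    refine le_trans (Finset.card_le_card ?_) (hocc y)
    intro b hb
    rw [Finset.mem_filter] at hb ⊢
    obtain ⟨hb1, i, j, hij⟩ := hb
    exact ⟨hb1, i, j, (vars_sbt x a _ hij).2⟩

/-- Expressions for fractions of polynomials in `n` variables. The value is a pair (numerator,
denominator) of polynomials; a leaf is a pair of polynomials; a gate `t` with the arguments `a`, `b`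
has the value `(∑ t_0jk a_j b_k, ∑ t_1jk a_j b_k)`, so that it computes
`(t₁₁ + t₀₁ a + t₁₀ b + t₀₀ ab) / (t'₁₁ + t'₀₁ a + t'₁₀ b + t'₀₀ ab)` from the fractions `a`, `b`,
where `t = t 0`, `t' = t 1`: for instance `a + b`, `a - b`, `ab`, `a/b`. -/
inductive Frac (n : ℕ) : Type
  | leaf (p q : MvPolynomial (Fin n) ℂ) : Frac n
  | gate (t : Fin 2 → Fin 2 → Fin 2 → ℂ) (a b : Frac n) : Frac n

/-- the pair (numerator, denominator) -/
noncomputable def Frac.val : Frac n → Fin 2 → MvPolynomial (Fin n) ℂ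
  | .leaf p q => ![p, q]
  | .gate t a b => fun i => ∑ j, ∑ k, C (t i j k) * a.val j * b.val k

open Classical in
/-- the number of leaves in which the variable `x` occurs -/
noncomputable def Frac.reads : Frac n → Fin n → ℕ
  | .leaf p q, x => if x ∈ p.vars ∪ q.vars then 1 else 0
  | .gate _ a b, x => a.reads x + b.reads x

/-- all leaves consist of polynomials with the property `L` -/
def Frac.Leaves (L : MvPolynomial (Fin n) ℂ → Prop) : Frac n → Prop
  | .leaf p q => L p ∧ L q
  | .gate _ a b => a.Leaves L ∧ b.Leaves L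

/-- leaves -/
def Frac.IsLeaf : Frac n → Prop
  | .leaf _ _ => True
  | .gate _ _ _ => False

/-- the matrix of a gate as a linear map of its first argument -/
noncomputable def lmat {R : Type} [CommRing R] (t : Fin 2 → Fin 2 → Fin 2 → R) (v : Fin 2 → R) :
    Matrix (Fin 2) (Fin 2) R := Matrix.of fun i j => ∑ k, t i j k * v k

/-- the matrix of a gate as a linear map of its second argument -/
noncomputable def rmat {R : Type} [CommRing R] (t : Fin 2 → Fin 2 → Fin 2 → R) (v : Fin 2 → R) :
    Matrix (Fin 2) (Fin 2) R := Matrix.of fun i k => ∑ j, t i j k * v j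

/-- the constant tensor over the polynomials -/
noncomputable def ct (t : Fin 2 → Fin 2 → Fin 2 → ℂ) :
    Fin 2 → Fin 2 → Fin 2 → MvPolynomial (Fin n) ℂ := fun i j k => C (t i j k)

/-- the tests: the determinants of the gates as linear maps of their first and second arguments -/
noncomputable def Frac.dets : Frac n → List (MvPolynomial (Fin n) ℂ)
  | .leaf _ _ => []
  | .gate t a b => a.dets ++ b.dets ++ [(lmat (ct t) b.val).det, (rmat (ct t) a.val).det]

theorem det_ext (J : Matrix (Fin 2) (Fin 2) (MvPolynomial (Fin n) ℂ)) :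
    (J.map sext).det = sext J.det := by
  rw [Matrix.det_fin_two, Matrix.det_fin_two, map_sub, map_mul, map_mul]
  rfl

/-- the condition for a child -/
def FOk (σ : Fin n → ℂ) (c : Frac n) (J : Matrix (Fin 2) (Fin 2) (MvPolynomial (Fin n) ℂ)) :
    Prop := c.IsLeaf ∨ J = 0 ∨ eval σ J.det ≠ 0

/-- all gates are nonsingular at the origin -/
def FReg (σ : Fin n → ℂ) : Frac n → Prop
  | .leaf _ _ => True
  | .gate t a b => FReg σ a ∧ FReg σ b ∧ FOk σ a (lmat (ct t) b.val) ∧
      FOk σ b (rmat (ct t) a.val)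

/-- the gate of the network -/
noncomputable def gat (t : Fin 2 → Fin 2 → Fin 2 → ℂ) (i : Fin 2) :
    MvPolynomial (Fin 2 ⊕ Fin 2) (RatFunc ℂ) :=
  ∑ j, ∑ k, C (algebraMap ℂ (RatFunc ℂ) (t i j k)) * X (Sum.inl j) * X (Sum.inr k)

/-- translation to networks -/
noncomputable def toVT : Frac n → VT (RatFunc ℂ) (Fin 2) n
  | .leaf p q => .leaf fun i => sext (![p, q] i)
  | .gate t a b => .gate (gat t) (toVT a) (toVT b)

theorem ext_C' (c : ℂ) : sext (C c : MvPolynomial (Fin n) ℂ) = C (algebraMap ℂ (RatFunc ℂ) c) :=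
  map_C _ _

theorem toVT_val (E : Frac n) (i : Fin 2) : (toVT E).val i = sext (E.val i) := by
  induction E generalizing i with
  | leaf p q => rfl
  | gate t a b iha ihb =>
    simp only [toVT, VT.val, Frac.val, gat, map_sum, map_mul, aeval_X, algHom_C, Sum.elim_inl,
      Sum.elim_inr, iha, ihb, ext_C']
    rfl

theorem toVT_occ (E : Frac n) (x : Fin n) : (toVT E).occ x = E.reads x := by
  classical
  induction E with
  | leaf p q =>
    simp only [toVT, VT.occ, Frac.reads, ext_vars]
    congr 1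
    rw [Finset.mem_union, eq_iff_iff]
    constructor
    · rintro ⟨j, hj⟩
      fin_cases j
      · exact Or.inl hj
      · exact Or.inr hj
    · rintro (h | h)
      · exact ⟨0, h⟩
      · exact ⟨1, h⟩
  | gate t a b iha ihb => simp only [toVT, VT.occ, Frac.reads, iha, ihb]

theorem jacL_gat (t : Fin 2 → Fin 2 → Fin 2 → ℂ) (a b : Frac n) :
    jacL (gat t) (toVT a).val (toVT b).val = (lmat (ct t) b.val).map sext := by
  ext1 i j
  have h1 : pderiv (Sum.inl j) (gat t i) =
      ∑ k, C (algebraMap ℂ (RatFunc ℂ) (t i j k)) * X (Sum.inr k) := by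
    simp only [gat, map_sum, pderiv_mul, pderiv_C, zero_mul, zero_add, pderiv_X,
      Pi.single_apply, reduceCtorEq, if_false, mul_zero, add_zero, Sum.inl.injEq]
    rw [Finset.sum_comm]
    refine Finset.sum_congr rfl fun k _ => ?_
    rw [Finset.sum_eq_single j]
    · rw [if_pos rfl, mul_one]
    · intro j' _ hj
      rw [if_neg hj, mul_zero, zero_mul]
    · intro h
      exact absurd (Finset.mem_univ _) h
  simp only [jacL, Matrix.of_apply, h1, map_sum, map_mul, aeval_X, algHom_C, Sum.elim_inr,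
    toVT_val, Matrix.map_apply, lmat, ct, ext_C']
  rfl

theorem jacR_gat (t : Fin 2 → Fin 2 → Fin 2 → ℂ) (a b : Frac n) :
    jacR (gat t) (toVT a).val (toVT b).val = (rmat (ct t) a.val).map sext := by
  ext1 i k
  have h1 : pderiv (Sum.inr k) (gat t i) =
      ∑ j, C (algebraMap ℂ (RatFunc ℂ) (t i j k)) * X (Sum.inl j) := by
    simp only [gat, map_sum, pderiv_mul, pderiv_C, zero_mul, zero_add, pderiv_X,
      Pi.single_apply, reduceCtorEq, if_false, mul_zero, Sum.inr.injEq]
    refine Finset.sum_congr rfl fun j _ => ?_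
    rw [Finset.sum_eq_single k]
    · rw [if_pos rfl, mul_one]
    · intro k' _ hk
      rw [if_neg hk, mul_zero]
    · intro h
      exact absurd (Finset.mem_univ _) h
  simp only [jacR, Matrix.of_apply, h1, map_sum, map_mul, aeval_X, algHom_C, Sum.elim_inl,
    toVT_val, Matrix.map_apply, rmat, ct, ext_C']
  rfl

theorem toVT_leaf {c : Frac n} (h : c.IsLeaf) : (toVT c).IsLeaf := by
  cases c with
  | leaf p q => trivial
  | gate t a b => exact h.elim

theorem toVT_reg {σ : Fin n → ℂ} {N : ℕ} {E : Frac n} (h : FReg σ E) :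
    SReg (rpt (sbase σ N)) (toVT E) := by
  have key : ∀ (c : Frac n) (J : Matrix (Fin 2) (Fin 2) (MvPolynomial (Fin n) ℂ)), FOk σ c J →
      SOk (rpt (sbase σ N)) (toVT c) (J.map sext) := by
    rintro c J (h | h | h)
    · exact Or.inl (toVT_leaf h)
    · right; left
      rw [h]
      ext1 i j
      exact map_zero (map (algebraMap ℂ (RatFunc ℂ)))
    · right; right
      rw [det_ext]
      exact eval_rpt_ne (sbase_ne_of_eval h)
  induction E with
  | leaf p q => trivial
  | gate t a b iha ihb =>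
    obtain ⟨h1, h2, h3, h4⟩ := h
    refine ⟨iha h1, ihb h2, ?_, ?_⟩
    · rw [jacL_gat]
      exact key _ _ h3
    · rw [jacR_gat]
      exact key _ _ h4

/-- leaves of the modified expressions -/
def LfP (w s D : ℕ) (g : MvPolynomial (Fin n) ℂ) : Prop := Prg w s D g ∨ ∃ c, g = C c

/-- the condition on the expressions -/
def FGood (w s D : ℕ) (E : Frac n) : Prop := E.Leaves (LfP w s D) ∧ ∀ x, E.reads x ≤ w

theorem toVT_lv {w s D : ℕ} {𝔎 : Fam (RatFunc ℂ)} {σ : ℕ}
    (h𝔎 : ∀ f : MvPolynomial (Fin n) ℂ, f.support.card ≤ s → sext f ∈ 𝔎.K σ n 1)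
    (E : Frac n) (h : E.Leaves (LfP w s D)) :
    (toVT E).Lv ((up 𝔎 D).K σ n (bd w D + (up 𝔎 D).c0)) := by
  have key : ∀ g, LfP w s D g → sext g ∈ (up 𝔎 D).K σ n (bd w D + (up 𝔎 D).c0) := by
    rintro g (h | ⟨c, rfl⟩)
    · exact (up 𝔎 D).mono (Nat.le_add_right _ _) (prg_mem 𝔎 σ h𝔎 h)
    · rw [ext_C']
      exact (up 𝔎 D).const (Nat.le_add_left _ _) _
  induction E with
  | leaf p q =>
    intro j
    fin_cases j
    · exact key _ h.1
    · exact key _ h.2
  | gate t a b iha ihb => exact ⟨iha h.1, ihb h.2⟩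

/-- polynomials in `q` expressions are hit -/
theorem frac_hit (w D q : ℕ) : ∃ A m : ℕ, ∀ n s N : ℕ, (s + 3) ^ A ≤ N → ∀ σ : Fin n → ℂ,
    (∀ i, σ i ≠ 0) → ∀ E : Fin q → Frac n, (∀ i, FGood w s D (E i) ∧ FReg σ (E i)) →
    ∀ f ∈ Algebra.adjoin (RatFunc ℂ) (Set.range fun x : Fin q × Fin 2 =>
      sext ((E x.1).val x.2)), f ≠ 0 → f ∉ (rVan (sbase σ N)).I m ∅ := by
  classical
  by_contra hcon
  push Not at hcon
  choose n_ s_ N_ hN σ_ hσ E_ hE f_ hf_ hf0 hev using fun k => hcon k k
  have hβ : ∀ k (h : MvPolynomial (Fin (n_ k)) ℂ), h ≠ 0 →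
      h.support.card ≤ (s_ k + 1 + 2) ^ k → aeval (sbase (σ_ k) (N_ k)) h ≠ 0 :=
    fun k h h0 hs => sbase_ne (hσ k) h0 (hs.trans (hN k))
  set 𝔎 : Fam (RatFunc ℂ) := bfam n_ (fun k => s_ k + 1) (fun k => sbase (σ_ k) (N_ k)) hβ
    with h𝔎
  obtain ⟨m, hm⟩ := poly_hitV (F := RatFunc ℂ) (Fin 2) (up 𝔎 D) w q (bd w D + (up 𝔎 D).c0)
  have hmem : ∀ f : MvPolynomial (Fin (n_ m)) ℂ, f.support.card ≤ s_ m →
      sext f ∈ 𝔎.K m (n_ m) 1 := fun f hf => bfam_mem hβ m (hf.trans (Nat.le_succ _))
  refine hm (n_ m) m (rpt (sbase (σ_ m) (N_ m))) (bfam_ok hβ D m) (fun i => toVT (E_ m i))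
    (fun i => toVT_lv hmem _ (hE m i).1.1) (fun i x => ?_) (fun i => toVT_reg (hE m i).2) (f_ m)
    ?_ (hf0 m) (hev m)
  · rw [toVT_occ]
    exact (hE m i).1.2 x
  · refine Algebra.adjoin_mono ?_ (hf_ m)
    rintro _ ⟨x, rfl⟩
    exact ⟨x, toVT_val _ _⟩

theorem fgood_const {w s D : ℕ} (c d : ℂ) : FGood w s D (.leaf (C c) (C d) : Frac n) := by
  refine ⟨⟨Or.inr ⟨c, rfl⟩, Or.inr ⟨d, rfl⟩⟩, fun x => ?_⟩
  rw [Frac.reads, vars_C, vars_C, Finset.empty_union, if_neg (Finset.notMem_empty x)]
  exact Nat.zero_le _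

/-- polynomials in at most `q` expressions are hit -/
theorem frac_hit' (w D q : ℕ) : ∃ A m : ℕ, ∀ n s N : ℕ, (s + 3) ^ A ≤ N → ∀ σ : Fin n → ℂ,
    (∀ i, σ i ≠ 0) → ∀ (ι : Type) [Fintype ι] (E : ι → Frac n), Fintype.card ι ≤ q →
    (∀ i, FGood w s D (E i) ∧ FReg σ (E i)) →
    ∀ f ∈ Algebra.adjoin ℂ (Set.range fun x : ι × Fin 2 => (E x.1).val x.2), f ≠ 0 →
    sext f ∉ (rVan (sbase σ N)).I m ∅ := by
  classical
  obtain ⟨A, m, hm⟩ := frac_hit w D q
  refine ⟨A, m, fun n s N hN σ hσ ι _ E hq hE f hf hf0 => ?_⟩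
  set e := Fintype.equivFin ι with he
  refine hm n s N hN σ hσ (fun j => if h : j.1 < Fintype.card ι then E (e.symm ⟨j.1, h⟩)
    else .leaf (C 0) (C 0)) (fun j => ?_) (sext f) ?_ fun h => hf0 (ext_inj (by rw [h, map_zero]))
  · by_cases h : j.1 < Fintype.card ι
    · rw [dif_pos h]
      exact hE _
    · rw [dif_neg h]
      exact ⟨fgood_const 0 0, trivial⟩
  · have h1 : sext f ∈ Algebra.adjoin (RatFunc ℂ)
        (sext '' (Set.range fun x : ι × Fin 2 => (E x.1).val x.2)) := by
      induction hf using Algebra.adjoin_induction with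
      | mem y hy => exact Algebra.subset_adjoin ⟨y, hy, rfl⟩
      | algebraMap r =>
        rw [MvPolynomial.algebraMap_eq, ext_C']
        exact Subalgebra.algebraMap_mem _ _
      | add p q _ _ hp hq =>
        rw [map_add]
        by_cases h1 : p = 0
        · rw [h1, map_zero, zero_add]
          by_cases h2 : q = 0
          · rw [h2, map_zero]
            exact Subalgebra.zero_mem _
          · exact hq h2
        · by_cases h2 : q = 0
          · rw [h2, map_zero, add_zero]
            exact hp h1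
          · exact Subalgebra.add_mem _ (hp h1) (hq h2)
      | mul p q _ _ hp hq =>
        rw [map_mul]
        exact Subalgebra.mul_mem _ (hp (left_ne_zero_of_mul hf0)) (hq (right_ne_zero_of_mul hf0))
    refine Algebra.adjoin_mono ?_ h1
    rintro _ ⟨_, ⟨⟨i, j⟩, rfl⟩, rfl⟩
    refine ⟨⟨⟨(e i).1, (e i).2.trans_le hq⟩, j⟩, ?_⟩
    simp only [(e i).2, dif_pos]
    rw [Fin.eta, e.symm_apply_apply]

end Pool.Agent.W936.VN
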