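import Mathlib
import Pool.Agent.W936.VN.Bil

/-!
Every expression with bilinear gates is, up to factors which are polynomials in two nonsingular
expressions, equal to a nonsingular expression.
-/

set_option autoImplicit false

namespace Pool.Agent.W936.VN

open MvPolynomial

variable {n : ℕ}

/-- a vector on a constant line -/
theorem line {v : Fin 2 → MvPolynomial (Fin n) ℂ} {z : Fin 2 → ℂ} (hz : z ≠ 0)
    (h : ∑ i, C (z i) * v i = 0) : ∃ (j : Fin 2) (u : Fin 2 → ℂ), ∀ i, v i = v j * C (u i) := by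
  rw [Fin.sum_univ_two] at h
  by_cases h0 : z 0 = 0
  · have h1 : z 1 ≠ 0 := by
      intro h1
      apply hz
      funext i
      fin_cases i
      · exact h0
      · exact h1
    rw [h0, C_0, zero_mul, zero_add] at h
    have h2 : v 1 = 0 := by
      rcases mul_eq_zero.1 h with h | h
      · exact absurd (C_eq_zero.1 h) h1
      · exact h
    refine ⟨0, ![1, 0], fun i => ?_⟩
    fin_cases i
    · simp
    · simp [h2]
  · refine ⟨1, ![-(z 1 / z 0), 1], fun i => ?_⟩
    fin_cases i
    · have h3 : C (z 0) * v 0 = C (z 0) * (v 1 * C (-(z 1 / z 0))) := by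
        have h4 : C (z 0) * (v 1 * C (-(z 1 / z 0))) = - (C (z 1) * v 1) := by
          rw [mul_comm (v 1), ← mul_assoc, ← C_mul, mul_neg, mul_div_cancel₀ _ h0, C_neg, neg_mul]
        rw [h4, eq_neg_iff_add_eq_zero]
        exact h
      exact mul_left_cancel₀ (fun hc => h0 (C_eq_zero.1 hc)) h3
    · simp

/-- singular `2 × 2` matrices -/
theorem rank_one (a b c d : ℂ) (h : a * d - b * c = 0) :
    ∃ p q : Fin 2 → ℂ, a = p 0 * q 0 ∧ b = p 0 * q 1 ∧ c = p 1 * q 0 ∧ d = p 1 * q 1 := by
  by_cases ha : a = 0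
  · by_cases hb : b = 0
    · exact ⟨![0, 1], ![c, d], by simp [ha], by simp [hb], by simp, by simp⟩
    · have hc : c = 0 := by
        rw [ha, zero_mul, zero_sub, neg_eq_zero] at h
        exact (mul_eq_zero.1 h).resolve_left hb
      exact ⟨![1, d / b], ![0, b], by simp [ha], by simp, by simp [hc], by
        show d = d / b * b
        field_simp⟩
  · refine ⟨![1, c / a], ![a, b], by simp, by simp, ?_, ?_⟩
    · show c = c / a * a
      field_simp
    · show d = c / a * b
      field_simp
      linear_combination h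

/-- singular pencils of `2 × 2` matrices -/
theorem tensor (t : Fin 2 → Fin 2 → Fin 2 → ℂ)
    (h0 : t 0 0 0 * t 1 1 0 - t 0 1 0 * t 1 0 0 = 0)
    (h1 : t 0 0 1 * t 1 1 1 - t 0 1 1 * t 1 0 1 = 0)
    (h2 : t 0 0 0 * t 1 1 1 + t 0 0 1 * t 1 1 0 - t 0 1 0 * t 1 0 1 - t 0 1 1 * t 1 0 0 = 0) :
    (∃ z : Fin 2 → ℂ, z ≠ 0 ∧ ∀ j k, ∑ i, z i * t i j k = 0) ∨
      ∃ (v : Fin 2 → ℂ) (M : Matrix (Fin 2) (Fin 2) ℂ), ∀ i j k, t i j k = v j * M i k := by
  obtain ⟨p, q, e1, e2, e3, e4⟩ := rank_one _ _ _ _ h0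
  obtain ⟨p', q', f1, f2, f3, f4⟩ := rank_one _ _ _ _ h1
  have h3 : (p 0 * p' 1 - p 1 * p' 0) * (q 0 * q' 1 - q 1 * q' 0) = 0 := by
    rw [e1, e2, e3, e4, f1, f2, f3, f4] at h2
    linear_combination h2
  rcases mul_eq_zero.1 h3 with h | h
  · left
    by_cases hp : p = 0
    · by_cases hp' : p' = 0
      · refine ⟨![1, 0], fun hc => one_ne_zero (congrFun hc 0), fun j k => ?_⟩
        rw [Fin.sum_univ_two]
        fin_cases j <;> fin_cases k <;> simp [e1, e2, f1, f2, hp, hp']
      · refine ⟨![p' 1, - p' 0], fun hc => hp' ?_, fun j k => ?_⟩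
        · funext i
          fin_cases i
          · have := congrFun hc 1
            simpa using this
          · have := congrFun hc 0
            simpa using this
        · rw [Fin.sum_univ_two]
          fin_cases j <;> fin_cases k <;>
            simp [e1, e2, e3, e4, f1, f2, f3, f4, hp] <;> ring
    · refine ⟨![p 1, - p 0], fun hc => hp ?_, fun j k => ?_⟩
      · funext i
        fin_cases i
        · have := congrFun hc 1
          simpa using this
        · have := congrFun hc 0
          simpa using this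
      · rw [Fin.sum_univ_two]
        fin_cases j <;> fin_cases k <;>
          simp [e1, e2, e3, e4, f1, f2, f3, f4]
        · ring
        · linear_combination (- q' 0) * h
        · ring
        · linear_combination (- q' 1) * h
  · right
    by_cases hq : q = 0
    · refine ⟨q', Matrix.of ![![0, p' 0], ![0, p' 1]], fun i j k => ?_⟩
      fin_cases i <;> fin_cases j <;> fin_cases k <;>
        simp [e1, e2, e3, e4, f1, f2, f3, f4, hq] <;> ring
    · obtain ⟨c, hc⟩ : ∃ c : ℂ, ∀ j, q' j = c * q j := by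
        by_cases hq0 : q 0 = 0
        · have hq1 : q 1 ≠ 0 := by
            intro hq1
            apply hq
            funext i
            fin_cases i
            · exact hq0
            · exact hq1
          refine ⟨q' 1 / q 1, fun j => ?_⟩
          have hq'0 : q' 0 = 0 := by
            rw [hq0, zero_mul, zero_sub, neg_eq_zero] at h
            exact (mul_eq_zero.1 h).resolve_left hq1
          fin_cases j
          · simp [hq0, hq'0]
          · simp only [Fin.mk_one]
            field_simp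
        · refine ⟨q' 0 / q 0, fun j => ?_⟩
          fin_cases j
          · simp only [Fin.zero_eta]
            field_simp
          · simp only [Fin.mk_one]
            field_simp
            linear_combination h
      refine ⟨q, Matrix.of ![![p 0, c * p' 0], ![p 1, c * p' 1]], fun i j k => ?_⟩
      fin_cases i <;> fin_cases j <;> fin_cases k <;>
        simp [e1, e2, e3, e4, f1, f2, f3, f4, hc] <;> ring

theorem det_lmat (t : Fin 2 → Fin 2 → Fin 2 → ℂ) (y : Fin 2 → MvPolynomial (Fin n) ℂ) :
    (lmat (ct t) y).det =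
      C (t 0 0 0 * t 1 1 0 - t 0 1 0 * t 1 0 0) * (y 0) ^ 2 +
      C (t 0 0 0 * t 1 1 1 + t 0 0 1 * t 1 1 0 - t 0 1 0 * t 1 0 1 - t 0 1 1 * t 1 0 0) *
        (y 0 * y 1) +
      C (t 0 0 1 * t 1 1 1 - t 0 1 1 * t 1 0 1) * (y 1) ^ 2 := by
  rw [Matrix.det_fin_two]
  simp only [lmat, ct, Matrix.of_apply, Fin.sum_univ_two, C_sub, C_add, C_mul]
  ring

/-- a quadratic form with a zero in the polynomials -/
theorem quad {y : Fin 2 → MvPolynomial (Fin n) ℂ} {α β γ : ℂ}
    (h : C α * (y 0) ^ 2 + C β * (y 0 * y 1) + C γ * (y 1) ^ 2 = 0) :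
    (α = 0 ∧ β = 0 ∧ γ = 0) ∨ ∃ z : Fin 2 → ℂ, z ≠ 0 ∧ ∑ i, C (z i) * y i = 0 := by
  by_cases hα : α = 0
  · by_cases hβγ : β = 0 ∧ γ = 0
    · exact Or.inl ⟨hα, hβγ⟩
    · right
      have h1 : y 1 * (C β * y 0 + C γ * y 1) = 0 := by
        rw [hα, C_0] at h
        linear_combination h
      rcases mul_eq_zero.1 h1 with h2 | h2
      · exact ⟨![0, 1], fun hc => one_ne_zero (congrFun hc 1), by simp [h2]⟩
      · refine ⟨![β, γ], fun hc => hβγ ⟨?_, ?_⟩, by simpa using h2⟩
        · simpa using congrFun hc 0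
        · simpa using congrFun hc 1
  · right
    obtain ⟨ρ, hρ⟩ : ∃ ρ : ℂ, α * (ρ * ρ) + β * ρ + γ = 0 :=
      exists_quadratic_eq_zero hα (by
        exact IsAlgClosed.exists_eq_mul_self (discrim α β γ))
    have h1 : (y 0 - C ρ * y 1) * (C α * y 0 + C (α * ρ + β) * y 1) = 0 := by
      have h2 : C (α * (ρ * ρ) + β * ρ + γ) = (0 : MvPolynomial (Fin n) ℂ) := by
        rw [hρ, C_0]
      simp only [C_add, C_mul] at h2 ⊢
      linear_combination h - (y 1) ^ 2 * h2
    rcases mul_eq_zero.1 h1 with h2 | h2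
    · refine ⟨![1, -ρ], fun hc => one_ne_zero (congrFun hc 0), ?_⟩
      rw [Fin.sum_univ_two]
      simp only [Matrix.cons_val_zero, Matrix.cons_val_one, C_1, C_neg]
      linear_combination h2
    · refine ⟨![α, α * ρ + β], fun hc => hα ?_, by simpa using h2⟩
      simpa using congrFun hc 0

/-- singular gates -/
theorem pencil (t : Fin 2 → Fin 2 → Fin 2 → ℂ) (y : Fin 2 → MvPolynomial (Fin n) ℂ)
    (h : (lmat (ct t) y).det = 0) :
    (∃ z : Fin 2 → ℂ, z ≠ 0 ∧ ∀ j, ∑ i, C (z i) * lmat (ct t) y i j = 0) ∨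
      ∃ (v : Fin 2 → ℂ) (M : Matrix (Fin 2) (Fin 2) ℂ), ∀ i j k, t i j k = v j * M i k := by
  rw [det_lmat] at h
  rcases quad h with ⟨h0, h2, h1⟩ | ⟨c, hc, hcy⟩
  · rcases tensor t h0 h1 h2 with ⟨z, hz, hz'⟩ | h3
    · left
      refine ⟨z, hz, fun j => ?_⟩
      simp only [lmat, ct, Matrix.of_apply]
      simp only [Finset.mul_sum]
      rw [Finset.sum_comm]
      refine Finset.sum_eq_zero fun k _ => ?_
      have h4 : ∑ i, C (z i) * (C (t i j k) * y k) = C (∑ i, z i * t i j k) * y k := by
        rw [map_sum, Finset.sum_mul]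
        refine Finset.sum_congr rfl fun i _ => ?_
        rw [C_mul, mul_assoc]
      rw [h4, hz', C_0, zero_mul]
    · exact Or.inr h3
  · left
    obtain ⟨j₀, u, hu⟩ := line hc hcy
    set L : Matrix (Fin 2) (Fin 2) ℂ := Matrix.of fun i j => ∑ k, t i j k * u k with hL
    have h3 : ∀ i j, lmat (ct t) y i j = y j₀ * C (L i j) := by
      intro i j
      simp only [lmat, ct, Matrix.of_apply, hL, map_sum, Finset.mul_sum, C_mul]
      refine Finset.sum_congr rfl fun k _ => ?_
      rw [hu k]
      ring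
    by_cases hy : y j₀ = 0
    · refine ⟨![1, 0], fun hc => one_ne_zero (congrFun hc 0), fun j => ?_⟩
      simp only [h3, hy, zero_mul, mul_zero, Finset.sum_const_zero]
    · have h4 : L.det = 0 := by
        rw [← det_lmat, Matrix.det_fin_two] at h
        simp only [h3] at h
        have h5 : (y j₀) ^ 2 * C L.det = 0 := by
          rw [Matrix.det_fin_two, C_sub, C_mul, C_mul]
          linear_combination h
        rcases mul_eq_zero.1 h5 with h6 | h6
        · exact absurd (pow_eq_zero_iff two_ne_zero |>.1 h6) hy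
        · exact C_eq_zero.1 h6
      obtain ⟨z, hz, hz'⟩ := Matrix.exists_vecMul_eq_zero_iff.2 h4
      refine ⟨z, hz, fun j => ?_⟩
      have h5 : ∑ i, C (z i) * lmat (ct t) y i j = y j₀ * C (Matrix.vecMul z L j) := by
        simp only [Matrix.vecMul, dotProduct, map_sum, Finset.mul_sum, C_mul, h3]
        refine Finset.sum_congr rfl fun i _ => ?_
        ring
      rw [h5, hz']
      simp

end Pool.Agent.W936.VN
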