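import Mathlib
import Pool.Agent.W936.VN.Red

/-!
Every expression with bilinear gates is, up to factors which are polynomials in two nonsingular
expressions, equal to a nonsingular expression: the induction.
-/

set_option autoImplicit false

namespace Pool.Agent.W936.VN

open MvPolynomial

variable {n : ℕ}

/-- atoms: nonzero polynomials in two nonsingular expressions -/
def Atom (w s D : ℕ) (σ : Fin n → ℂ) (g : MvPolynomial (Fin n) ℂ) : Prop :=
  g ≠ 0 ∧ ∃ a b : Frac n, (FGood w s D a ∧ FReg σ a) ∧ (FGood w s D b ∧ FReg σ b) ∧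
    g ∈ Algebra.adjoin ℂ (Set.range a.val ∪ Set.range b.val)

/-- the vector `v` is zero or a product of atoms and the value of a nonsingular expression -/
def Redu (w s D : ℕ) (σ : Fin n → ℂ) (ρ : Fin n → ℕ) (v : Fin 2 → MvPolynomial (Fin n) ℂ) :
    Prop :=
  v = 0 ∨ ∃ (S : List (MvPolynomial (Fin n) ℂ)) (E : Frac n), (∀ g ∈ S, Atom w s D σ g) ∧
    FGood w s D E ∧ FReg σ E ∧ (∀ x, E.reads x ≤ ρ x) ∧ ∀ i, v i = S.prod * E.val i

variable {w s D : ℕ} {σ : Fin n → ℂ}

theorem Redu.mul {ρ : Fin n → ℕ} {v v' : Fin 2 → MvPolynomial (Fin n) ℂ}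
    (h : Redu w s D σ ρ v) {S₀ : List (MvPolynomial (Fin n) ℂ)} (hS : ∀ g ∈ S₀, Atom w s D σ g)
    (hv : ∀ i, v' i = S₀.prod * v i) : Redu w s D σ ρ v' := by
  rcases h with h | ⟨S, E, h1, h2, h3, h4, h5⟩
  · left
    funext i
    rw [hv, h]
    simp
  · right
    refine ⟨S₀ ++ S, E, ?_, h2, h3, h4, fun i => ?_⟩
    · intro g hg
      rcases List.mem_append.1 hg with hg | hg
      · exact hS g hg
      · exact h1 g hg
    · rw [hv, h5, List.prod_append, mul_assoc]

theorem Redu.mono {ρ ρ' : Fin n → ℕ} {v : Fin 2 → MvPolynomial (Fin n) ℂ}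
    (h : Redu w s D σ ρ v) (hρ : ∀ x, ρ x ≤ ρ' x) : Redu w s D σ ρ' v := by
  rcases h with h | ⟨S, E, h1, h2, h3, h4, h5⟩
  · exact Or.inl h
  · exact Or.inr ⟨S, E, h1, h2, h3, fun x => (h4 x).trans (hρ x), h5⟩

theorem redu_line {a b : Frac n} (ha : FGood w s D a ∧ FReg σ a) (hb : FGood w s D b ∧ FReg σ b)
    (ρ : Fin n → ℕ) {v : Fin 2 → MvPolynomial (Fin n) ℂ}
    (hv : ∀ i, v i ∈ Algebra.adjoin ℂ (Set.range a.val ∪ Set.range b.val)) {z : Fin 2 → ℂ}
    (hz : z ≠ 0) (h : ∑ i, C (z i) * v i = 0) : Redu w s D σ ρ v := by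
  obtain ⟨j, u, hu⟩ := line hz h
  by_cases h0 : v j = 0
  · left
    funext i
    rw [hu, h0, zero_mul]
    rfl
  · right
    refine ⟨[v j], .leaf (C (u 0)) (C (u 1)), ?_, fgood_const _ _, trivial, fun x => ?_,
      fun i => ?_⟩
    · intro g hg
      rw [List.mem_singleton] at hg
      subst hg
      exact ⟨h0, a, b, ha, hb, hv j⟩
    · rw [Frac.reads, vars_C, vars_C, Finset.empty_union, if_neg (Finset.notMem_empty x)]
      exact Nat.zero_le _
    · rw [List.prod_singleton, hu i, Frac.val]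
      fin_cases i <;> rfl

/-- the value of a gate -/
noncomputable def tv (t : Fin 2 → Fin 2 → Fin 2 → ℂ) (x y : Fin 2 → MvPolynomial (Fin n) ℂ)
    (i : Fin 2) : MvPolynomial (Fin n) ℂ := ∑ j, ∑ k, C (t i j k) * x j * y k

theorem tv_mem (t : Fin 2 → Fin 2 → Fin 2 → ℂ) (x y : Fin 2 → MvPolynomial (Fin n) ℂ)
    (i : Fin 2) : tv t x y i ∈ Algebra.adjoin ℂ (Set.range x ∪ Set.range y) := by
  refine Subalgebra.sum_mem _ fun j _ => Subalgebra.sum_mem _ fun k _ => ?_
  refine Subalgebra.mul_mem _ (Subalgebra.mul_mem _ (Subalgebra.algebraMap_mem _ _)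
    (Algebra.subset_adjoin (Or.inl ⟨j, rfl⟩))) (Algebra.subset_adjoin (Or.inr ⟨k, rfl⟩))

theorem redu_gate1 {a b : Frac n} (ha : FGood w s D a ∧ FReg σ a)
    (hb : FGood w s D b ∧ FReg σ b) (t : Fin 2 → Fin 2 → Fin 2 → ℂ)
    (h : (lmat (ct t) b.val).det = 0) : Redu w s D σ b.reads (tv t a.val b.val) := by
  rcases pencil t b.val h with ⟨z, hz, hz'⟩ | ⟨v, M, hM⟩
  · refine redu_line ha hb _ (tv_mem t a.val b.val) hz ?_
    have h1 : ∑ i, C (z i) * tv t a.val b.val i =
        ∑ j, (∑ i, C (z i) * lmat (ct t) b.val i j) * a.val j := by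
      simp only [tv, lmat, ct, Matrix.of_apply, Fin.sum_univ_two]
      ring
    rw [h1]
    exact Finset.sum_eq_zero fun j _ => by rw [hz', zero_mul]
  · set g : MvPolynomial (Fin n) ℂ := ∑ j, C (v j) * a.val j with hg
    set u : Fin 2 → MvPolynomial (Fin n) ℂ := fun i => ∑ k, C (M i k) * b.val k with hu
    have htv : ∀ i, tv t a.val b.val i = g * u i := by
      intro i
      simp only [tv, hg, hu, Fin.sum_univ_two, hM, C_mul]
      ring
    have hgm : g ∈ Algebra.adjoin ℂ (Set.range a.val ∪ Set.range b.val) :=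
      Subalgebra.sum_mem _ fun j _ => Subalgebra.mul_mem _ (Subalgebra.algebraMap_mem _ _)
        (Algebra.subset_adjoin (Or.inl ⟨j, rfl⟩))
    by_cases hg0 : g = 0
    · left
      funext i
      rw [htv, hg0, zero_mul]
      rfl
    have hgA : ∀ g' ∈ [g], Atom w s D σ g' := by
      intro g' hg'
      rw [List.mem_singleton] at hg'
      subst hg'
      exact ⟨hg0, a, b, ha, hb, hgm⟩
    refine Redu.mul (v := u) ?_ hgA fun i => by rw [htv, List.prod_singleton]
    by_cases hdet : M.det = 0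
    · obtain ⟨z, hz, hz'⟩ := Matrix.exists_vecMul_eq_zero_iff.2 hdet
      refine redu_line hb hb _ (fun i => ?_) hz ?_
      · exact Subalgebra.sum_mem _ fun k _ => Subalgebra.mul_mem _
          (Subalgebra.algebraMap_mem _ _) (Algebra.subset_adjoin (Or.inl ⟨k, rfl⟩))
      · have h1 : ∑ i, C (z i) * u i = ∑ k, C (Matrix.vecMul z M k) * b.val k := by
          simp only [hu, Matrix.vecMul, dotProduct, Fin.sum_univ_two, C_add, C_mul]
          ring
        rw [h1, hz']
        simp
    · right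
      set t' : Fin 2 → Fin 2 → Fin 2 → ℂ := fun i j k => if j = 0 then M i k else 0 with ht'
      refine ⟨[], .gate t' (.leaf (C 1) (C 0)) b, fun g hg => absurd hg List.not_mem_nil,
        ⟨⟨(fgood_const 1 0).1, hb.1.1⟩, fun x => ?_⟩, ⟨trivial, hb.2, Or.inl trivial, ?_⟩,
        fun x => ?_, fun i => ?_⟩
      · rw [Frac.reads, Frac.reads, vars_C, vars_C, Finset.empty_union,
          if_neg (Finset.notMem_empty x), zero_add]
        exact hb.1.2 x
      · right; right
        have h1 : rmat (ct t') (Frac.leaf (C 1) (C 0) : Frac n).val = M.map C := by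
          ext1 i k
          simp [rmat, ct, ht', Frac.val, Fin.sum_univ_two]
        rw [h1]
        have h2 : (M.map (C : ℂ →+* MvPolynomial (Fin n) ℂ)).det = C M.det :=
          (RingHom.map_det (C : ℂ →+* MvPolynomial (Fin n) ℂ) M).symm
        have h3 : (M.map (C : ℂ → MvPolynomial (Fin n) ℂ)).det = C M.det := h2
        rw [h3, eval_C]
        exact hdet
      · rw [Frac.reads, Frac.reads, vars_C, vars_C, Finset.empty_union,
          if_neg (Finset.notMem_empty x), zero_add]
      · rw [List.prod_nil, one_mul]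
        simp [Frac.val, hu, ht', Fin.sum_univ_two]

theorem tv_swap (t : Fin 2 → Fin 2 → Fin 2 → ℂ) (x y : Fin 2 → MvPolynomial (Fin n) ℂ) :
    tv t x y = tv (fun i j k => t i k j) y x := by
  funext i
  simp only [tv, Fin.sum_univ_two]
  ring

theorem redu_core {a b : Frac n} (ha : FGood w s D a ∧ FReg σ a)
    (hb : FGood w s D b ∧ FReg σ b) (hab : ∀ x, a.reads x + b.reads x ≤ w)
    (t : Fin 2 → Fin 2 → Fin 2 → ℂ)
    (hL : (lmat (ct t) b.val).det ≠ 0 → eval σ (lmat (ct t) b.val).det ≠ 0)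
    (hR : (rmat (ct t) a.val).det ≠ 0 → eval σ (rmat (ct t) a.val).det ≠ 0) :
    Redu w s D σ (fun x => a.reads x + b.reads x) (tv t a.val b.val) := by
  by_cases h1 : (lmat (ct t) b.val).det = 0
  · exact (redu_gate1 ha hb t h1).mono fun x => Nat.le_add_left _ _
  by_cases h2 : (rmat (ct t) a.val).det = 0
  · have h3 : lmat (ct fun i j k => t i k j) a.val = rmat (ct t) a.val := rfl
    rw [tv_swap]
    exact (redu_gate1 hb ha (fun i j k => t i k j) (by rw [h3]; exact h2)).mono
      fun x => Nat.le_add_right _ _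
  · exact Or.inr ⟨[], .gate t a b, fun g hg => absurd hg List.not_mem_nil,
      ⟨⟨ha.1.1, hb.1.1⟩, hab⟩, ⟨ha.2, hb.2, Or.inr (Or.inr (hL h1)), Or.inr (Or.inr (hR h2))⟩,
      fun x => le_rfl, fun i => by rw [List.prod_nil, one_mul]; rfl⟩

theorem det_lmat_smul (t : Fin 2 → Fin 2 → Fin 2 → ℂ) {x y : Fin 2 → MvPolynomial (Fin n) ℂ}
    {c : MvPolynomial (Fin n) ℂ} (h : ∀ i, x i = c * y i) :
    (lmat (ct t) x).det = c ^ 2 * (lmat (ct t) y).det := by
  rw [det_lmat, det_lmat, h, h]
  ring

theorem atom_prod {S : List (MvPolynomial (Fin n) ℂ)} (hS : ∀ g ∈ S, Atom w s D σ g) :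
    S.prod ≠ 0 := by
  refine List.prod_ne_zero fun h => ?_
  exact (hS 0 h).1 rfl

/-- every expression is reduced to a nonsingular one -/
theorem redu (E : Frac n) (hE : FGood w s D E)
    (hreg : ∀ g ∈ E.dets, g ≠ 0 → eval σ g ≠ 0) : Redu w s D σ E.reads E.val := by
  induction E with
  | leaf p q =>
    exact Or.inr ⟨[], .leaf p q, fun g hg => absurd hg List.not_mem_nil, hE, trivial,
      fun x => le_rfl, fun i => by rw [List.prod_nil, one_mul]⟩
  | gate t a b iha ihb =>
    have hmem : ∀ g, g ∈ (Frac.gate t a b).dets ↔ (g ∈ a.dets ∨ g ∈ b.dets) ∨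
        (g = (lmat (ct t) b.val).det ∨ g = (rmat (ct t) a.val).det) := by
      intro g
      simp only [Frac.dets, List.mem_append, List.mem_cons, List.not_mem_nil, or_false]
    have ga : FGood w s D a := ⟨hE.1.1, fun x => (Nat.le_add_right _ _).trans (hE.2 x)⟩
    have gb : FGood w s D b := ⟨hE.1.2, fun x => (Nat.le_add_left _ _).trans (hE.2 x)⟩
    have Ha := iha ga fun g hg => hreg g ((hmem g).2 (Or.inl (Or.inl hg)))
    have Hb := ihb gb fun g hg => hreg g ((hmem g).2 (Or.inl (Or.inr hg)))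
    have hval : (Frac.gate t a b).val = tv t a.val b.val := rfl
    rcases Ha with Ha | ⟨S, a', hS, hga', hra', hrda, hva⟩
    · left
      rw [hval, Ha]
      funext i
      simp [tv]
    rcases Hb with Hb | ⟨S', b', hS', hgb', hrb', hrdb, hvb⟩
    · left
      rw [hval, Hb]
      funext i
      simp [tv]
    rw [hval]
    have hSS : ∀ g ∈ S ++ S', Atom w s D σ g := by
      intro g hg
      rcases List.mem_append.1 hg with hg | hg
      · exact hS g hg
      · exact hS' g hg
    refine Redu.mul (v := tv t a'.val b'.val) ?_ hSS fun i => ?_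
    · refine (redu_core ⟨hga', hra'⟩ ⟨hgb', hrb'⟩ (fun x => ?_) t ?_ ?_).mono fun x =>
        Nat.add_le_add (hrda x) (hrdb x)
      · exact (Nat.add_le_add (hrda x) (hrdb x)).trans (hE.2 x)
      · intro h0
        have h1 := det_lmat_smul t hvb
        have h2 := hreg _ ((hmem _).2 (Or.inr (Or.inl rfl))) (by
          rw [h1]
          exact mul_ne_zero (pow_ne_zero _ (atom_prod hS')) h0)
        rw [h1, map_mul] at h2
        exact right_ne_zero_of_mul h2
      · intro h0
        have e1 : ∀ v : Fin 2 → MvPolynomial (Fin n) ℂ, rmat (ct t) v =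
          lmat (ct fun i j k => t i k j) v := fun v => rfl
        have h1 := det_lmat_smul (fun i j k => t i k j) hva
        rw [← e1, ← e1] at h1
        have h2 := hreg _ ((hmem _).2 (Or.inr (Or.inr rfl))) (by
          rw [h1]
          exact mul_ne_zero (pow_ne_zero _ (atom_prod hS)) h0)
        rw [h1, map_mul] at h2
        exact right_ne_zero_of_mul h2
    · rw [List.prod_append]
      simp only [tv, hva, hvb, Fin.sum_univ_two]
      ring

end Pool.Agent.W936.VN
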