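import Mathlib
import Pool.Agent.W936.XN.Clo
import Pool.Agent.W936.LC.Class

/-!
Sums of unboundedly many fractions of polynomials whose sets of variables form a thin hypergraph.
-/

set_option autoImplicit false

namespace Pool.Agent.W936.VN

open MvPolynomial Module Pool.Agent.H530R2 Pool.Agent.W936.RO Pool.Agent.W936.WB
  Pool.Agent.W936.XN Pool.Agent.W936.LC

variable {n : ℕ}

open Classical in
/-- the numerator of `∑ c_i p_i / q_i` -/
noncomputable def numJ {I : Type} (J : Finset I) (c : I → ℂ) (p q : I → MvPolynomial (Fin n) ℂ) :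
    MvPolynomial (Fin n) ℂ := ∑ i ∈ J, C (c i) * p i * ∏ j ∈ J.erase i, q j

theorem numJ_eq {I : Type} {J : Finset I} {c : I → ℂ} {p q : I → MvPolynomial (Fin n) ℂ}
    {K : Type*} [Field K] (φ : MvPolynomial (Fin n) ℂ →+* K) (hq : ∀ i ∈ J, φ (q i) ≠ 0) :
    φ (numJ J c p q) = (∏ i ∈ J, φ (q i)) * ∑ i ∈ J, φ (C (c i)) * φ (p i) / φ (q i) := by
  classical
  rw [numJ, map_sum, Finset.mul_sum]
  refine Finset.sum_congr rfl fun i hi => ?_
  rw [map_mul, map_mul, map_prod]
  have h1 : ∏ j ∈ J.erase i, φ (q j) = (∏ j ∈ J, φ (q j)) / φ (q i) := by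
    rw [← Finset.mul_prod_erase J (fun j => φ (q j)) hi, mul_div_cancel_left₀ _ (hq i hi)]
  have h2 : ∏ x ∈ @Finset.erase I (fun a b => Classical.propDecidable (a = b)) J i, φ (q x) =
      ∏ j ∈ J.erase i, φ (q j) := by
    congr!
  rw [h2, h1]
  ring

theorem numJ_map {I : Type} {J : Finset I} {c : I → ℂ} {p q : I → MvPolynomial (Fin n) ℂ}
    (x : Fin n) (a : ℂ) : sbt x a (numJ J c p q) =
      numJ J c (fun i => sbt x a (p i)) (fun i => sbt x a (q i)) := by
  rw [numJ, numJ, map_sum]
  refine Finset.sum_congr rfl fun i _ => ?_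
  rw [map_mul, map_mul, map_prod, sbt_C]

theorem fin_sbt {G : MvPolynomial (Fin n) ℂ} (hG : G ≠ 0) (x : Fin n) :
    {a : ℂ | sbt x a G = 0}.Finite := by
  obtain ⟨p, hp⟩ : ∃ p, eval p G ≠ 0 := by
    by_contra hcon
    push Not at hcon
    exact hG (MvPolynomial.funext fun p => by rw [hcon p, map_zero])
  refine (fin_eval x hp).subset fun a ha => ?_
  show eval (Function.update p x a) G = 0
  have ha' : sbt x a G = 0 := ha
  rw [← eval_sbt, ha', map_zero]

theorem sbt_sbt (x : Fin n) (a b : ℂ) (h : MvPolynomial (Fin n) ℂ) :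
    sbt x a (sbt x b h) = sbt x b h := by
  refine sbt_supp a ?_
  rw [mem_supported]
  intro i hi
  exact (vars_sbt' x b h (Finset.mem_coe.1 hi)).1

theorem sbt_nvars {x : Fin n} {a : ℂ} {h : MvPolynomial (Fin n) ℂ} (hx : x ∉ h.vars) :
    sbt x a h = h := by
  refine sbt_supp a ?_
  rw [mem_supported]
  intro k hk
  show k ≠ x
  rintro rfl
  exact hx (Finset.mem_coe.1 hk)

theorem prod_notMem {I : Type} {J : Finset I} {q : I → MvPolynomial (Fin n) ℂ}
    {P : Ideal (MvPolynomial (Fin n) (RatFunc ℂ))} (hP : P.IsPrime)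
    (h : ∀ i ∈ J, sext (q i) ∉ P) : sext (∏ i ∈ J, q i) ∉ P := by
  rw [map_prod]
  intro hc
  obtain ⟨i, hi, hi'⟩ := (hP.prod_mem_iff).1 hc
  exact h i hi hi'

/-- sums of fractions whose sets of variables form a thin hypergraph -/
theorem thin_frac {β : Fin n → Polynomial ℂ} {m w : ℕ}
    {Gd : MvPolynomial (Fin n) ℂ → MvPolynomial (Fin n) ℂ → Prop}
    (P0 : ∀ p q, Gd p q → ∀ e Y, sext q ∉ (rVan β).I e Y)
    (P1 : ∀ p q, Gd p q → ∀ x, {a : ℂ | ¬ Gd (sbt x a p) (sbt x a q)}.Finite) (r : ℕ) :
    ∀ {κ : ℕ}, (∀ (I : Type) (J : Finset I) (c : I → ℂ) (p q : I → MvPolynomial (Fin n) ℂ),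
      J.card ≤ 2 ^ r * κ → (∀ i ∈ J, Gd (p i) (q i)) → numJ J c p q ≠ 0 →
      sext (numJ J c p q) ∉ (rVan β).I m ∅) →
    ∀ (I : Type) (J : Finset I) (c : I → ℂ) (p q : I → MvPolynomial (Fin n) ℂ)
      (V : I → Finset (Fin n)), (∀ i ∈ J, Gd (p i) (q i) ∧ (p i).vars ⊆ V i ∧ (q i).vars ⊆ V i) →
      Thin w κ r J V → numJ J c p q ≠ 0 → sext (numJ J c p q) ∉ (rVan β).I (m + r + w) ∅ := by
  classical
  induction r with
  | zero =>
    intro κ P2 I J c p q V hg hJ hne hmem
    have hJ' : J.card ≤ κ := hJ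
    exact P2 I J c p q (by rwa [pow_zero, one_mul]) (fun i hi => (hg i hi).1) hne
      ((rVan β).mono (by omega) ∅ hmem)
  | succ r ih =>
    intro κ P2 I J c p q V hg hJ hne hmem
    obtain ⟨E, hE, hth⟩ := hJ
    set K := FractionRing (MvPolynomial (Fin n) ℂ) with hK
    set ψ : MvPolynomial (Fin n) ℂ →+* K := algebraMap _ K with hψ
    have ψinj : Function.Injective ψ := IsFractionRing.injective (MvPolynomial (Fin n) ℂ) K
    have ψ0 : ∀ g, g ≠ 0 → ψ g ≠ 0 := fun g hg h => hg (ψinj (by rw [h, map_zero]))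
    have q0 : ∀ p q, Gd p q → q ≠ 0 := by
      rintro p q h rfl
      exact P0 _ _ h 0 ∅ (by rw [map_zero]; exact Ideal.zero_mem _)
    set f := numJ J c p q with hf
    set g := ∏ i ∈ J, q i with hgdef
    have hg0 : g ≠ 0 := Finset.prod_ne_zero_iff.2 fun i hi => q0 _ _ (hg i hi).1
    -- the differences vanish
    have hdiff : ∀ x, x ∉ E → ∀ a b : ℂ, (∀ i ∈ J, Gd (sbt x a (p i)) (sbt x a (q i))) →
        (∀ i ∈ J, Gd (sbt x b (p i)) (sbt x b (q i))) →
        sbt x a f * sbt x b g - sbt x b f * sbt x a g = 0 := by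
      intro x hx a b ha hb
      by_contra hab
      set G := sbt x a f * sbt x b g - sbt x b f * sbt x a g with hG
      set J' : Finset (I × Bool) := (J.filter fun i => x ∈ V i) ×ˢ (Finset.univ : Finset Bool)
        with hJ'
      set c' : I × Bool → ℂ := fun y => if y.2 then c y.1 else - c y.1 with hc'
      set p' : I × Bool → MvPolynomial (Fin n) ℂ := fun y => sbt x (if y.2 then a else b) (p y.1)
        with hp'
      set q' : I × Bool → MvPolynomial (Fin n) ℂ := fun y => sbt x (if y.2 then a else b) (q y.1)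
        with hq'
      have hgood : ∀ i ∈ J, ∀ t : Bool, Gd (sbt x (if t then a else b) (p i))
          (sbt x (if t then a else b) (q i)) := by
        intro i hi t
        cases t with
        | true => exact ha i hi
        | false => exact hb i hi
      have hJmem : ∀ y ∈ J', y.1 ∈ J := fun y hy =>
        (Finset.mem_filter.1 (Finset.mem_product.1 hy).1).1
      have hq'0 : ∀ y ∈ J', q' y ≠ 0 := fun y hy => q0 _ _ (hgood _ (hJmem y hy) y.2)
      have hprod0 : (∏ y ∈ J', q' y) ≠ 0 := Finset.prod_ne_zero_iff.2 hq'0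
      have hga : sbt x a g = ∏ i ∈ J, sbt x a (q i) := map_prod _ _ _
      have hgb : sbt x b g = ∏ i ∈ J, sbt x b (q i) := map_prod _ _ _
      have key : numJ J' c' p' q' * (sbt x a g * sbt x b g) = G * ∏ y ∈ J', q' y := by
        apply ψinj
        have e1 := numJ_eq (c := c') (p := p') ψ (fun y hy => ψ0 _ (hq'0 y hy))
        have e2 := numJ_eq (c := c) (p := fun i => sbt x a (p i)) (q := fun i => sbt x a (q i)) ψ
          (fun i hi => ψ0 _ (q0 _ _ (ha i hi)))
        have e3 := numJ_eq (c := c) (p := fun i => sbt x b (p i)) (q := fun i => sbt x b (q i)) ψ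
          (fun i hi => ψ0 _ (q0 _ _ (hb i hi)))
        rw [← numJ_map, ← hf, ← map_prod, ← hga] at e2
        rw [← numJ_map, ← hf, ← map_prod, ← hgb] at e3
        have e4 : ∑ y ∈ J', ψ (C (c' y)) * ψ (p' y) / ψ (q' y) =
            ∑ i ∈ J, ψ (C (c i)) * ψ (sbt x a (p i)) / ψ (sbt x a (q i)) -
            ∑ i ∈ J, ψ (C (c i)) * ψ (sbt x b (p i)) / ψ (sbt x b (q i)) := by
          rw [hJ', Finset.sum_product, Finset.sum_filter, ← Finset.sum_sub_distrib]
          refine Finset.sum_congr rfl fun i hi => ?_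
          by_cases hxi : x ∈ V i
          · rw [if_pos hxi, Fintype.sum_bool]
            simp only [hc', hp', hq', if_true, Bool.false_eq_true, if_false, map_neg]
            ring
          · rw [if_neg hxi]
            have h3 : ∀ a : ℂ, sbt x a (p i) = p i := fun a =>
              sbt_nvars fun h => hxi ((hg i hi).2.1 h)
            have h4 : ∀ a : ℂ, sbt x a (q i) = q i := fun a =>
              sbt_nvars fun h => hxi ((hg i hi).2.2 h)
            rw [h3, h3, h4, h4, sub_self]
        rw [map_mul, map_mul, map_mul, e1, e4, ← map_prod, hG, map_sub, map_mul, map_mul, e2, e3]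
        ring
      have hne' : numJ J' c' p' q' ≠ 0 := by
        intro h0
        rw [h0, zero_mul] at key
        exact mul_ne_zero hab hprod0 key.symm
      refine ih (κ := 2 * κ) (fun I J c p q hJ hg => P2 I J c p q
          (hJ.trans (le_of_eq (by ring))) hg) (I × Bool) J' c' p' q' (fun y => (V y.1).erase x)
        (fun y hy => ?_) (thin_double (hth x hx)) hne' ?_
      · refine ⟨hgood _ (hJmem y hy) _, fun i hi => ?_, fun i hi => ?_⟩
        · obtain ⟨h5, h6⟩ := vars_sbt' x _ _ hi
          exact Finset.mem_erase.2 ⟨h5, (hg _ (hJmem y hy)).2.1 h6⟩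
        · obtain ⟨h5, h6⟩ := vars_sbt' x _ _ hi
          exact Finset.mem_erase.2 ⟨h5, (hg _ (hJmem y hy)).2.2 h6⟩
      · have h6 : sext f ∈ (rVan β).I (m + r + w) (insert x ∅) :=
          (rVan β).free _ ∅ x _ ((rVan β).mono (by omega) ∅ hmem)
        have hcoef : Coef (rVan β) := shVan_coef _ (natInj n) (rpt β)
        have h8 := sbt_mem hcoef (Finset.mem_insert_self x ∅) h6 (algebraMap ℂ (RatFunc ℂ) a)
        have h9 := sbt_mem hcoef (Finset.mem_insert_self x ∅) h6 (algebraMap ℂ (RatFunc ℂ) b)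
        have h8' := shVan_anti (rpt β) _ _ h8
        have h9' := shVan_anti (rpt β) _ _ h9
        have h8'' : sext (sbt x a f) ∈ (rVan β).I (m + r + w) ∅ := by
          rw [show sext (sbt x a f) = sbt x (algebraMap ℂ (RatFunc ℂ) a) (sext f) from
            sbt_map _ _ _ _]
          exact h8'
        have h9'' : sext (sbt x b f) ∈ (rVan β).I (m + r + w) ∅ := by
          rw [show sext (sbt x b f) = sbt x (algebraMap ℂ (RatFunc ℂ) b) (sext f) from
            sbt_map _ _ _ _]
          exact h9'
        have hGm : sext G ∈ (rVan β).I (m + r + w) ∅ := by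
          rw [hG, map_sub, map_mul, map_mul]
          exact Ideal.sub_mem _ (Ideal.mul_mem_right _ _ h8'') (Ideal.mul_mem_right _ _ h9'')
        have h10 : sext (numJ J' c' p' q' * (sbt x a g * sbt x b g)) ∈
            (rVan β).I (m + r + w) ∅ := by
          rw [key, map_mul]
          exact Ideal.mul_mem_right _ _ hGm
        have hpr := (rVan β).prime (m + r + w) ∅
        rw [map_mul, map_mul] at h10
        rcases hpr.mem_or_mem h10 with h11 | h11
        · exact h11
        · exfalso
          rcases hpr.mem_or_mem h11 with h12 | h12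
          · rw [hga] at h12
            exact prod_notMem hpr (fun i hi => P0 _ _ (ha i hi) _ _) h12
          · rw [hgb] at h12
            exact prod_notMem hpr (fun i hi => P0 _ _ (hb i hi) _ _) h12
    -- elimination of the variables outside of `E`
    have hbad : ∀ x, {a : ℂ | ¬ ∀ i ∈ J, Gd (sbt x a (p i)) (sbt x a (q i))}.Finite := by
      intro x
      refine (J.finite_toSet.biUnion fun i hi => P1 _ _ (hg i (Finset.mem_coe.1 hi)).1 x).subset ?_
      intro a ha
      by_contra hcon
      apply ha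
      intro i hi
      by_contra hc
      exact hcon (Set.mem_biUnion (Finset.mem_coe.2 hi) hc)
    have hel : ∀ X : Finset (Fin n), (∀ x ∈ X, x ∉ E) → ∃ A B : MvPolynomial (Fin n) ℂ,
        A ≠ 0 ∧ B ≠ 0 ∧ f * B = A * g ∧ ∀ x ∈ X, x ∉ A.vars := by
      intro X
      induction X using Finset.induction_on with
      | empty => exact fun _ => ⟨f, g, hne, hg0, rfl, fun x hx => absurd hx (Finset.notMem_empty x)⟩
      | insert x X _ ihX =>
        intro hX
        obtain ⟨A, B, hA, hB, hAB, hv⟩ := ihX fun y hy => hX y (Finset.mem_insert_of_mem hy)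
        obtain ⟨b, hb⟩ := ((hbad x).union ((fin_sbt hA x).union (fin_sbt hB x))).exists_notMem
        simp only [Set.mem_union, not_or, Set.mem_ofPred_eq, not_not] at hb
        obtain ⟨hb1, hb2, hb3⟩ := hb
        have hgb0 : sbt x b g ≠ 0 := by
          rw [show sbt x b g = ∏ i ∈ J, sbt x b (q i) from map_prod _ _ _]
          exact Finset.prod_ne_zero_iff.2 fun i hi => q0 _ _ (hb1 i hi)
        have h1 : f * sbt x b g - sbt x b f * g = 0 := by
          by_contra hc
          obtain ⟨a, ha⟩ := ((hbad x).union (fin_sbt hc x)).exists_notMem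
          simp only [Set.mem_union, not_or, Set.mem_ofPred_eq, not_not] at ha
          apply ha.2
          rw [map_sub, map_mul, map_mul, sbt_sbt, sbt_sbt]
          exact hdiff x (hX x (Finset.mem_insert_self _ _)) a b ha.1 hb1
        have h2 : sbt x b f * sbt x b B = sbt x b A * sbt x b g := by
          rw [← map_mul, hAB, map_mul]
        refine ⟨sbt x b A, sbt x b B, hb2, hb3, ?_, ?_⟩
        · apply mul_right_cancel₀ hgb0
          linear_combination sbt x b B * h1 + g * h2
        · intro y hy hc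
          obtain ⟨h3, h4⟩ := vars_sbt' x b A hc
          rcases Finset.mem_insert.1 hy with h | h
          · exact h3 h
          · exact hv y h h4
    obtain ⟨A, B, hA, hB, hAB, hv⟩ := hel (Finset.univ \ E) fun x hx =>
      (Finset.mem_sdiff.1 hx).2
    have hmE : sext f ∈ (rVan β).I 0 E := by
      have h12 := (rVan β).free_set E 0 ∅ ((rVan β).mono (by omega) ∅ hmem)
      rwa [Finset.empty_union] at h12
    have hAg : sext (A * g) ∈ (rVan β).I 0 E := by
      rw [← hAB, map_mul]
      exact Ideal.mul_mem_right _ _ hmE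
    rw [map_mul] at hAg
    rcases ((rVan β).prime 0 E).mem_or_mem hAg with h | h
    · apply hA
      apply ext_inj
      rw [map_zero]
      refine (rVan β).supp 0 _ _ ?_ h
      rw [mem_supported, ext_vars]
      intro x hx
      by_contra hxE
      exact hv x (Finset.mem_sdiff.2 ⟨Finset.mem_univ _, fun h => hxE (Finset.mem_coe.2 h)⟩)
        (Finset.mem_coe.1 hx)
    · exact prod_notMem ((rVan β).prime 0 E) (fun i hi => P0 _ _ (hg i hi).1 _ _) h

end Pool.Agent.W936.VN
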