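import Mathlib
import Pool.Agent.W936.VN.Red2
import Pool.Agent.W936.VN.Thf

/-!
The class of fractions of polynomials in nonsingular expressions: substitutions, bounded sums, and
the tests.
-/

set_option autoImplicit false

namespace Pool.Agent.W936.VN

open MvPolynomial Pool.Agent.H530R2 Pool.Agent.W936.RO Pool.Agent.W936.WB Pool.Agent.W936.XN
  Pool.Agent.W936.LC

variable {n : ℕ}

/-- substitution of a constant in the leaves -/
noncomputable def fsbt (x : Fin n) (a : ℂ) : Frac n → Frac n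
  | .leaf p q => .leaf (sbt x a p) (sbt x a q)
  | .gate t b c => .gate t (fsbt x a b) (fsbt x a c)

theorem fsbt_val (x : Fin n) (a : ℂ) (E : Frac n) (i : Fin 2) :
    (fsbt x a E).val i = sbt x a (E.val i) := by
  induction E generalizing i with
  | leaf p q => fin_cases i <;> rfl
  | gate t b c ihb ihc =>
    simp only [fsbt, Frac.val, map_sum, map_mul, sbt_C, ihb, ihc]

theorem fsbt_reads (x : Fin n) (a : ℂ) (E : Frac n) (i : Fin n) :
    (fsbt x a E).reads i ≤ E.reads i := by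
  classical
  induction E with
  | leaf p q =>
    simp only [fsbt, Frac.reads]
    by_cases h : i ∈ (sbt x a p).vars ∪ (sbt x a q).vars
    · rw [if_pos h, if_pos]
      rw [Finset.mem_union] at h ⊢
      exact h.imp (fun h => (vars_sbt x a p h).2) (fun h => (vars_sbt x a q h).2)
    · rw [if_neg h]
      exact Nat.zero_le _
  | gate t b c ihb ihc => exact Nat.add_le_add ihb ihc

theorem lfp_sbt {w s D : ℕ} (x : Fin n) (a : ℂ) {g : MvPolynomial (Fin n) ℂ}
    (h : LfP w s D g) : LfP w s D (sbt x a g) := by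
  rcases h with h | ⟨c, rfl⟩
  · exact Or.inl (prg_sbt x a h)
  · exact Or.inr ⟨c, sbt_C _ _ _⟩

theorem fsbt_leaves {w s D : ℕ} (x : Fin n) (a : ℂ) (E : Frac n)
    (h : E.Leaves (LfP w s D)) : (fsbt x a E).Leaves (LfP w s D) := by
  induction E with
  | leaf p q => exact ⟨lfp_sbt x a h.1, lfp_sbt x a h.2⟩
  | gate t b c ihb ihc => exact ⟨ihb h.1, ihc h.2⟩

theorem det_sbt (x : Fin n) (a : ℂ) (J : Matrix (Fin 2) (Fin 2) (MvPolynomial (Fin n) ℂ)) :
    (J.map (sbt x a)).det = sbt x a J.det := by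
  rw [Matrix.det_fin_two, Matrix.det_fin_two, map_sub, map_mul, map_mul]
  rfl

theorem fok_sbt {σ : Fin n → ℂ} {c : Frac n}
    {J : Matrix (Fin 2) (Fin 2) (MvPolynomial (Fin n) ℂ)} (h : FOk σ c J) (x : Fin n) :
    {a : ℂ | ¬ FOk σ (fsbt x a c) (J.map (sbt x a))}.Finite := by
  rcases h with h | h | h
  · refine Set.finite_empty.subset fun a ha => ha (Or.inl ?_)
    cases c with
    | leaf p q => trivial
    | gate t b c => exact h.elim
  · refine Set.finite_empty.subset fun a ha => ha (Or.inr (Or.inl ?_))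
    rw [h]
    ext1 i j
    exact map_zero (sbt x a)
  · refine (fin_eval x h).subset fun a ha => ?_
    by_contra hc
    apply ha
    right; right
    rw [det_sbt, eval_sbt]
    exact hc

theorem fsbt_reg {σ : Fin n → ℂ} {E : Frac n} (h : FReg σ E) (x : Fin n) :
    {a : ℂ | ¬ FReg σ (fsbt x a E)}.Finite := by
  induction E with
  | leaf p q => exact Set.finite_empty.subset fun a ha => ha trivial
  | gate t b c ihb ihc =>
    obtain ⟨h1, h2, h3, h4⟩ := h
    refine ((ihb h1).union ((ihc h2).union ((fok_sbt h3 x).union (fok_sbt h4 x)))).subset ?_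
    intro a ha
    by_contra hcon
    simp only [Set.mem_union, not_or, Set.mem_ofPred_eq, not_not] at hcon
    obtain ⟨g1, g2, g3, g4⟩ := hcon
    apply ha
    have e1 : lmat (ct t) (fsbt x a c).val = (lmat (ct t) c.val).map (sbt x a) := by
      ext1 i j
      simp only [lmat, ct, Matrix.of_apply, Matrix.map_apply, map_sum, map_mul, sbt_C, fsbt_val]
    have e2 : rmat (ct t) (fsbt x a b).val = (rmat (ct t) b.val).map (sbt x a) := by
      ext1 i j
      simp only [rmat, ct, Matrix.of_apply, Matrix.map_apply, map_sum, map_mul, sbt_C, fsbt_val]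
    refine ⟨g1, g2, ?_, ?_⟩
    · rw [e1]
      exact g3
    · rw [e2]
      exact g4

/-- fractions of polynomials in `w` nonsingular expressions -/
def Gd (w s D : ℕ) (σ : Fin n → ℂ) (p q : MvPolynomial (Fin n) ℂ) : Prop :=
  ∃ E : Fin w → Frac n, (∀ j, FGood w s D (E j) ∧ FReg σ (E j)) ∧
    p ∈ Algebra.adjoin ℂ (Set.range fun x : Fin w × Fin 2 => (E x.1).val x.2) ∧
    q ∈ Algebra.adjoin ℂ (Set.range fun x : Fin w × Fin 2 => (E x.1).val x.2) ∧ eval σ q ≠ 0

theorem hit_of_eval {σ : Fin n → ℂ} {N : ℕ} {q : MvPolynomial (Fin n) ℂ} (h : eval σ q ≠ 0)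
    (e : ℕ) (Y : Finset (Fin n)) : sext q ∉ (rVan (sbase σ N)).I e Y := fun hc =>
  rVan_hit (sbase_ne_of_eval h) Y ((rVan _).mono (Nat.zero_le e) Y hc)

theorem gd_sbt {w s D : ℕ} {σ : Fin n → ℂ} {p q : MvPolynomial (Fin n) ℂ}
    (h : Gd w s D σ p q) (x : Fin n) : {a : ℂ | ¬ Gd w s D σ (sbt x a p) (sbt x a q)}.Finite := by
  obtain ⟨E, hE, hp, hq, hq0⟩ := h
  refine ((Set.finite_iUnion fun j => fsbt_reg (hE j).2 x).union (fin_eval x hq0)).subset ?_
  intro a ha
  by_contra hcon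
  rw [Set.mem_union, not_or] at hcon
  apply ha
  have hmap : ∀ y, y ∈ Algebra.adjoin ℂ (Set.range fun x : Fin w × Fin 2 => (E x.1).val x.2) →
      sbt x a y ∈ Algebra.adjoin ℂ (Set.range fun z : Fin w × Fin 2 =>
        (fsbt x a (E z.1)).val z.2) := by
    intro y hy
    have h1 : sbt x a y ∈ (Algebra.adjoin ℂ (Set.range fun x : Fin w × Fin 2 =>
      (E x.1).val x.2)).map (sbt x a) := ⟨y, hy, rfl⟩
    rw [AlgHom.map_adjoin] at h1
    refine Algebra.adjoin_mono ?_ h1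
    rintro _ ⟨_, ⟨z, rfl⟩, rfl⟩
    exact ⟨z, fsbt_val x a _ _⟩
  refine ⟨fun j => fsbt x a (E j), fun j => ⟨⟨fsbt_leaves x a _ (hE j).1.1, fun y =>
    (fsbt_reads x a _ y).trans ((hE j).1.2 y)⟩, ?_⟩, hmap p hp, hmap q hq, ?_⟩
  · by_contra hc
    exact hcon.1 (Set.mem_iUnion.2 ⟨j, hc⟩)
  · rw [eval_sbt]
    exact hcon.2

/-- sums of boundedly many members of `Gd` -/
theorem gd_frac_hit (w D K : ℕ) : ∃ A m : ℕ, ∀ n s N : ℕ, (s + 3) ^ A ≤ N → ∀ σ : Fin n → ℂ,
    (∀ i, σ i ≠ 0) → ∀ (I : Type) (J : Finset I) (c : I → ℂ)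
    (p q : I → MvPolynomial (Fin n) ℂ), J.card ≤ K → (∀ i ∈ J, Gd w s D σ (p i) (q i)) →
    numJ J c p q ≠ 0 → sext (numJ J c p q) ∉ (rVan (sbase σ N)).I m ∅ := by
  classical
  obtain ⟨A, m, hm⟩ := frac_hit' w D (K * w)
  refine ⟨A, m, fun n s N hN σ hσ I J c p q hJ hg hne => ?_⟩
  choose E hE hp hq hq0 using fun i : J => hg i.1 i.2
  refine hm n s N hN σ hσ (J × Fin w) (fun y => E y.1 y.2) ?_ (fun y => hE y.1 y.2) _ ?_ hne
  · rw [Fintype.card_prod, Fintype.card_fin, Fintype.card_coe]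
    exact Nat.mul_le_mul_right _ hJ
  · have hsub : ∀ (i : I) (hi : i ∈ J), Algebra.adjoin ℂ (Set.range fun x : Fin w × Fin 2 =>
        (E ⟨i, hi⟩ x.1).val x.2) ≤ Algebra.adjoin ℂ
          (Set.range fun x : (J × Fin w) × Fin 2 => (E x.1.1 x.1.2).val x.2) := by
      intro i hi
      refine Algebra.adjoin_mono ?_
      rintro _ ⟨x, rfl⟩
      exact ⟨((⟨i, hi⟩, x.1), x.2), rfl⟩
    refine Subalgebra.sum_mem _ fun i hi => Subalgebra.mul_mem _
      (Subalgebra.mul_mem _ (Subalgebra.algebraMap_mem _ _) (hsub i hi (hp ⟨i, hi⟩))) ?_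
    refine Subalgebra.prod_mem _ fun j hj => ?_
    have hj' : j ∈ J := Finset.mem_of_mem_erase hj
    exact hsub j hj' (hq ⟨j, hj'⟩)

/-- atoms are hit -/
theorem atom_hit (w D : ℕ) : ∃ A m : ℕ, ∀ n s N : ℕ, (s + 3) ^ A ≤ N → ∀ σ : Fin n → ℂ,
    (∀ i, σ i ≠ 0) → ∀ g : MvPolynomial (Fin n) ℂ, Atom w s D σ g →
    sext g ∉ (rVan (sbase σ N)).I m ∅ := by
  obtain ⟨A, m, hm⟩ := frac_hit' w D 2
  refine ⟨A, m, fun n s N hN σ hσ g hg => ?_⟩
  obtain ⟨hg0, a, b, ha, hb, hmem⟩ := hg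
  refine hm n s N hN σ hσ (Fin 2) ![a, b] (by rw [Fintype.card_fin]) (fun i => ?_) g ?_ hg0
  · fin_cases i
    · exact ha
    · exact hb
  · refine Algebra.adjoin_mono ?_ hmem
    rintro _ (⟨j, rfl⟩ | ⟨j, rfl⟩)
    · exact ⟨(0, j), rfl⟩
    · exact ⟨(1, j), rfl⟩

/-- products of atoms -/
def Atoms (w s D : ℕ) (σ : Fin n → ℂ) (g : MvPolynomial (Fin n) ℂ) : Prop :=
  ∃ S : List (MvPolynomial (Fin n) ℂ), (∀ g ∈ S, Atom w s D σ g) ∧ g = S.prod

theorem Atoms.mul {w s D : ℕ} {σ : Fin n → ℂ} {g h : MvPolynomial (Fin n) ℂ}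
    (hg : Atoms w s D σ g) (hh : Atoms w s D σ h) : Atoms w s D σ (g * h) := by
  obtain ⟨S, hS, rfl⟩ := hg
  obtain ⟨T, hT, rfl⟩ := hh
  refine ⟨S ++ T, fun x hx => ?_, by rw [List.prod_append]⟩
  rcases List.mem_append.1 hx with hx | hx
  · exact hS x hx
  · exact hT x hx

theorem Atom.atoms {w s D : ℕ} {σ : Fin n → ℂ} {g : MvPolynomial (Fin n) ℂ}
    (hg : Atom w s D σ g) : Atoms w s D σ g :=
  ⟨[g], fun x hx => by rw [List.mem_singleton] at hx; rwa [hx], by rw [List.prod_singleton]⟩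

theorem Atoms.hit {w s D : ℕ} {σ : Fin n → ℂ} {g : MvPolynomial (Fin n) ℂ}
    (hg : Atoms w s D σ g) {P : Ideal (MvPolynomial (Fin n) (RatFunc ℂ))} (hP : P.IsPrime)
    (h : ∀ g : MvPolynomial (Fin n) ℂ, Atom w s D σ g → sext g ∉ P) : sext g ∉ P := by
  obtain ⟨S, hS, rfl⟩ := hg
  induction S with
  | nil =>
    rw [List.prod_nil, map_one]
    intro hc
    exact hP.ne_top ((Ideal.eq_top_iff_one _).2 hc)
  | cons a S ih =>
    rw [List.prod_cons, map_mul]
    intro hc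
    rcases hP.mem_or_mem hc with hc | hc
    · exact h a (hS a List.mem_cons_self) hc
    · exact ih (fun x hx => hS x (List.mem_cons_of_mem _ hx)) hc

/-- the components and the determinants are products of atoms -/
theorem redu_atoms {w s D : ℕ} {σ : Fin n → ℂ} {ρ : Fin n → ℕ}
    {v : Fin 2 → MvPolynomial (Fin n) ℂ} (h : Redu w s D σ ρ v) :
    (∀ i, v i ≠ 0 → Atoms w s D σ (v i)) ∧
    ∀ t : Fin 2 → Fin 2 → Fin 2 → ℂ, (lmat (ct t) v).det ≠ 0 →
      Atoms w s D σ (lmat (ct t) v).det := by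
  rcases h with h | ⟨S, E, hS, hE, hR, _, hv⟩
  · subst h
    refine ⟨fun i hi => absurd rfl hi, fun t ht => absurd ?_ ht⟩
    rw [det_lmat]
    simp
  · have hmem : ∀ i, E.val i ∈ Algebra.adjoin ℂ (Set.range E.val ∪ Set.range E.val) :=
      fun i => Algebra.subset_adjoin (Or.inl ⟨i, rfl⟩)
    constructor
    · intro i hi
      rw [hv] at hi ⊢
      exact Atoms.mul ⟨S, hS, rfl⟩
        (Atom.atoms ⟨right_ne_zero_of_mul hi, E, E, ⟨hE, hR⟩, ⟨hE, hR⟩, hmem i⟩)
    · intro t ht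
      rw [det_lmat_smul t hv] at ht ⊢
      rw [pow_two]
      refine Atoms.mul (Atoms.mul ⟨S, hS, rfl⟩ ⟨S, hS, rfl⟩)
        (Atom.atoms ⟨right_ne_zero_of_mul ht, E, E, ⟨hE, hR⟩, ⟨hE, hR⟩, ?_⟩)
      rw [det_lmat]
      refine Subalgebra.add_mem _ (Subalgebra.add_mem _ ?_ ?_) ?_
      · exact Subalgebra.mul_mem _ (Subalgebra.algebraMap_mem _ _)
          (Subalgebra.pow_mem _ (hmem 0) 2)
      · exact Subalgebra.mul_mem _ (Subalgebra.algebraMap_mem _ _)
          (Subalgebra.mul_mem _ (hmem 0) (hmem 1))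
      · exact Subalgebra.mul_mem _ (Subalgebra.algebraMap_mem _ _)
          (Subalgebra.pow_mem _ (hmem 1) 2)

/-- the tests: the determinants of the gates, and the denominators -/
noncomputable def tests (l : List (Frac n)) : List (MvPolynomial (Fin n) ℂ) :=
  l.flatMap fun E => E.dets ++ [E.val 1]

/-- the tests of an expression are admissible -/
theorem adm_dets {w s D N M : ℕ} (hm : ∀ σ : Fin n → ℂ, (∀ i, σ i ≠ 0) →
      ∀ g : MvPolynomial (Fin n) ℂ, Atoms w s D σ g → sext g ∉ (rVan (sbase σ N)).I M ∅)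
    (E : Frac n) (hE : FGood w s D E) : ∀ {L : List (MvPolynomial (Fin n) ℂ)}, AdmH N M L →
      AdmH N M (L ++ E.dets) := by
  induction E with
  | leaf p q => exact fun {L} h => by rwa [Frac.dets, List.append_nil]
  | gate t a b iha ihb =>
    intro L h
    have ha : FGood w s D a := ⟨hE.1.1, fun i => (Nat.le_add_right _ _).trans (hE.2 i)⟩
    have hb : FGood w s D b := ⟨hE.1.2, fun i => (Nat.le_add_left _ _).trans (hE.2 i)⟩
    have h2 := ihb hb (iha ha h)
    have hsa : ∀ x ∈ a.dets, x ∈ L ++ a.dets ++ b.dets := fun x hx =>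
      List.mem_append.2 (Or.inl (List.mem_append.2 (Or.inr hx)))
    have hsb : ∀ x ∈ b.dets, x ∈ L ++ a.dets ++ b.dets :=
      fun x hx => List.mem_append.2 (Or.inr hx)
    have h3 := AdmH.snoc (g := (lmat (ct t) b.val).det) h2
      fun σ hσ hL h0 => hm σ hσ _ ((redu_atoms (redu b hb fun g hg => hL g (hsb g hg))).2 t h0)
    have h4 := AdmH.snoc (g := (rmat (ct t) a.val).det) h3
      fun σ hσ hL h0 => hm σ hσ _ ((redu_atoms (redu a ha fun g hg =>
        hL g (List.mem_append.2 (Or.inl (hsa g hg))))).2 (fun i j k => t i k j) h0)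
    have h5 : L ++ (Frac.gate t a b).dets = L ++ a.dets ++ b.dets ++
        [(lmat (ct t) b.val).det] ++ [(rmat (ct t) a.val).det] := by
      simp only [Frac.dets, List.append_assoc, List.cons_append, List.nil_append]
    rw [h5]
    exact h4

theorem adm_tests {w s D N M : ℕ} (hm : ∀ σ : Fin n → ℂ, (∀ i, σ i ≠ 0) →
      ∀ g : MvPolynomial (Fin n) ℂ, Atoms w s D σ g → sext g ∉ (rVan (sbase σ N)).I M ∅)
    (l : List (Frac n)) (hl : ∀ E ∈ l, FGood w s D E) : AdmH N M (tests l) := by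
  have key : ∀ {L : List (MvPolynomial (Fin n) ℂ)}, AdmH N M L →
      AdmH N M (L ++ l.flatMap fun E => E.dets ++ [E.val 1]) := by
    induction l with
    | nil => exact fun {L} h => by rwa [List.flatMap_nil, List.append_nil]
    | cons T l ih =>
      intro L h
      rw [List.flatMap_cons, ← List.append_assoc]
      refine ih (fun T' hT' => hl T' (List.mem_cons_of_mem _ hT')) ?_
      rw [← List.append_assoc]
      exact AdmH.snoc (adm_dets hm T (hl T List.mem_cons_self) h) fun σ hσ hL h0 =>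
        hm σ hσ _ ((redu_atoms (redu T (hl T List.mem_cons_self) fun g hg =>
          hL g (List.mem_append.2 (Or.inr hg)))).1 1 h0)
  exact key (L := []) AdmH.nil

end Pool.Agent.W936.VN
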