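import Mathlib
import Pool.Agent.W936.VN.Cls

/-!
Sums of fractions of polynomials in expressions with bilinear gates.
-/

set_option autoImplicit false

namespace Pool.Agent.W936.VN

open MvPolynomial Pool.Agent.H530R2 Pool.Agent.W936.RO Pool.Agent.W936.WB Pool.Agent.W936.XN
  Pool.Agent.W936.LC

variable {n : ℕ}

/-- the number of leaves -/
def Frac.size : Frac n → ℕ
  | .leaf _ _ => 1
  | .gate _ a b => a.size + b.size

/-- The formal degree: for a leaf it is the maximum of the total degrees of the two polynomials, for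
a gate it is the sum of the formal degrees of the arguments. -/
noncomputable def Frac.degree : Frac n → ℕ
  | .leaf p q => max p.totalDegree q.totalDegree
  | .gate _ a b => a.degree + b.degree

/-- the rational function -/
noncomputable def Frac.rat (E : Frac n) : FractionRing (MvPolynomial (Fin n) ℂ) :=
  algebraMap _ _ (E.val 0) / algebraMap _ _ (E.val 1)

/-- the value at a point -/
noncomputable def Frac.valueAt (E : Frac n) (p : Fin n → ℤ) : ℂ :=
  eval (fun i => (p i : ℂ)) (E.val 0) / eval (fun i => (p i : ℂ)) (E.val 1)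

open Classical in
/-- the variables which occur in one of the expressions -/
noncomputable def occurring {w : ℕ} (E : Fin w → Frac n) : Finset (Fin n) :=
  Finset.univ.filter fun x => ∃ j, (E j).reads x ≠ 0

theorem val_supp (E : Frac n) (i : Fin 2) :
    E.val i ∈ supported ℂ {x : Fin n | E.reads x ≠ 0} := by
  classical
  induction E generalizing i with
  | leaf p q =>
    rw [mem_supported]
    intro x hx
    show Frac.reads (.leaf p q) x ≠ 0
    rw [Frac.reads, if_pos]
    · exact one_ne_zero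
    · rw [Finset.mem_union]
      fin_cases i
      · exact Or.inl hx
      · exact Or.inr hx
  | gate t a b iha ihb =>
    refine Subalgebra.sum_mem _ fun j _ => Subalgebra.sum_mem _ fun k _ => Subalgebra.mul_mem _
      (Subalgebra.mul_mem _ (Subalgebra.algebraMap_mem _ _) ?_) ?_
    · refine supported_mono ?_ (iha j)
      intro x hx
      have hx' : a.reads x ≠ 0 := hx
      show a.reads x + b.reads x ≠ 0
      omega
    · refine supported_mono ?_ (ihb k)
      intro x hx
      have hx' : b.reads x ≠ 0 := hx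
      show a.reads x + b.reads x ≠ 0
      omega

/-- homogenization -/
noncomputable def hm {w : ℕ} (δ : ℕ) (A B : Fin w → MvPolynomial (Fin n) ℂ)
    (P : MvPolynomial (Fin w) ℂ) : MvPolynomial (Fin n) ℂ :=
  ∑ e ∈ P.support, C (coeff e P) * ∏ j, (A j ^ e j * B j ^ (δ - e j))

theorem le_of_totalDegree {w δ : ℕ} {P : MvPolynomial (Fin w) ℂ} (hδ : P.totalDegree ≤ δ)
    {e : Fin w →₀ ℕ} (he : e ∈ P.support) (j : Fin w) : e j ≤ δ := by
  refine le_trans ?_ ((le_totalDegree he).trans hδ)
  by_cases h : j ∈ e.support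
  · exact Finset.single_le_sum (f := fun i => e i) (fun _ _ => Nat.zero_le _) h
  · rw [Finsupp.notMem_support_iff.1 h]
    exact Nat.zero_le _

theorem hm_eq {w δ : ℕ} {K : Type*} [Field K] (φ : MvPolynomial (Fin n) ℂ →+* K)
    {A B : Fin w → MvPolynomial (Fin n) ℂ} {P : MvPolynomial (Fin w) ℂ}
    (hδ : P.totalDegree ≤ δ) (hB : ∀ j, φ (B j) ≠ 0) :
    φ (hm δ A B P) =
      (∏ j, φ (B j) ^ δ) * eval₂ (φ.comp C) (fun j => φ (A j) / φ (B j)) P := by
  rw [hm, map_sum, eval₂_eq', Finset.mul_sum]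
  refine Finset.sum_congr rfl fun e he => ?_
  rw [map_mul, map_prod, RingHom.comp_apply, ← mul_assoc, mul_comm (∏ j, φ (B j) ^ δ), mul_assoc,
    ← Finset.prod_mul_distrib]
  congr 1
  refine Finset.prod_congr rfl fun j _ => ?_
  rw [map_mul, map_pow, map_pow, div_pow]
  have h1 : φ (B j) ^ δ = φ (B j) ^ (δ - e j) * φ (B j) ^ e j := by
    rw [← pow_add, Nat.sub_add_cancel (le_of_totalDegree hδ he j)]
  rw [h1]
  field_simp [hB j]

theorem hm_mem {w δ : ℕ} {A B : Fin w → MvPolynomial (Fin n) ℂ} (P : MvPolynomial (Fin w) ℂ)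
    (S : Subalgebra ℂ (MvPolynomial (Fin n) ℂ)) (hA : ∀ j, A j ∈ S) (hB : ∀ j, B j ∈ S) :
    hm δ A B P ∈ S := by
  refine Subalgebra.sum_mem _ fun e _ => Subalgebra.mul_mem _ (Subalgebra.algebraMap_mem _ _) ?_
  exact Subalgebra.prod_mem _ fun j _ => Subalgebra.mul_mem _ (Subalgebra.pow_mem _ (hA j) _)
    (Subalgebra.pow_mem _ (hB j) _)

theorem hm_degree {w δ : ℕ} {A B : Fin w → MvPolynomial (Fin n) ℂ} {P : MvPolynomial (Fin w) ℂ}
    (hδ : P.totalDegree ≤ δ) {g : Fin w → ℕ} (hA : ∀ j, (A j).totalDegree ≤ g j)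
    (hB : ∀ j, (B j).totalDegree ≤ g j) : (hm δ A B P).totalDegree ≤ ∑ j, δ * g j := by
  refine (totalDegree_finsetSum _ _).trans (Finset.sup_le fun e he => ?_)
  refine (totalDegree_mul _ _).trans ?_
  rw [totalDegree_C, zero_add]
  refine (totalDegree_finsetProd _ _).trans (Finset.sum_le_sum fun j _ => ?_)
  refine (totalDegree_mul _ _).trans ?_
  calc (A j ^ e j).totalDegree + (B j ^ (δ - e j)).totalDegree
      ≤ e j * g j + (δ - e j) * g j := Nat.add_le_add
        ((totalDegree_pow _ _).trans (Nat.mul_le_mul_left _ (hA j)))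
        ((totalDegree_pow _ _).trans (Nat.mul_le_mul_left _ (hB j)))
    _ = δ * g j := by
        rw [← Nat.add_mul, Nat.add_sub_cancel' (le_of_totalDegree hδ he j)]

theorem val_degree (E : Frac n) (i : Fin 2) : (E.val i).totalDegree ≤ E.degree := by
  induction E generalizing i with
  | leaf p q =>
    fin_cases i
    · exact le_max_left _ _
    · exact le_max_right _ _
  | gate t a b iha ihb =>
    refine (totalDegree_finsetSum _ _).trans (Finset.sup_le fun j _ => ?_)
    refine (totalDegree_finsetSum _ _).trans (Finset.sup_le fun k _ => ?_)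
    refine (totalDegree_mul _ _).trans (Nat.add_le_add ?_ (ihb k))
    refine (totalDegree_mul _ _).trans ?_
    rw [totalDegree_C, zero_add]
    exact iha j

theorem det_degree (t : Fin 2 → Fin 2 → Fin 2 → ℂ) {v : Fin 2 → MvPolynomial (Fin n) ℂ} {g : ℕ}
    (h : ∀ i, (v i).totalDegree ≤ g) : (lmat (ct t) v).det.totalDegree ≤ 2 * g := by
  rw [det_lmat]
  have h1 : ∀ (c : ℂ) (x y : MvPolynomial (Fin n) ℂ), x.totalDegree ≤ g → y.totalDegree ≤ g →
      (C c * (x * y)).totalDegree ≤ 2 * g := by
    intro c x y hx hy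
    refine (totalDegree_mul _ _).trans ?_
    rw [totalDegree_C, zero_add]
    refine (totalDegree_mul _ _).trans ?_
    omega
  refine (totalDegree_add _ _).trans (max_le ((totalDegree_add _ _).trans (max_le ?_ ?_)) ?_)
  · rw [pow_two]
    exact h1 _ _ _ (h 0) (h 0)
  · exact h1 _ _ _ (h 0) (h 1)
  · rw [pow_two]
    exact h1 _ _ _ (h 1) (h 1)

theorem dets_degree (E : Frac n) : ∀ g ∈ E.dets, g.totalDegree ≤ 2 * E.degree := by
  induction E with
  | leaf p q => exact fun g hg => absurd hg List.not_mem_nil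
  | gate t a b iha ihb =>
    intro g hg
    simp only [Frac.dets, List.mem_append, List.mem_cons, List.not_mem_nil, or_false] at hg
    show g.totalDegree ≤ 2 * (a.degree + b.degree)
    rcases hg with (hg | hg) | (rfl | rfl)
    · have := iha g hg
      omega
    · have := ihb g hg
      omega
    · have := det_degree t (val_degree b)
      omega
    · have := det_degree (fun i j k => t i k j) (val_degree a)
      show (lmat (ct fun i j k => t i k j) a.val).det.totalDegree ≤ _
      omega

theorem size_pos (E : Frac n) : 1 ≤ E.size := by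
  induction E with
  | leaf p q => exact le_rfl
  | gate t a b iha ihb => rw [Frac.size]; omega

theorem dets_length (E : Frac n) : E.dets.length + 2 = 2 * E.size := by
  induction E with
  | leaf p q => rfl
  | gate t a b iha ihb =>
    simp only [Frac.dets, Frac.size, List.length_append, List.length_cons, List.length_nil]
    omega

theorem tests_count (l : List (Frac n)) (S δ : ℕ) (h : ∀ E ∈ l, E.size ≤ S ∧ E.degree ≤ δ) :
    (tests l).length ≤ 2 * S * l.length ∧
      ((tests l).map totalDegree).sum ≤ 2 * S * l.length * (2 * δ) := by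
  have h1 : (tests l).length ≤ 2 * S * l.length := by
    refine (Pool.Agent.Results.MP_e2be99_lc.FormulasOverSparse.flatMap_length_le l _ (2 * S)
      fun E hE => ?_).trans (le_of_eq (by ring))
    have h2 := dets_length E
    have h3 := (h E hE).1
    rw [List.length_append, List.length_singleton]
    omega
  refine ⟨h1, ?_⟩
  have h2 : ∀ d ∈ (tests l).map totalDegree, d ≤ 2 * δ := by
    intro d hd
    obtain ⟨g, hg, rfl⟩ := List.mem_map.1 hd
    obtain ⟨E, hE, hg⟩ := List.mem_flatMap.1 hg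
    have h3 := (h E hE).2
    rcases List.mem_append.1 hg with hg | hg
    · have := dets_degree E g hg
      omega
    · rw [List.mem_singleton] at hg
      subst hg
      have := val_degree E 1
      omega
  have h3 := List.sum_le_card_nsmul _ _ h2
  rw [List.length_map, smul_eq_mul] at h3
  exact h3.trans (Nat.mul_le_mul_right _ h1)

/-- the numerator of a sum -/
noncomputable def sumN {w R : ℕ} (E : Fin R → Fin w → Frac n)
    (P : Fin R → MvPolynomial (Fin w) ℂ) : MvPolynomial (Fin n) ℂ :=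
  numJ Finset.univ (fun _ => 1)
    (fun i => hm (P i).totalDegree (fun j => (E i j).val 0) (fun j => (E i j).val 1) (P i))
    (fun i => ∏ j, (E i j).val 1 ^ (P i).totalDegree)

theorem sumN_eq {w R : ℕ} {K : Type*} [Field K] (φ : MvPolynomial (Fin n) ℂ →+* K)
    (E : Fin R → Fin w → Frac n) (P : Fin R → MvPolynomial (Fin w) ℂ)
    (h : ∀ i j, φ ((E i j).val 1) ≠ 0) :
    φ (sumN E P) = (∏ i, ∏ j, φ ((E i j).val 1) ^ (P i).totalDegree) *
      ∑ i, eval₂ (φ.comp C) (fun j => φ ((E i j).val 0) / φ ((E i j).val 1)) (P i) := by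
  have h1 : ∀ i, (∏ j, φ ((E i j).val 1) ^ (P i).totalDegree) ≠ 0 := fun i =>
    Finset.prod_ne_zero_iff.2 fun j _ => pow_ne_zero _ (h i j)
  have h2 : ∀ i, φ (∏ j, (E i j).val 1 ^ (P i).totalDegree) =
      ∏ j, φ ((E i j).val 1) ^ (P i).totalDegree := fun i => by
    rw [map_prod]
    exact Finset.prod_congr rfl fun j _ => map_pow _ _ _
  rw [sumN, numJ_eq φ (fun i _ => by rw [h2]; exact h1 i)]
  congr 1
  · exact Finset.prod_congr rfl fun i _ => h2 i
  · refine Finset.sum_congr rfl fun i _ => ?_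
    rw [hm_eq φ le_rfl (h i), h2, C_1, map_one, one_mul, mul_div_cancel_left₀ _ (h1 i)]

theorem numJ_degree {I : Type} {J : Finset I} {c : I → ℂ} {p q : I → MvPolynomial (Fin n) ℂ}
    {g : I → ℕ} (hp : ∀ i ∈ J, (p i).totalDegree ≤ g i) (hq : ∀ i ∈ J, (q i).totalDegree ≤ g i) :
    (numJ J c p q).totalDegree ≤ ∑ i ∈ J, g i := by
  classical
  refine (totalDegree_finsetSum _ _).trans (Finset.sup_le fun i hi => ?_)
  refine (totalDegree_mul _ _).trans ?_
  have h1 : (C (c i) * p i).totalDegree ≤ g i := by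
    refine (totalDegree_mul _ _).trans ?_
    rw [totalDegree_C, zero_add]
    exact hp i hi
  have h2 : (∏ j ∈ @Finset.erase I (fun a b => Classical.propDecidable (a = b)) J i,
      q j).totalDegree ≤ ∑ j ∈ J.erase i, g j := by
    refine (totalDegree_finsetProd _ _).trans (le_trans (Finset.sum_le_sum fun j hj =>
      hq j (Finset.mem_of_mem_erase hj)) (le_of_eq ?_))
    congr!
  rw [← Finset.add_sum_erase J g hi]
  exact Nat.add_le_add h1 h2

theorem sumN_degree {w R : ℕ} (E : Fin R → Fin w → Frac n)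
    (P : Fin R → MvPolynomial (Fin w) ℂ) :
    (sumN E P).totalDegree ≤ ∑ i, ∑ j, (P i).totalDegree * (E i j).degree := by
  refine numJ_degree (g := fun i => ∑ j, (P i).totalDegree * (E i j).degree) (fun i _ => ?_)
    (fun i _ => ?_)
  · exact hm_degree le_rfl (fun j => val_degree _ 0) (fun j => val_degree _ 1)
  · refine (totalDegree_finsetProd _ _).trans (Finset.sum_le_sum fun j _ => ?_)
    exact (totalDegree_pow _ _).trans (Nat.mul_le_mul_left _ (val_degree _ 1))

/-- the sums considered -/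
def IsSum (l : List (Frac n)) (w κ r : ℕ) {R : ℕ} (E : Fin R → Fin w → Frac n)
    (P : Fin R → MvPolynomial (Fin w) ℂ) : Prop :=
  (∀ i j, E i j ∈ l ∧ (E i j).val 1 ≠ 0) ∧
  (∃ Y : Finset (Fin n), Y.card ≤ w ∧ ∀ S : Finset (Fin n), S.card = r → Disjoint S Y →
    (Finset.univ.filter fun i => S ⊆ occurring (E i)).card ≤ κ) ∧
  ∑ i, aeval (fun j => (E i j).rat) (P i) ≠ 0

theorem rat_eval {w : ℕ} (E : Fin w → Frac n) (P : MvPolynomial (Fin w) ℂ) :
    aeval (fun j => (E j).rat) P = eval₂ ((algebraMap (MvPolynomial (Fin n) ℂ)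
      (FractionRing (MvPolynomial (Fin n) ℂ))).comp C)
      (fun j => algebraMap _ (FractionRing (MvPolynomial (Fin n) ℂ)) ((E j).val 0) /
        algebraMap _ (FractionRing (MvPolynomial (Fin n) ℂ)) ((E j).val 1)) P := by
  rw [aeval_def]
  congr 1

/-- the numerators of the sums are hit at every origin at which the tests do not vanish -/
theorem sum_hit (w D κ r : ℕ) : ∃ A m : ℕ, ∀ n s N : ℕ, (s + 3) ^ A ≤ N →
    ∀ l : List (Frac n), (∀ E ∈ l, FGood w s D E) →
    ∀ σ : Fin n → ℂ, (∀ i, σ i ≠ 0) → (∀ x ∈ tests l, x ≠ 0 → eval σ x ≠ 0) →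
    ∀ (R : ℕ) (E : Fin R → Fin w → Frac n) (P : Fin R → MvPolynomial (Fin w) ℂ),
    IsSum l w κ r E P → sext (sumN E P) ∉ (rVan (sbase σ N)).I m ∅ := by
  classical
  obtain ⟨A, m, hm'⟩ := gd_frac_hit w D (2 ^ r * κ)
  refine ⟨A, m + r + w, fun n s N hN l hl σ hσ hreg R E P hE hmem => ?_⟩
  obtain ⟨hEl, ⟨Y, hY, hthin⟩, hne⟩ := hE
  set K := FractionRing (MvPolynomial (Fin n) ℂ) with hK
  set ψ : MvPolynomial (Fin n) ℂ →+* K := algebraMap _ K with hψ
  have ψinj : Function.Injective ψ := IsFractionRing.injective (MvPolynomial (Fin n) ℂ) K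
  have ψ0 : ∀ g, g ≠ 0 → ψ g ≠ 0 := fun g hg h => hg (ψinj (by rw [h, map_zero]))
  have hden : ∀ i j, eval σ ((E i j).val 1) ≠ 0 := fun i j =>
    hreg _ (List.mem_flatMap.2 ⟨_, (hEl i j).1, List.mem_append.2 (Or.inr
      (List.mem_singleton.2 rfl))⟩) (hEl i j).2
  have hred : ∀ i j, ∃ (S : MvPolynomial (Fin n) ℂ) (E' : Frac n), FGood w s D E' ∧ FReg σ E' ∧
      (∀ x, E'.reads x ≤ (E i j).reads x) ∧ ∀ k, (E i j).val k = S * E'.val k := by
    intro i j
    rcases redu (E i j) (hl _ (hEl i j).1) (σ := σ) (fun g hg => hreg g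
      (List.mem_flatMap.2 ⟨_, (hEl i j).1, List.mem_append.2 (Or.inl hg)⟩)) with
      h | ⟨S, E', _, h2, h3, h4, h5⟩
    · exact absurd (congrFun h 1) (hEl i j).2
    · exact ⟨S.prod, E', h2, h3, h4, h5⟩
  choose S E' hgood hR hrd hval using hred
  have hS0 : ∀ i j, S i j ≠ 0 := by
    intro i j h
    apply (hEl i j).2
    rw [hval, h, zero_mul]
  have hden' : ∀ i j, eval σ ((E' i j).val 1) ≠ 0 := by
    intro i j
    have h1 := hden i j
    rw [hval, map_mul] at h1
    exact right_ne_zero_of_mul h1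
  have hE'0 : ∀ i j, (E' i j).val 1 ≠ 0 := by
    intro i j h
    apply hden' i j
    rw [h, map_zero]
  have hrat : ∀ i j, (E' i j).rat = (E i j).rat := by
    intro i j
    show ψ _ / ψ _ = ψ _ / ψ _
    rw [hval, hval, map_mul, map_mul, mul_div_mul_left _ _ (ψ0 _ (hS0 i j))]
  have hsum : ∀ F : Fin R → Fin w → Frac n, (∀ i j, (F i j).val 1 ≠ 0) →
      ψ (sumN F P) = (∏ i, ∏ j, ψ ((F i j).val 1) ^ (P i).totalDegree) *
        ∑ i, aeval (fun j => (F i j).rat) (P i) := by
    intro F hF
    rw [sumN_eq ψ F P fun i j => ψ0 _ (hF i j)]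
    congr 1
  have h1 := hsum E fun i j => (hEl i j).2
  have h2 := hsum E' hE'0
  simp only [hrat] at h2
  have hprod : ∀ F : Fin R → Fin w → Frac n, (∀ i j, (F i j).val 1 ≠ 0) →
      (∏ i, ∏ j, ψ ((F i j).val 1) ^ (P i).totalDegree) ≠ 0 := fun F hF =>
    Finset.prod_ne_zero_iff.2 fun i _ => Finset.prod_ne_zero_iff.2 fun j _ =>
      pow_ne_zero _ (ψ0 _ (hF i j))
  have hne' : sumN E' P ≠ 0 := by
    intro h0
    rw [h0, map_zero] at h2
    exact mul_ne_zero (hprod E' hE'0) hne h2.symm
  have key : sumN E P * (∏ i, ∏ j, (E' i j).val 1 ^ (P i).totalDegree) =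
      sumN E' P * (∏ i, ∏ j, (E i j).val 1 ^ (P i).totalDegree) := by
    apply ψinj
    rw [map_mul, map_mul, h1, h2, map_prod, map_prod]
    simp only [map_prod, map_pow]
    ring
  have hpr := (rVan (sbase σ N)).prime (m + r + w) ∅
  have hmem2 : sext (sumN E' P * (∏ i, ∏ j, (E i j).val 1 ^ (P i).totalDegree)) ∈
      (rVan (sbase σ N)).I (m + r + w) ∅ := by
    rw [← key, map_mul]
    exact Ideal.mul_mem_right _ _ hmem
  rw [map_mul] at hmem2
  rcases hpr.mem_or_mem hmem2 with h3 | h3
  · refine thin_frac (β := sbase σ N) (m := m) (w := w) (Gd := Gd w s D σ)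
      (fun p q ⟨_, _, _, _, h⟩ e Y => hit_of_eval h e Y) (fun p q h x => gd_sbt h x) r (κ := κ)
      (fun I J c p q hJ hg h0 => hm' n s N hN σ hσ I J c p q hJ hg h0) (Fin R) Finset.univ
      (fun _ => 1) _ _ (fun i => occurring (E i)) (fun i _ => ?_)
      (thin_of_sets Y hY r _ _ fun S hS hSY => le_trans (le_of_eq ?_) (hthin S hS hSY)) hne' h3
    · have hA : ∀ (k : Fin 2) j, (E' i j).val k ∈ Algebra.adjoin ℂ
          (Set.range fun x : Fin w × Fin 2 => (E' i x.1).val x.2) :=
        fun k j => Algebra.subset_adjoin ⟨(j, k), rfl⟩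
      have hV : ∀ (k : Fin 2) j, (E' i j).val k ∈ supported ℂ (occurring (E i) : Set (Fin n)) := by
        intro k j
        refine supported_mono ?_ (val_supp _ k)
        intro x hx
        have hx' : (E' i j).reads x ≠ 0 := hx
        have h5 := hrd i j x
        rw [occurring, Finset.coe_filter]
        exact ⟨Finset.mem_univ _, j, by omega⟩
      refine ⟨⟨E' i, fun j => ⟨hgood i j, hR i j⟩, hm_mem _ _ (hA 0) (hA 1),
        Subalgebra.prod_mem _ fun j _ => Subalgebra.pow_mem _ (hA 1 j) _, ?_⟩, ?_, ?_⟩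
      · rw [map_prod]
        exact Finset.prod_ne_zero_iff.2 fun j _ => by
          rw [map_pow]
          exact pow_ne_zero _ (hden' i j)
      · have h6 := hm_mem (δ := (P i).totalDegree) (P i) _ (hV 0) (hV 1)
        rw [mem_supported] at h6
        exact_mod_cast h6
      · have h6 : (∏ j, (E' i j).val 1 ^ (P i).totalDegree) ∈
            supported ℂ (occurring (E i) : Set (Fin n)) :=
          Subalgebra.prod_mem _ fun j _ => Subalgebra.pow_mem _ (hV 1 j) _
        rw [mem_supported] at h6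
        exact_mod_cast h6
    · congr!
  · refine hit_of_eval (σ := σ) (N := N) ?_ (m + r + w) ∅ h3
    rw [map_prod]
    refine Finset.prod_ne_zero_iff.2 fun i _ => ?_
    rw [map_prod]
    refine Finset.prod_ne_zero_iff.2 fun j _ => ?_
    rw [map_pow]
    exact pow_ne_zero _ (hden i j)

end Pool.Agent.W936.VN
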