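import Mathlib
import Pool.Agent.W936.VN.Mat1
import Pool.Agent.W936.VN.Sum

/-!
Matrices built from `1 × 1` matrices by direct sums, rank one updates, scaling and bordering; their
determinants are numerators of expressions with bilinear gates.
-/

set_option autoImplicit false

namespace Pool.Agent.W936.VN

open MvPolynomial Pool.Agent.H530R2 Pool.Agent.W936.RO Pool.Agent.W936.WB Pool.Agent.W936.XN
  Pool.Agent.W936.LC

variable {n : ℕ}

/-- Descriptions of square matrices `mat` with a column vector `col` and a row vector `row`
(polynomials in `n` variables).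
* `vertex g`: the `1 × 1` matrix `(g)` with the vectors `(1)`, `(1)`.
* `sum a b`: the direct sum, with the concatenated vectors.
* `update g a`: `mat a + g • col a * row a`, with the same vectors.
* `scale g h a`: the matrix `mat a` with the vectors `g • col a` and `h • row a`.
* `border g a`: the matrix `mat a` with the additional column `col a`, the additional row `row a`
  and the corner `g`; the new vectors are the unit vectors of the new column and row. -/
inductive Build (n : ℕ) : Type
  | vertex (g : MvPolynomial (Fin n) ℂ) : Build n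
  | sum (a b : Build n) : Build n
  | update (g : MvPolynomial (Fin n) ℂ) (a : Build n) : Build n
  | scale (g h : MvPolynomial (Fin n) ℂ) (a : Build n) : Build n
  | border (g : MvPolynomial (Fin n) ℂ) (a : Build n) : Build n

/-- the set of indices of the rows and columns -/
def Build.Idx : Build n → Type
  | .vertex _ => Unit
  | .sum a b => a.Idx ⊕ b.Idx
  | .update _ a => a.Idx
  | .scale _ _ a => a.Idx
  | .border _ a => a.Idx ⊕ Unit

instance Build.fintype : (a : Build n) → Fintype a.Idx
  | .vertex _ => (inferInstance : Fintype Unit)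
  | .sum a b => @instFintypeSum _ _ (Build.fintype a) (Build.fintype b)
  | .update _ a => Build.fintype a
  | .scale _ _ a => Build.fintype a
  | .border _ a => @instFintypeSum _ _ (Build.fintype a) (inferInstance : Fintype Unit)

instance Build.deceq : (a : Build n) → DecidableEq a.Idx
  | .vertex _ => (inferInstance : DecidableEq Unit)
  | .sum a b => @instDecidableEqSum _ _ (Build.deceq a) (Build.deceq b)
  | .update _ a => Build.deceq a
  | .scale _ _ a => Build.deceq a
  | .border _ a => @instDecidableEqSum _ _ (Build.deceq a) (inferInstance : DecidableEq Unit)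

/-- the column vector -/
noncomputable def Build.col : (a : Build n) → a.Idx → MvPolynomial (Fin n) ℂ
  | .vertex _ => fun _ => 1
  | .sum a b => Sum.elim a.col b.col
  | .update _ a => a.col
  | .scale g _ a => fun i => g * a.col i
  | .border _ _ => Sum.elim 0 (fun _ => 1)

/-- the row vector -/
noncomputable def Build.row : (a : Build n) → a.Idx → MvPolynomial (Fin n) ℂ
  | .vertex _ => fun _ => 1
  | .sum a b => Sum.elim a.row b.row
  | .update _ a => a.row
  | .scale _ h a => fun i => h * a.row i
  | .border _ _ => Sum.elim 0 (fun _ => 1)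

/-- the matrix -/
noncomputable def Build.mat : (a : Build n) → Matrix a.Idx a.Idx (MvPolynomial (Fin n) ℂ)
  | .vertex g => Matrix.of fun _ _ => g
  | .sum a b => Matrix.fromBlocks a.mat 0 0 b.mat
  | .update g a => Matrix.of fun i j => a.mat i j + g * (a.col i * a.row j)
  | .scale _ _ a => a.mat
  | .border g a => Matrix.fromBlocks a.mat (Matrix.replicateCol Unit a.col)
      (Matrix.replicateRow Unit a.row) (Matrix.of fun _ _ => g)

/-- all polynomials of the description have the property `L` -/
def Build.Entries (L : MvPolynomial (Fin n) ℂ → Prop) : Build n → Prop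
  | .vertex g => L g
  | .sum a b => a.Entries L ∧ b.Entries L
  | .update g a => L g ∧ a.Entries L
  | .scale g h a => (L g ∧ L h) ∧ a.Entries L
  | .border g a => L g ∧ a.Entries L

/-- whether a variable occurs in a polynomial -/
noncomputable def occ1 (g : MvPolynomial (Fin n) ℂ) (x : Fin n) : ℕ := if x ∈ g.vars then 1 else 0

/-- the number of polynomials of the description in which the variable `x` occurs -/
noncomputable def Build.reads : Build n → Fin n → ℕ
  | .vertex g, x => occ1 g x
  | .sum a b, x => a.reads x + b.reads x
  | .update g a, x => occ1 g x + a.reads x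
  | .scale g h a, x => occ1 g x + occ1 h x + a.reads x
  | .border g a, x => occ1 g x + a.reads x

/-- the sum of `col i` times the determinant of the matrix with the row `i` replaced by `row`, that
is, `rowᵀ adj(mat) col` -/
noncomputable def Build.bilin (a : Build n) : MvPolynomial (Fin n) ℂ :=
  ∑ i, a.col i * (a.mat.updateRow i a.row).det

/-- the tests: `det mat` and `bilin` for the matrix and for all matrices from which it is built, and
the scaling factors -/
noncomputable def Build.tests : Build n → List (MvPolynomial (Fin n) ℂ)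
  | .vertex g => [(Build.vertex g).mat.det, (Build.vertex g).bilin]
  | .sum a b => a.tests ++ b.tests ++ [(Build.sum a b).mat.det, (Build.sum a b).bilin]
  | .update g a => a.tests ++ [(Build.update g a).mat.det, (Build.update g a).bilin]
  | .scale g h a => a.tests ++ [g, h, (Build.scale g h a).mat.det, (Build.scale g h a).bilin]
  | .border g a => a.tests ++ [(Build.border g a).mat.det, (Build.border g a).bilin]

/-- gates -/
def tS : Fin 2 → Fin 2 → Fin 2 → ℂ := ![![![1, 0], ![0, 0]], ![![0, 1], ![1, 0]]]
/-- gates -/
def tU : Fin 2 → Fin 2 → Fin 2 → ℂ := ![![![1, 0], ![0, 1]], ![![0, 0], ![1, 0]]]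
/-- gates -/
def tC : Fin 2 → Fin 2 → Fin 2 → ℂ := ![![![1, 0], ![0, 0]], ![![0, 0], ![0, 1]]]
/-- gates -/
def tB : Fin 2 → Fin 2 → Fin 2 → ℂ := ![![![0, 1], ![-1, 0]], ![![1, 0], ![0, 0]]]

/-- the expression -/
noncomputable def Build.net : Build n → Frac n
  | .vertex g => .leaf g (C 1)
  | .sum a b => .gate tS a.net b.net
  | .update g a => .gate tU a.net (.leaf (C 1) g)
  | .scale g h a => .gate tC (.gate tC a.net (.leaf (C 1) g)) (.leaf (C 1) h)
  | .border g a => .gate tB a.net (.leaf (C 1) g)

theorem net_reads (T : Build n) (x : Fin n) : T.net.reads x = T.reads x := by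
  classical
  induction T with
  | vertex g => simp [Build.net, Frac.reads, Build.reads, occ1]
  | sum a b iha ihb => simp only [Build.net, Frac.reads, Build.reads, iha, ihb]
  | update g a ih =>
    simp only [Build.net, Frac.reads, Build.reads, ih, occ1, vars_C, Finset.empty_union]
    rw [add_comm]
  | scale g h a ih =>
    simp only [Build.net, Frac.reads, Build.reads, ih, occ1, vars_C, Finset.empty_union]
    rw [add_assoc, add_comm]
  | border g a ih =>
    simp only [Build.net, Frac.reads, Build.reads, ih, occ1, vars_C, Finset.empty_union]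
    rw [add_comm]

theorem net_val (T : Build n) : T.net.val 0 = T.mat.det ∧ T.net.val 1 = T.bilin := by
  induction T with
  | vertex g =>
    constructor
    · exact (det_unit g).symm
    · have h1 := bq_unit g
      show C 1 = _
      rw [C_1]
      exact h1.symm
  | sum a b iha ihb =>
    have h1 : (Build.sum a b).mat.det = a.mat.det * b.mat.det :=
      Matrix.det_fromBlocks_zero₂₁ a.mat 0 b.mat
    have h2 : (Build.sum a b).bilin = a.mat.det * b.bilin + a.bilin * b.mat.det :=
      bq_sum a.mat b.mat a.col a.row b.col b.row
    rw [h1, h2]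
    simp only [Build.net, Frac.val, tS, Fin.sum_univ_two, iha.1, iha.2, ihb.1, ihb.2]
    constructor
    · simp
    · simp
  | update g a ih =>
    have h1 : (Build.update g a).mat.det = a.mat.det + g * a.bilin :=
      det_upd a.mat a.col a.row g
    have h2 : (Build.update g a).bilin = a.bilin := bq_upd a.mat a.col a.row g
    rw [h1, h2]
    simp only [Build.net, Frac.val, tU, Fin.sum_univ_two, ih.1, ih.2]
    constructor
    · simp
      ring
    · simp
  | scale g h a ih =>
    have h1 : (Build.scale g h a).mat.det = a.mat.det := rfl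
    have h2 : (Build.scale g h a).bilin = g * h * a.bilin := bq_scale a.mat a.col a.row g h
    rw [h1, h2]
    simp only [Build.net, Frac.val, tC, Fin.sum_univ_two, ih.1, ih.2]
    constructor
    · simp
    · simp
      ring
  | border g a ih =>
    have h1 : (Build.border g a).mat.det = g * a.mat.det - a.bilin :=
      det_bord a.mat a.col a.row g
    have h2 : (Build.border g a).bilin = a.mat.det := bq_bord a.mat a.col a.row g
    rw [h1, h2]
    simp only [Build.net, Frac.val, tB, Fin.sum_univ_two, ih.1, ih.2]
    constructor
    · simp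
      ring
    · simp

theorem net_good {w s D : ℕ} {T : Build n} (h : T.Entries (Prg w s D)) (hr : ∀ x, T.reads x ≤ w) :
    FGood w s D T.net := by
  refine ⟨?_, fun x => by rw [net_reads]; exact hr x⟩
  clear hr
  have hC : LfP w s D (C 1 : MvPolynomial (Fin n) ℂ) := Or.inr ⟨1, rfl⟩
  induction T with
  | vertex g => exact ⟨Or.inl h, hC⟩
  | sum a b iha ihb => exact ⟨iha h.1, ihb h.2⟩
  | update g a ih => exact ⟨ih h.2, hC, Or.inl h.1⟩
  | scale g h' a ih => exact ⟨⟨ih h.2, hC, Or.inl h.1.1⟩, hC, Or.inl h.1.2⟩
  | border g a ih => exact ⟨ih h.2, hC, Or.inl h.1⟩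

theorem tests_self (T : Build n) : T.mat.det ∈ T.tests ∧ T.bilin ∈ T.tests := by
  cases T <;> simp [Build.tests]

/-- the tests before the last two -/
noncomputable def Build.pre : Build n → List (MvPolynomial (Fin n) ℂ)
  | .vertex _ => []
  | .sum a b => a.tests ++ b.tests
  | .update _ a => a.tests
  | .scale g h a => a.tests ++ [g, h]
  | .border _ a => a.tests

theorem tests_eq (T : Build n) : T.tests = T.pre ++ [T.mat.det, T.bilin] := by
  cases T <;> simp [Build.tests, Build.pre]

theorem mul_ok {σ : Fin n → ℂ} {f g : MvPolynomial (Fin n) ℂ} (hf : f ≠ 0 → eval σ f ≠ 0)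
    (hg : g ≠ 0 → eval σ g ≠ 0) : f * g ≠ 0 → eval σ (f * g) ≠ 0 := by
  intro h
  rw [map_mul]
  exact mul_ne_zero (hf (left_ne_zero_of_mul h)) (hg (right_ne_zero_of_mul h))

theorem neg_ok {σ : Fin n → ℂ} {f : MvPolynomial (Fin n) ℂ} (hf : f ≠ 0 → eval σ f ≠ 0) :
    - f ≠ 0 → eval σ (- f) ≠ 0 := by
  intro h
  rw [map_neg]
  exact neg_ne_zero.2 (hf (neg_ne_zero.1 h))

/-- the determinants of the gates are products of tests -/
theorem dets_ok {σ : Fin n → ℂ} (T : Build n) (h : ∀ g ∈ T.pre, g ≠ 0 → eval σ g ≠ 0) :
    ∀ g ∈ T.net.dets, g ≠ 0 → eval σ g ≠ 0 := by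
  have h1 : (1 : MvPolynomial (Fin n) ℂ) ≠ 0 → eval σ (1 : MvPolynomial (Fin n) ℂ) ≠ 0 :=
    fun _ => by rw [map_one]; exact one_ne_zero
  have hpre : ∀ (T : Build n), ∀ g ∈ T.pre, g ∈ T.tests := fun T g hg => by
    rw [tests_eq]
    exact List.mem_append.2 (Or.inl hg)
  induction T with
  | vertex g => exact fun g hg => absurd hg List.not_mem_nil
  | sum a b iha ihb =>
    have ha : ∀ g ∈ a.tests, g ≠ 0 → eval σ g ≠ 0 := fun g hg => h g
      (List.mem_append.2 (Or.inl hg))
    have hb : ∀ g ∈ b.tests, g ≠ 0 → eval σ g ≠ 0 := fun g hg => h g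
      (List.mem_append.2 (Or.inr hg))
    have e1 : (lmat (ct tS) b.net.val).det = b.mat.det * b.mat.det := by
      rw [det_lmat, (net_val b).1, (net_val b).2]
      simp [tS]
      ring
    have e2 : (rmat (ct tS) a.net.val).det = a.mat.det * a.mat.det := by
      show (lmat (ct fun i j k => tS i k j) a.net.val).det = _
      rw [det_lmat, (net_val a).1, (net_val a).2]
      simp [tS]
      ring
    intro g hg
    simp only [Build.net, Frac.dets, List.mem_append, List.mem_cons, List.not_mem_nil,
      or_false] at hg
    rcases hg with (hg | hg) | (rfl | rfl)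
    · exact iha (fun g hg => ha g (hpre a g hg)) g hg
    · exact ihb (fun g hg => hb g (hpre b g hg)) g hg
    · rw [e1]
      exact mul_ok (hb _ (tests_self b).1) (hb _ (tests_self b).1)
    · rw [e2]
      exact mul_ok (ha _ (tests_self a).1) (ha _ (tests_self a).1)
  | update g a ih =>
    have ha : ∀ g ∈ a.tests, g ≠ 0 → eval σ g ≠ 0 := h
    have e1 : (lmat (ct tU) (Frac.leaf (C 1) g : Frac n).val).det = 1 := by
      rw [det_lmat]
      simp [tU, Frac.val]
    have e2 : (rmat (ct tU) a.net.val).det = - (a.bilin * a.bilin) := by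
      show (lmat (ct fun i j k => tU i k j) a.net.val).det = _
      rw [det_lmat, (net_val a).1, (net_val a).2]
      simp [tU]
      ring
    intro f hf
    simp only [Build.net, Frac.dets, List.mem_append, List.mem_cons, List.not_mem_nil,
      or_false] at hf
    rcases hf with hf | (rfl | rfl)
    · exact ih (fun g hg => ha g (hpre a g hg)) f hf
    · rw [e1]
      exact h1
    · rw [e2]
      exact neg_ok (mul_ok (ha _ (tests_self a).2) (ha _ (tests_self a).2))
  | scale g g' a ih =>
    have ha : ∀ g ∈ a.tests, g ≠ 0 → eval σ g ≠ 0 := fun g hg => h g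
      (List.mem_append.2 (Or.inl hg))
    have hg1 : g ≠ 0 → eval σ g ≠ 0 := h g (by simp [Build.pre])
    have hg2 : g' ≠ 0 → eval σ g' ≠ 0 := h g' (by simp [Build.pre])
    have e1 : ∀ f, (lmat (ct tC) (Frac.leaf (C 1) f : Frac n).val).det = f := by
      intro f
      rw [det_lmat]
      simp [tC, Frac.val]
    have e2 : (rmat (ct tC) a.net.val).det = a.mat.det * a.bilin := by
      show (lmat (ct fun i j k => tC i k j) a.net.val).det = _
      rw [det_lmat, (net_val a).1, (net_val a).2]
      simp [tC]
    have e3 : (rmat (ct tC) (Frac.gate tC a.net (.leaf (C 1) g)).val).det =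
        a.mat.det * (a.bilin * g) := by
      show (lmat (ct fun i j k => tC i k j) _).det = _
      rw [det_lmat]
      simp [tC, Frac.val, (net_val a).1, (net_val a).2, Fin.sum_univ_two]
    intro f hf
    simp only [Build.net, Frac.dets, List.mem_append, List.mem_cons, List.not_mem_nil,
      or_false] at hf
    rcases hf with (hf | (rfl | rfl)) | (rfl | rfl)
    · exact ih (fun g hg => ha g (hpre a g hg)) f hf
    · rw [e1]
      exact hg1
    · rw [e2]
      exact mul_ok (ha _ (tests_self a).1) (ha _ (tests_self a).2)
    · rw [e1]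
      exact hg2
    · rw [e3]
      exact mul_ok (ha _ (tests_self a).1) (mul_ok (ha _ (tests_self a).2) hg1)
  | border g a ih =>
    have ha : ∀ g ∈ a.tests, g ≠ 0 → eval σ g ≠ 0 := h
    have e1 : (lmat (ct tB) (Frac.leaf (C 1) g : Frac n).val).det = 1 := by
      rw [det_lmat]
      simp [tB, Frac.val]
    have e2 : (rmat (ct tB) a.net.val).det = - (a.mat.det * a.mat.det) := by
      show (lmat (ct fun i j k => tB i k j) a.net.val).det = _
      rw [det_lmat, (net_val a).1, (net_val a).2]
      simp [tB]
      ring
    intro f hf
    simp only [Build.net, Frac.dets, List.mem_append, List.mem_cons, List.not_mem_nil,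
      or_false] at hf
    rcases hf with hf | (rfl | rfl)
    · exact ih (fun g hg => ha g (hpre a g hg)) f hf
    · rw [e1]
      exact h1
    · rw [e2]
      exact neg_ok (mul_ok (ha _ (tests_self a).1) (ha _ (tests_self a).1))

end Pool.Agent.W936.VN
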