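import Mathlib
import Pool.Agent.W936.VN.Mat2

/-!
The tests for matrices built by direct sums, rank one updates, scaling and bordering.
-/

set_option autoImplicit false

namespace Pool.Agent.W936.VN

open MvPolynomial Pool.Agent.H530R2 Pool.Agent.W936.RO Pool.Agent.W936.WB Pool.Agent.W936.XN
  Pool.Agent.W936.LC

variable {n : ℕ}

/-- at an origin at which the tests before them do not vanish, the determinant and `bilin` are
products of atoms -/
theorem build_atoms {w s D : ℕ} {σ : Fin n → ℂ} {T : Build n} (hT : T.Entries (Prg w s D))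
    (hr : ∀ x, T.reads x ≤ w) (h : ∀ g ∈ T.pre, g ≠ 0 → eval σ g ≠ 0) :
    (T.mat.det ≠ 0 → Atoms w s D σ T.mat.det) ∧ (T.bilin ≠ 0 → Atoms w s D σ T.bilin) := by
  have h1 := redu_atoms (redu T.net (net_good hT hr) (dets_ok T h))
  rw [← (net_val T).1, ← (net_val T).2]
  exact ⟨h1.1 0, h1.1 1⟩

theorem leaf_atoms {w s D : ℕ} {σ : Fin n → ℂ} {g : MvPolynomial (Fin n) ℂ}
    (hg : Prg w s D g) (hr : ∀ x, occ1 g x ≤ w) (h0 : g ≠ 0) : Atoms w s D σ g := by
  have h1 : FGood w s D (.leaf g g : Frac n) := by
    refine ⟨⟨Or.inl hg, Or.inl hg⟩, fun x => ?_⟩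
    rw [Frac.reads, Finset.union_self]
    refine le_trans (le_of_eq ?_) (hr x)
    rw [occ1]
  exact Atom.atoms ⟨h0, .leaf g g, .leaf g g, ⟨h1, trivial⟩, ⟨h1, trivial⟩,
    Algebra.subset_adjoin (Or.inl ⟨0, rfl⟩)⟩

theorem adm_build {w s D N M : ℕ} (hm : ∀ σ : Fin n → ℂ, (∀ i, σ i ≠ 0) →
      ∀ g : MvPolynomial (Fin n) ℂ, Atoms w s D σ g → sext g ∉ (rVan (sbase σ N)).I M ∅)
    (T : Build n) (hT : T.Entries (Prg w s D)) (hr : ∀ x, T.reads x ≤ w) :
    ∀ {L : List (MvPolynomial (Fin n) ℂ)}, AdmH N M L → AdmH N M (L ++ T.tests) := by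
  -- the last two tests
  have last : ∀ (T : Build n), T.Entries (Prg w s D) → (∀ x, T.reads x ≤ w) →
      ∀ {L : List (MvPolynomial (Fin n) ℂ)}, AdmH N M (L ++ T.pre) →
      AdmH N M (L ++ T.tests) := by
    intro T hT hr L h
    have h3 := AdmH.snoc (g := T.mat.det) h fun σ hσ hL h0 =>
      hm σ hσ _ ((build_atoms hT hr fun g hg => hL g (List.mem_append.2 (Or.inr hg))).1 h0)
    have h4 := AdmH.snoc (g := T.bilin) h3 fun σ hσ hL h0 =>
      hm σ hσ _ ((build_atoms hT hr fun g hg => hL g
        (List.mem_append.2 (Or.inl (List.mem_append.2 (Or.inr hg))))).2 h0)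
    rw [tests_eq]
    simpa only [List.append_assoc, List.cons_append, List.nil_append] using h4
  induction T with
  | vertex g =>
    intro L h
    refine last _ hT hr ?_
    rwa [Build.pre, List.append_nil]
  | sum a b iha ihb =>
    intro L h
    refine last _ hT hr ?_
    rw [Build.pre, ← List.append_assoc]
    exact ihb hT.2 (fun x => (Nat.le_add_left _ _).trans (hr x))
      (iha hT.1 (fun x => (Nat.le_add_right _ _).trans (hr x)) h)
  | update g a ih =>
    intro L h
    exact last _ hT hr (ih hT.2 (fun x => (Nat.le_add_left _ _).trans (hr x)) h)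
  | scale g g' a ih =>
    intro L h
    refine last _ hT hr ?_
    have h2 := ih hT.2 (fun x => (Nat.le_add_left _ _).trans (hr x)) h
    have hr1 : ∀ x, occ1 g x ≤ w := fun x => le_trans (by
      show occ1 g x ≤ occ1 g x + occ1 g' x + a.reads x
      omega) (hr x)
    have hr2 : ∀ x, occ1 g' x ≤ w := fun x => le_trans (by
      show occ1 g' x ≤ occ1 g x + occ1 g' x + a.reads x
      omega) (hr x)
    have h3 := AdmH.snoc (g := g) h2 fun σ hσ hL h0 => hm σ hσ _ (leaf_atoms hT.1.1 hr1 h0)
    have h4 := AdmH.snoc (g := g') h3 fun σ hσ hL h0 => hm σ hσ _ (leaf_atoms hT.1.2 hr2 h0)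
    rw [Build.pre]
    simpa only [List.append_assoc, List.cons_append, List.nil_append] using h4
  | border g a ih =>
    intro L h
    exact last _ hT hr (ih hT.2 (fun x => (Nat.le_add_left _ _).trans (hr x)) h)

theorem adm_builds {w s D N M : ℕ} (hm : ∀ σ : Fin n → ℂ, (∀ i, σ i ≠ 0) →
      ∀ g : MvPolynomial (Fin n) ℂ, Atoms w s D σ g → sext g ∉ (rVan (sbase σ N)).I M ∅)
    (l : List (Build n)) (hl : ∀ T ∈ l, T.Entries (Prg w s D) ∧ ∀ x, T.reads x ≤ w) :
    AdmH N M (l.flatMap Build.tests) := by
  have key : ∀ {L : List (MvPolynomial (Fin n) ℂ)}, AdmH N M L →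
      AdmH N M (L ++ l.flatMap Build.tests) := by
    induction l with
    | nil => exact fun {L} h => by rwa [List.flatMap_nil, List.append_nil]
    | cons T l ih =>
      intro L h
      rw [List.flatMap_cons, ← List.append_assoc]
      exact ih (fun T' hT' => hl T' (List.mem_cons_of_mem _ hT'))
        (adm_build hm T (hl T List.mem_cons_self).1 (hl T List.mem_cons_self).2 h)
  exact key (L := []) AdmH.nil

/-- the number of operations -/
def Build.size : Build n → ℕ
  | .vertex _ => 1
  | .sum a b => a.size + b.size + 1
  | .update _ a => a.size + 1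
  | .scale _ _ a => a.size + 1
  | .border _ a => a.size + 1

/-- the sum of the total degrees of the polynomials -/
noncomputable def Build.degree : Build n → ℕ
  | .vertex g => g.totalDegree
  | .sum a b => a.degree + b.degree
  | .update g a => a.degree + g.totalDegree
  | .scale g h a => a.degree + g.totalDegree + h.totalDegree
  | .border g a => a.degree + g.totalDegree

theorem net_degree (T : Build n) : T.net.degree = T.degree := by
  induction T with
  | vertex g =>
    show max g.totalDegree (C 1 : MvPolynomial (Fin n) ℂ).totalDegree = g.totalDegree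
    rw [totalDegree_C, Nat.max_zero]
  | sum a b iha ihb => simp only [Build.net, Frac.degree, Build.degree, iha, ihb]
  | update g a ih =>
    simp only [Build.net, Frac.degree, Build.degree, ih, totalDegree_C, Nat.zero_max]
  | scale g h a ih =>
    simp only [Build.net, Frac.degree, Build.degree, ih, totalDegree_C, Nat.zero_max]
  | border g a ih =>
    simp only [Build.net, Frac.degree, Build.degree, ih, totalDegree_C, Nat.zero_max]

theorem tests_bound (T : Build n) : T.tests.length ≤ 4 * T.size ∧
    ∀ g ∈ T.tests, g.totalDegree ≤ T.degree := by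
  have hd : ∀ T : Build n, T.mat.det.totalDegree ≤ T.degree ∧ T.bilin.totalDegree ≤ T.degree := by
    intro T
    rw [← (net_val T).1, ← (net_val T).2, ← net_degree]
    exact ⟨val_degree _ _, val_degree _ _⟩
  have hlast : ∀ (T : Build n) (g : MvPolynomial (Fin n) ℂ), g ∈ [T.mat.det, T.bilin] →
      g.totalDegree ≤ T.degree := by
    intro T g hg
    simp only [List.mem_cons, List.not_mem_nil, or_false] at hg
    rcases hg with rfl | rfl
    · exact (hd T).1
    · exact (hd T).2
  induction T with
  | vertex g => exact ⟨by simp [Build.tests, Build.size], hlast _⟩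
  | sum a b iha ihb =>
    rw [tests_eq]
    constructor
    · simp only [Build.pre, Build.size, List.length_append, List.length_cons, List.length_nil]
      omega
    · intro g hg
      rcases List.mem_append.1 hg with hg | hg
      · rcases List.mem_append.1 hg with hg | hg
        · exact (iha.2 g hg).trans (Nat.le_add_right _ _)
        · exact (ihb.2 g hg).trans (Nat.le_add_left _ _)
      · exact hlast _ _ hg
  | update g a ih =>
    rw [tests_eq]
    constructor
    · simp only [Build.pre, Build.size, List.length_append, List.length_cons, List.length_nil]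
      omega
    · intro f hf
      rcases List.mem_append.1 hf with hf | hf
      · exact (ih.2 f hf).trans (Nat.le_add_right _ _)
      · exact hlast _ _ hf
  | scale g h a ih =>
    rw [tests_eq]
    constructor
    · simp only [Build.pre, Build.size, List.length_append, List.length_cons, List.length_nil]
      omega
    · intro f hf
      have e : (Build.scale g h a).degree = a.degree + g.totalDegree + h.totalDegree := rfl
      rcases List.mem_append.1 hf with hf | hf
      · rcases List.mem_append.1 hf with hf | hf
        · have := ih.2 f hf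
          omega
        · simp only [List.mem_cons, List.not_mem_nil, or_false] at hf
          rcases hf with rfl | rfl <;> omega
      · exact hlast _ _ hf
  | border g a ih =>
    rw [tests_eq]
    constructor
    · simp only [Build.pre, Build.size, List.length_append, List.length_cons, List.length_nil]
      omega
    · intro f hf
      rcases List.mem_append.1 hf with hf | hf
      · exact (ih.2 f hf).trans (Nat.le_add_right _ _)
      · exact hlast _ _ hf

end Pool.Agent.W936.VN
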