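import Mathlib

/-!
The rank of a symmetrizable matrix in terms of its principal minors.
-/

set_option autoImplicit false

namespace Pool.Agent.W936.VN

open Matrix

variable {ι K : Type*} [Fintype ι] [DecidableEq ι] [Field K]

/-- the principal minor of `M` on the set `S` -/
noncomputable def pmin {R : Type*} [CommRing R] (M : Matrix ι ι R) (S : Finset ι) : R :=
  (M.submatrix (Subtype.val : {x // x ∈ S} → ι) Subtype.val).det

/-- principal submatrix -/
def bA (M : Matrix ι ι K) (S : Finset ι) : Matrix {x // x ∈ S} {x // x ∈ S} K :=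
  M.submatrix Subtype.val Subtype.val

/-- columns -/
def bC (M : Matrix ι ι K) (S : Finset ι) : Matrix ι {x // x ∈ S} K := M.submatrix id Subtype.val

/-- rows -/
def bR (M : Matrix ι ι K) (S : Finset ι) : Matrix {x // x ∈ S} ι K := M.submatrix Subtype.val id

/-- the residual of `M` with respect to the set `S` -/
noncomputable def resd (M : Matrix ι ι K) (S : Finset ι) : Matrix ι ι K :=
  M - bC M S * (bA M S)⁻¹ * bR M S

theorem det_extend {κ : Type*} [Fintype κ] [DecidableEq κ] (M : Matrix ι ι K) (S : Finset ι)
    (hS : pmin M S ≠ 0) (e : κ → ι) :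
    (M.submatrix (Sum.elim (Subtype.val : {x // x ∈ S} → ι) e)
      (Sum.elim (Subtype.val : {x // x ∈ S} → ι) e)).det =
      pmin M S * ((resd M S).submatrix e e).det := by
  have hu : IsUnit (bA M S).det := isUnit_iff_ne_zero.2 hS
  let _ : Invertible (bA M S) := Matrix.invertibleOfIsUnitDet (bA M S) hu
  have h1 : M.submatrix (Sum.elim (Subtype.val : {x // x ∈ S} → ι) e)
      (Sum.elim (Subtype.val : {x // x ∈ S} → ι) e) = Matrix.fromBlocks (bA M S)
        ((bR M S).submatrix id e) ((bC M S).submatrix e id) (M.submatrix e e) := by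
    ext i j
    rcases i with i | i <;> rcases j with j | j <;> rfl
  rw [h1, Matrix.det_fromBlocks₁₁, Matrix.invOf_eq_nonsing_inv]
  rfl

/-- principal minors on larger sets -/
theorem pmin_insert (M : Matrix ι ι K) (S : Finset ι) (hS : pmin M S ≠ 0) {i : ι} (hi : i ∉ S) :
    pmin M (insert i S) = pmin M S * resd M S i i := by
  have h := det_extend M S hS (fun _ : Unit => i)
  rw [Matrix.det_unique ((resd M S).submatrix (fun _ : Unit => i) (fun _ : Unit => i))] at h
  have h' : (resd M S).submatrix (fun _ : Unit => i) (fun _ : Unit => i) default default =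
    resd M S i i := rfl
  rw [h'] at h
  rw [← h]
  have hb : Function.Bijective (Sum.elim (fun a : {x // x ∈ S} =>
      (⟨a.1, Finset.mem_insert_of_mem a.2⟩ : {x // x ∈ insert i S}))
      (fun _ : Unit => (⟨i, Finset.mem_insert_self i S⟩ : {x // x ∈ insert i S}))) := by
    constructor
    · rintro (⟨a, ha⟩ | a) (⟨b, hb⟩ | b) hab
      · have := congrArg Subtype.val hab
        exact congrArg _ (Subtype.ext this)
      · have : a = i := congrArg Subtype.val hab
        exact absurd (this ▸ ha) hi
      · have : i = b := congrArg Subtype.val hab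
        exact absurd (this ▸ hb) hi
      · rfl
    · rintro ⟨x, hx⟩
      rcases Finset.mem_insert.1 hx with h | h
      · exact ⟨Sum.inr (), Subtype.ext h.symm⟩
      · exact ⟨Sum.inl ⟨x, h⟩, rfl⟩
  have h2 := Matrix.det_submatrix_equiv_self (Equiv.ofBijective _ hb)
    (M.submatrix (Subtype.val : {x // x ∈ insert i S} → ι) Subtype.val)
  rw [pmin, ← h2, Matrix.submatrix_submatrix]
  congr 1
  ext a b
  rcases a with a | a <;> rcases b with b | b <;> rfl

theorem pmin_insert₂ (M : Matrix ι ι K) (S : Finset ι) (hS : pmin M S ≠ 0) {i j : ι} (hi : i ∉ S)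
    (hj : j ∉ S) (hij : i ≠ j) :
    pmin M (insert i (insert j S)) =
      pmin M S * (resd M S i i * resd M S j j - resd M S i j * resd M S j i) := by
  have h := det_extend M S hS ![i, j]
  rw [Matrix.det_fin_two] at h
  have h' : ((resd M S).submatrix ![i, j] ![i, j] 0 0 * (resd M S).submatrix ![i, j] ![i, j] 1 1 -
      (resd M S).submatrix ![i, j] ![i, j] 0 1 * (resd M S).submatrix ![i, j] ![i, j] 1 0) =
      (resd M S i i * resd M S j j - resd M S i j * resd M S j i) := rfl
  rw [h'] at h
  rw [← h]
  have hb : Function.Bijective (Sum.elim (fun a : {x // x ∈ S} =>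
      (⟨a.1, Finset.mem_insert_of_mem (Finset.mem_insert_of_mem a.2)⟩ :
        {x // x ∈ insert i (insert j S)}))
      ![(⟨i, Finset.mem_insert_self i _⟩ : {x // x ∈ insert i (insert j S)}),
        ⟨j, Finset.mem_insert_of_mem (Finset.mem_insert_self j S)⟩]) := by
    constructor
    · rintro (⟨a, ha⟩ | a) (⟨b, hb⟩ | b) hab
      · have := congrArg Subtype.val hab
        exact congrArg _ (Subtype.ext this)
      · have h3 := congrArg Subtype.val hab
        fin_cases b
        · exact absurd ((show a = i from h3) ▸ ha) hi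
        · exact absurd ((show a = j from h3) ▸ ha) hj
      · have h3 := congrArg Subtype.val hab
        fin_cases a
        · exact absurd ((show i = b from h3) ▸ hb) hi
        · exact absurd ((show j = b from h3) ▸ hb) hj
      · have h3 := congrArg Subtype.val hab
        fin_cases a <;> fin_cases b
        · rfl
        · exact absurd (show i = j from h3) hij
        · exact absurd (show j = i from h3).symm hij
        · rfl
    · rintro ⟨x, hx⟩
      rcases Finset.mem_insert.1 hx with h | h
      · exact ⟨Sum.inr 0, Subtype.ext h.symm⟩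
      · rcases Finset.mem_insert.1 h with h | h
        · exact ⟨Sum.inr 1, Subtype.ext h.symm⟩
        · exact ⟨Sum.inl ⟨x, h⟩, rfl⟩
  have h2 := Matrix.det_submatrix_equiv_self (Equiv.ofBijective _ hb)
    (M.submatrix (Subtype.val : {x // x ∈ insert i (insert j S)} → ι) Subtype.val)
  rw [pmin, ← h2, Matrix.submatrix_submatrix]
  congr 1
  ext a b
  rcases a with a | a <;> rcases b with b | b
  · rfl
  · fin_cases b <;> rfl
  · fin_cases a <;> rfl
  · fin_cases a <;> fin_cases b <;> rfl

theorem resd_left (M : Matrix ι ι K) (S : Finset ι) (hS : pmin M S ≠ 0) {i : ι} (hi : i ∈ S)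
    (j : ι) : resd M S i j = 0 := by
  have hu : IsUnit (bA M S).det := isUnit_iff_ne_zero.2 hS
  have h1 : bR (resd M S) S = 0 := by
    have : bR (resd M S) S = bR M S - bA M S * (bA M S)⁻¹ * bR M S := rfl
    rw [this, Matrix.mul_nonsing_inv _ hu, Matrix.one_mul, sub_self]
  exact congrFun (congrFun h1 ⟨i, hi⟩) j

theorem resd_right (M : Matrix ι ι K) (S : Finset ι) (hS : pmin M S ≠ 0) {j : ι} (hj : j ∈ S)
    (i : ι) : resd M S i j = 0 := by
  have hu : IsUnit (bA M S).det := isUnit_iff_ne_zero.2 hS
  have h1 : bC (resd M S) S = 0 := by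
    have : bC (resd M S) S = bC M S - bC M S * (bA M S)⁻¹ * bA M S := rfl
    rw [this, Matrix.mul_assoc, Matrix.nonsing_inv_mul _ hu, Matrix.mul_one, sub_self]
  exact congrFun (congrFun h1 i) ⟨j, hj⟩

theorem card_le_rank (M : Matrix ι ι K) (S : Finset ι) (hS : pmin M S ≠ 0) :
    S.card ≤ M.rank := by
  have hu : IsUnit (bA M S) :=
    (Matrix.isUnit_iff_isUnit_det _).2 (isUnit_iff_ne_zero.2 hS)
  have h1 := Matrix.rank_of_isUnit _ hu
  rw [Fintype.card_coe] at h1
  rw [← h1]
  have h2 : bA M S = bR (1 : Matrix ι ι K) S * M * bC (1 : Matrix ι ι K) S := by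
    ext i j
    simp only [bA, bR, bC, Matrix.mul_apply, Matrix.submatrix_apply, id, Matrix.one_apply,
      ite_mul, one_mul, zero_mul, mul_ite, mul_one, mul_zero, Finset.sum_ite_eq,
      Finset.sum_ite_eq', Finset.mem_univ, if_true]
  rw [h2]
  exact (Matrix.rank_mul_le_left _ _).trans (Matrix.rank_mul_le_right _ _)

/-- symmetric matrices -/
theorem rank_symm (M : Matrix ι ι K) (hM : M.transpose = M) (S : Finset ι) (hS : pmin M S ≠ 0)
    (h : ∀ i j, (i ∉ S ∨ j ∉ S) → pmin M (insert i (insert j S)) = 0) : M.rank = S.card := by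
  refine le_antisymm ?_ (card_le_rank M S hS)
  have hsym : ∀ i j, resd M S i j = resd M S j i := by
    have h1 : (resd M S).transpose = resd M S := by
      have hA' : (bA M S).transpose = bA M S := by
        rw [bA, Matrix.transpose_submatrix, hM]
      have hC' : (bC M S).transpose = bR M S := by
        rw [bC, bR, Matrix.transpose_submatrix, hM]
      have hR' : (bR M S).transpose = bC M S := by
        rw [bC, bR, Matrix.transpose_submatrix, hM]
      rw [resd, Matrix.transpose_sub, Matrix.transpose_mul, Matrix.transpose_mul, hM,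
        Matrix.transpose_nonsing_inv, hA', hC', hR', Matrix.mul_assoc]
    intro i j
    exact congrFun (congrFun h1.symm i) j
  have hdiag : ∀ i, resd M S i i = 0 := by
    intro i
    by_cases hi : i ∈ S
    · exact resd_left M S hS hi i
    · have h1 := pmin_insert M S hS hi
      have h2 := h i i (Or.inl hi)
      rw [Finset.insert_idem, h1] at h2
      exact (mul_eq_zero.1 h2).resolve_left hS
  have hzero : resd M S = 0 := by
    ext i j
    by_cases hi : i ∈ S
    · exact resd_left M S hS hi j
    by_cases hj : j ∈ S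
    · exact resd_right M S hS hj i
    by_cases hij : i = j
    · rw [hij]
      exact hdiag j
    have h1 := pmin_insert₂ M S hS hi hj hij
    rw [h i j (Or.inl hi), hdiag i, hdiag j, hsym j i] at h1
    have h2 := (mul_eq_zero.1 h1.symm).resolve_left hS
    rw [mul_zero, zero_sub, neg_eq_zero] at h2
    exact mul_self_eq_zero.1 h2
  have h3 : M = bC M S * (bA M S)⁻¹ * bR M S := sub_eq_zero.1 hzero
  rw [h3, Matrix.mul_assoc]
  refine (Matrix.rank_mul_le_left _ _).trans ?_
  refine (Matrix.rank_le_card_width _).trans ?_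
  rw [Fintype.card_coe]

/-- symmetrizable matrices -/
theorem rank_symmable (M : Matrix ι ι K) (D : ι → K) (hD : ∀ i, D i ≠ 0)
    (hM : ∀ i j, D i * M i j = D j * M j i) (S : Finset ι) (hS : pmin M S ≠ 0)
    (h : ∀ i j, (i ∉ S ∨ j ∉ S) → pmin M (insert i (insert j S)) = 0) : M.rank = S.card := by
  have hp : ∀ T : Finset ι, pmin (Matrix.diagonal D * M) T =
      (∏ i : {x // x ∈ T}, D i) * pmin M T := by
    intro T
    have h1 : bA (Matrix.diagonal D * M) T =
        Matrix.diagonal (fun i : {x // x ∈ T} => D i) * bA M T := by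
      ext i j
      rw [bA, bA, Matrix.submatrix_apply, Matrix.diagonal_mul, Matrix.diagonal_mul,
        Matrix.submatrix_apply]
    show (bA (Matrix.diagonal D * M) T).det = _
    rw [h1, Matrix.det_mul, Matrix.det_diagonal]
    rfl
  have h0 : ∀ T : Finset ι, (∏ i : {x // x ∈ T}, D i) ≠ 0 := fun T =>
    Finset.prod_ne_zero_iff.2 fun i _ => hD i
  have h1 := rank_symm (Matrix.diagonal D * M) (by
    ext i j
    rw [Matrix.transpose_apply, Matrix.diagonal_mul, Matrix.diagonal_mul]
    exact hM j i) S (by rw [hp]; exact mul_ne_zero (h0 S) hS) (fun i j hij => by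
    rw [hp, h i j hij, mul_zero])
  rw [← h1]
  symm
  apply Matrix.rank_mul_eq_right_of_isUnit_det
  rw [Matrix.det_diagonal]
  exact isUnit_iff_ne_zero.2 (Finset.prod_ne_zero_iff.2 fun i _ => hD i)

/-- there are nonsingular principal submatrices of the size of the rank -/
theorem exists_principal (M : Matrix ι ι K) (D : ι → K) (hD : ∀ i, D i ≠ 0)
    (hM : ∀ i j, D i * M i j = D j * M j i) : ∃ S : Finset ι, pmin M S ≠ 0 ∧
      (∀ i j, (i ∉ S ∨ j ∉ S) → pmin M (insert i (insert j S)) = 0) ∧ M.rank = S.card := by
  classical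
  obtain ⟨S, hS, hmax⟩ := Finset.exists_max_image
    (Finset.univ.filter fun S : Finset ι => pmin M S ≠ 0) Finset.card
    ⟨∅, by
      rw [Finset.mem_filter]
      refine ⟨Finset.mem_univ _, ?_⟩
      rw [pmin, Matrix.det_isEmpty]
      exact one_ne_zero⟩
  rw [Finset.mem_filter] at hS
  have h : ∀ i j, (i ∉ S ∨ j ∉ S) → pmin M (insert i (insert j S)) = 0 := by
    intro i j hij
    by_contra hc
    have h1 := hmax _ (Finset.mem_filter.2 ⟨Finset.mem_univ _, hc⟩)
    have h2 : S ⊆ insert i (insert j S) := fun x hx =>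
      Finset.mem_insert_of_mem (Finset.mem_insert_of_mem hx)
    have h3 : S ≠ insert i (insert j S) := by
      intro he
      rcases hij with hi | hj
      · apply hi
        rw [he]
        exact Finset.mem_insert_self _ _
      · apply hj
        rw [he]
        exact Finset.mem_insert_of_mem (Finset.mem_insert_self _ _)
    have h4 := Finset.card_lt_card (lt_of_le_of_ne h2 h3)
    omega
  exact ⟨S, hS.2, h, rank_symmable M D hD hM S hS.2 h⟩

end Pool.Agent.W936.VN
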