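import Mathlib
import Pool.Agent.W936.VN.Rk1
import Pool.Agent.W936.VN.Mat3

/-!
Principal submatrices of built matrices; balanced descriptions give symmetrizable matrices.
-/

set_option autoImplicit false

namespace Pool.Agent.W936.VN

open MvPolynomial Pool.Agent.H530R2 Pool.Agent.W936.RO Pool.Agent.W936.WB Pool.Agent.W936.XN
  Pool.Agent.W936.LC

variable {n : ℕ}

/-- the two factors of every scaling are both zero or both nonzero -/
def Build.Balanced : Build n → Prop
  | .vertex _ => True
  | .sum a b => a.Balanced ∧ b.Balanced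
  | .update _ a => a.Balanced
  | .scale g h a => (g = 0 ↔ h = 0) ∧ a.Balanced
  | .border _ a => a.Balanced

theorem balanced_sym {T : Build n} (hT : T.Balanced) {K : Type*} [Field K]
    (φ : MvPolynomial (Fin n) ℂ →+* K) (hφ : Function.Injective φ) :
    ∃ (D : T.Idx → K) (c : K), c ≠ 0 ∧ (∀ i, D i ≠ 0) ∧
      (∀ i j, D i * φ (T.mat i j) = D j * φ (T.mat j i)) ∧
      ∀ i, D i * φ (T.col i) = c * φ (T.row i) := by
  induction T with
  | vertex g =>
    refine ⟨fun _ => 1, 1, one_ne_zero, fun _ => one_ne_zero, ?_, ?_⟩
    · intro (i : Unit) (j : Unit)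
      rfl
    · intro (i : Unit)
      rfl
  | sum a b iha ihb =>
    obtain ⟨D, c, hc, hD, h1, h2⟩ := iha hT.1
    obtain ⟨D', c', hc', hD', h1', h2'⟩ := ihb hT.2
    refine ⟨Sum.elim (fun i => c⁻¹ * D i) (fun i => c'⁻¹ * D' i), 1, one_ne_zero, ?_, ?_, ?_⟩
    · intro (i : a.Idx ⊕ b.Idx)
      rcases i with i | i
      · exact mul_ne_zero (inv_ne_zero hc) (hD i)
      · exact mul_ne_zero (inv_ne_zero hc') (hD' i)
    · intro (i : a.Idx ⊕ b.Idx) (j : a.Idx ⊕ b.Idx)
      rcases i with i | i <;> rcases j with j | j
      · show c⁻¹ * D i * φ (a.mat i j) = c⁻¹ * D j * φ (a.mat j i)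
        rw [mul_assoc, mul_assoc, h1]
      · show _ * φ 0 = _ * φ 0
        rw [map_zero, mul_zero, mul_zero]
      · show _ * φ 0 = _ * φ 0
        rw [map_zero, mul_zero, mul_zero]
      · show c'⁻¹ * D' i * φ (b.mat i j) = c'⁻¹ * D' j * φ (b.mat j i)
        rw [mul_assoc, mul_assoc, h1']
    · intro (i : a.Idx ⊕ b.Idx)
      rcases i with i | i
      · show c⁻¹ * D i * φ (a.col i) = 1 * φ (a.row i)
        rw [mul_assoc, h2, ← mul_assoc, inv_mul_cancel₀ hc]
      · show c'⁻¹ * D' i * φ (b.col i) = 1 * φ (b.row i)
        rw [mul_assoc, h2', ← mul_assoc, inv_mul_cancel₀ hc']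
  | update g a ih =>
    obtain ⟨D, c, hc, hD, h1, h2⟩ := ih hT
    refine ⟨D, c, hc, hD, ?_, h2⟩
    intro (i : a.Idx) (j : a.Idx)
    show D i * φ (a.mat i j + g * (a.col i * a.row j)) =
      D j * φ (a.mat j i + g * (a.col j * a.row i))
    rw [map_add, map_add, mul_add, mul_add, h1, map_mul, map_mul, map_mul, map_mul]
    have e1 : D i * (φ g * (φ (a.col i) * φ (a.row j))) =
        φ g * (D i * φ (a.col i)) * φ (a.row j) := by ring
    have e2 : D j * (φ g * (φ (a.col j) * φ (a.row i))) =
        φ g * (D j * φ (a.col j)) * φ (a.row i) := by ring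
    rw [e1, e2, h2, h2]
    ring
  | scale g h a ih =>
    obtain ⟨D, c, hc, hD, h1, h2⟩ := ih hT.2
    by_cases hg : g = 0
    · have hh : h = 0 := hT.1.1 hg
      refine ⟨D, 1, one_ne_zero, hD, h1, ?_⟩
      intro (i : a.Idx)
      show D i * φ (g * a.col i) = 1 * φ (h * a.row i)
      rw [hg, hh, zero_mul, zero_mul, map_zero, mul_zero, mul_zero]
    · have hh : h ≠ 0 := fun h0 => hg (hT.1.2 h0)
      have hg' : φ g ≠ 0 := fun h0 => hg (hφ (by rw [h0, map_zero]))
      have hh' : φ h ≠ 0 := fun h0 => hh (hφ (by rw [h0, map_zero]))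
      refine ⟨D, φ g * c / φ h, div_ne_zero (mul_ne_zero hg' hc) hh', hD, h1, ?_⟩
      intro (i : a.Idx)
      show D i * φ (g * a.col i) = φ g * c / φ h * φ (h * a.row i)
      rw [map_mul, map_mul]
      have e1 : D i * (φ g * φ (a.col i)) = φ g * (D i * φ (a.col i)) := by ring
      rw [e1, h2]
      field_simp
  | border g a ih =>
    obtain ⟨D, c, hc, hD, h1, h2⟩ := ih hT
    refine ⟨Sum.elim D (fun _ => c), c, hc, ?_, ?_, ?_⟩
    · intro (i : a.Idx ⊕ Unit)
      rcases i with i | i
      · exact hD i
      · exact hc
    · intro (i : a.Idx ⊕ Unit) (j : a.Idx ⊕ Unit)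
      rcases i with i | i <;> rcases j with j | j
      · exact h1 i j
      · exact h2 i
      · exact (h2 j).symm
      · rfl
    · intro (i : a.Idx ⊕ Unit)
      rcases i with i | i
      · show D i * φ 0 = c * φ 0
        rw [map_zero, mul_zero, mul_zero]
      · rfl

/-- `1` or `0` -/
noncomputable def ind (b : Bool) : MvPolynomial (Fin n) ℂ := C (if b then 1 else 0)

/-- the description of the matrix in which the rows and columns that do not belong to `S` are
replaced by those of the unit matrix -/
noncomputable def Build.keep : (T : Build n) → (T.Idx → Bool) → Build n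
  | .vertex g, S => .scale (ind (S ())) (ind (S ())) (.vertex (if S () then g else C 1))
  | .sum a b, S => .sum (a.keep fun i => S (.inl i)) (b.keep fun i => S (.inr i))
  | .update g a, S => .update g (a.keep S)
  | .scale g h a, S => .scale g h (a.keep S)
  | .border g a, S => .scale (ind (S (.inr ()))) (ind (S (.inr ())))
      (.border (if S (.inr ()) then g else C 1)
        (.scale (ind (S (.inr ()))) (ind (S (.inr ()))) (a.keep fun i => S (.inl i))))

/-- the identification of the indices -/
def keepE : (T : Build n) → (S : T.Idx → Bool) → T.Idx ≃ (T.keep S).Idx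
  | .vertex _, _ => Equiv.refl Unit
  | .sum a b, S => Equiv.sumCongr (keepE a fun i => S (.inl i)) (keepE b fun i => S (.inr i))
  | .update _ a, S => keepE a S
  | .scale _ _ a, S => keepE a S
  | .border _ a, S => Equiv.sumCongr (keepE a fun i => S (.inl i)) (Equiv.refl Unit)

/-- the rows and columns that do not belong to `S` are replaced by those of the unit matrix -/
def rmt {ι R : Type*} [DecidableEq ι] [CommRing R] (M : Matrix ι ι R) (S : ι → Bool) :
    Matrix ι ι R :=
  Matrix.of fun i j => if S i && S j then M i j else if i = j then 1 else 0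

theorem keep_vec (T : Build n) (S : T.Idx → Bool) :
    (∀ i, (T.keep S).col (keepE T S i) = if S i then T.col i else 0) ∧
      ∀ i, (T.keep S).row (keepE T S i) = if S i then T.row i else 0 := by
  induction T with
  | vertex g =>
    constructor
    · intro (i : Unit)
      show ind (S ()) * 1 = if S () then 1 else 0
      rw [ind, mul_one]
      by_cases h : S () = true
      · rw [if_pos h, if_pos h, C_1]
      · rw [if_neg h, if_neg h, C_0]
    · intro (i : Unit)
      show ind (S ()) * 1 = if S () then 1 else 0
      rw [ind, mul_one]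
      by_cases h : S () = true
      · rw [if_pos h, if_pos h, C_1]
      · rw [if_neg h, if_neg h, C_0]
  | sum a b iha ihb =>
    constructor
    · intro (i : a.Idx ⊕ b.Idx)
      rcases i with i | i
      · exact (iha _).1 i
      · exact (ihb _).1 i
    · intro (i : a.Idx ⊕ b.Idx)
      rcases i with i | i
      · exact (iha _).2 i
      · exact (ihb _).2 i
  | update g a ih => exact ih S
  | scale g h a ih =>
    constructor
    · intro (i : a.Idx)
      show g * (a.keep S).col (keepE a S i) = if S i then g * a.col i else 0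
      rw [(ih S).1, mul_ite, mul_zero]
    · intro (i : a.Idx)
      show h * (a.keep S).row (keepE a S i) = if S i then h * a.row i else 0
      rw [(ih S).2, mul_ite, mul_zero]
  | border g a ih =>
    constructor
    · intro (i : a.Idx ⊕ Unit)
      rcases i with i | i
      · show ind (S (.inr ())) * 0 = if S (.inl i) then 0 else 0
        rw [mul_zero, ite_self]
      · show ind (S (.inr ())) * 1 = if S (.inr ()) then 1 else 0
        rw [ind, mul_one]
        by_cases h : S (.inr ()) = true
        · rw [if_pos h, if_pos h, C_1]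
        · rw [if_neg h, if_neg h, C_0]
    · intro (i : a.Idx ⊕ Unit)
      rcases i with i | i
      · show ind (S (.inr ())) * 0 = if S (.inl i) then 0 else 0
        rw [mul_zero, ite_self]
      · show ind (S (.inr ())) * 1 = if S (.inr ()) then 1 else 0
        rw [ind, mul_one]
        by_cases h : S (.inr ()) = true
        · rw [if_pos h, if_pos h, C_1]
        · rw [if_neg h, if_neg h, C_0]

theorem keep_mat (T : Build n) (S : T.Idx → Bool) (i j : T.Idx) :
    (T.keep S).mat (keepE T S i) (keepE T S j) = rmt T.mat S i j := by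
  induction T with
  | vertex g =>
    revert i j
    intro (i : Unit) (j : Unit)
    show (if S () then g else C 1) = if S () && S () then g else if i = j then 1 else 0
    rw [Bool.and_self, if_pos (Subsingleton.elim i j), C_1]
  | sum a b iha ihb =>
    revert i j
    intro (i : a.Idx ⊕ b.Idx) (j : a.Idx ⊕ b.Idx)
    rcases i with i | i <;> rcases j with j | j
    · refine (iha _ i j).trans ?_
      show (if S (.inl i) && S (.inl j) then a.mat i j else if i = j then 1 else 0) =
        if S (.inl i) && S (.inl j) then a.mat i j else if (Sum.inl i : a.Idx ⊕ b.Idx) = .inl j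
          then 1 else 0
      congr 1
      by_cases h : i = j
      · rw [if_pos h, if_pos (by rw [h])]
      · rw [if_neg h, if_neg fun hc => h (Sum.inl_injective hc)]
    · show (0 : MvPolynomial (Fin n) ℂ) = if S (.inl i) && S (.inr j) then 0 else
        if (Sum.inl i : a.Idx ⊕ b.Idx) = .inr j then 1 else 0
      rw [if_neg (c := (Sum.inl i : a.Idx ⊕ b.Idx) = .inr j) Sum.inl_ne_inr, ite_self]
    · show (0 : MvPolynomial (Fin n) ℂ) = if S (.inr i) && S (.inl j) then 0 else
        if (Sum.inr i : a.Idx ⊕ b.Idx) = .inl j then 1 else 0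
      rw [if_neg (c := (Sum.inr i : a.Idx ⊕ b.Idx) = .inl j) Sum.inr_ne_inl, ite_self]
    · refine (ihb _ i j).trans ?_
      show (if S (.inr i) && S (.inr j) then b.mat i j else if i = j then 1 else 0) =
        if S (.inr i) && S (.inr j) then b.mat i j else if (Sum.inr i : a.Idx ⊕ b.Idx) = .inr j
          then 1 else 0
      congr 1
      by_cases h : i = j
      · rw [if_pos h, if_pos (by rw [h])]
      · rw [if_neg h, if_neg fun hc => h (Sum.inr_injective hc)]
  | update g a ih =>
    revert S i j
    intro (S : a.Idx → Bool) (i : a.Idx) (j : a.Idx)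
    show (a.keep S).mat (keepE a S i) (keepE a S j) + g * ((a.keep S).col (keepE a S i) *
      (a.keep S).row (keepE a S j)) = if S i && S j then a.mat i j + g * (a.col i * a.row j)
        else if i = j then 1 else 0
    rw [ih, (keep_vec a S).1, (keep_vec a S).2]
    show (if S i && S j then a.mat i j else if i = j then 1 else 0) + _ = _
    cases S i <;> cases S j <;> simp
  | scale g h a ih => exact ih S i j
  | border g a ih =>
    revert i j
    intro (i : a.Idx ⊕ Unit) (j : a.Idx ⊕ Unit)
    rcases i with i | i <;> rcases j with j | j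
    · refine (ih _ i j).trans ?_
      show (if S (.inl i) && S (.inl j) then a.mat i j else if i = j then 1 else 0) =
        if S (.inl i) && S (.inl j) then a.mat i j else if (Sum.inl i : a.Idx ⊕ Unit) = .inl j
          then 1 else 0
      congr 1
      by_cases h : i = j
      · rw [if_pos h, if_pos (by rw [h])]
      · rw [if_neg h, if_neg fun hc => h (Sum.inl_injective hc)]
    · show ind (S (.inr ())) * (a.keep fun i => S (.inl i)).col (keepE a _ i) =
        if S (.inl i) && S (.inr ()) then a.col i else
          if (Sum.inl i : a.Idx ⊕ Unit) = .inr j then 1 else 0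
      rw [(keep_vec a _).1, ind,
        if_neg (c := (Sum.inl i : a.Idx ⊕ Unit) = .inr j) Sum.inl_ne_inr]
      cases S (.inl i) <;> cases S (.inr ()) <;> simp
    · show ind (S (.inr ())) * (a.keep fun i => S (.inl i)).row (keepE a _ j) =
        if S (.inr ()) && S (.inl j) then a.row j else
          if (Sum.inr i : a.Idx ⊕ Unit) = .inl j then 1 else 0
      rw [(keep_vec a _).2, ind,
        if_neg (c := (Sum.inr i : a.Idx ⊕ Unit) = .inl j) Sum.inr_ne_inl]
      cases S (.inl j) <;> cases S (.inr ()) <;> simp
    · show (if S (.inr ()) then g else C 1) = if S (.inr ()) && S (.inr ()) then g else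
        if (Sum.inr i : a.Idx ⊕ Unit) = .inr j then 1 else 0
      rw [Bool.and_self, if_pos (c := (Sum.inr i : a.Idx ⊕ Unit) = .inr j) rfl, C_1]

end Pool.Agent.W936.VN
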