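import Mathlib
import Pool.Agent.W936.VN.Rk2

/-!
Certificates for the rank of matrices with balanced descriptions.
-/

set_option autoImplicit false

namespace Pool.Agent.W936.VN

open MvPolynomial Pool.Agent.H530R2 Pool.Agent.W936.RO Pool.Agent.W936.WB Pool.Agent.W936.XN
  Pool.Agent.W936.LC

open Pool.Agent.Results.MP_e2be99_lc.FormulasOverSparse (Run points points_card exists_run contents)

variable {n : ℕ}

theorem det_rmt {ι R : Type*} [Fintype ι] [DecidableEq ι] [CommRing R] (M : Matrix ι ι R)
    (S : Finset ι) : (rmt M fun i => decide (i ∈ S)).det = pmin M S := by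
  have h1 := Matrix.det_submatrix_equiv_self (Equiv.sumCompl fun i => i ∈ S)
    (rmt M fun i => decide (i ∈ S))
  have h2 : (rmt M fun i => decide (i ∈ S)).submatrix (Equiv.sumCompl fun i => i ∈ S)
      (Equiv.sumCompl fun i => i ∈ S) =
      Matrix.fromBlocks (M.submatrix (Subtype.val : {i // i ∈ S} → ι) Subtype.val) 0 0 1 := by
    ext i j
    rcases i with i | i <;> rcases j with j | j
    · have := i.2
      have := j.2
      simp [rmt]
    · have h3 := i.2
      have h4 := j.2
      have h5 : (i : ι) ≠ j := fun h => h4 (h ▸ h3)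
      simp [rmt, h5]
      exact fun h => absurd h h4
    · have h3 := i.2
      have h4 := j.2
      have h5 : (i : ι) ≠ j := fun h => h3 (h ▸ h4)
      simp [rmt, h5]
      exact fun h => absurd h h3
    · have h3 := i.2
      have h4 := j.2
      simp only [Matrix.submatrix_apply, Equiv.sumCompl_apply_inr, rmt, Matrix.of_apply,
        Matrix.fromBlocks_apply₂₂, Matrix.one_apply, Subtype.ext_iff]
      rw [if_neg]
      simp [h3]
  rw [← h1, h2, Matrix.det_fromBlocks_zero₂₁, Matrix.det_one, mul_one]
  rfl

theorem keep_det (T : Build n) (S : Finset T.Idx) :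
    (T.keep fun i => decide (i ∈ S)).mat.det = pmin T.mat S := by
  rw [← det_rmt, ← Matrix.det_submatrix_equiv_self (keepE T fun i => decide (i ∈ S))]
  congr 1
  ext i j
  rw [Matrix.submatrix_apply, keep_mat]

theorem prg_mono {w s D : ℕ} {g : MvPolynomial (Fin n) ℂ} (h : Prg w s D g) :
    Prg w (s + 1) D g := by
  induction h with
  | sparse h => exact .sparse (h.trans (Nat.le_succ s))
  | program c₀ M R P hu hocc _ ih => exact .program c₀ M R P hu hocc ih

theorem prg_const {w s D : ℕ} (c : ℂ) : Prg w (s + 1) D (C c : MvPolynomial (Fin n) ℂ) := by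
  cases D with
  | zero =>
    refine .sparse ?_
    classical
    have h1 : (C c : MvPolynomial (Fin n) ℂ).support ⊆ {0} := by
      rw [C_apply]
      exact support_monomial_subset
    have h2 := Finset.card_le_card h1
    rw [Finset.card_singleton] at h2
    omega
  | succ D =>
    have h1 := Prg.program (n := n) (w := w) (s := s + 1) (D := D) (u := 0) (fun i => i.elim0)
      (fun _ => Matrix.of fun i _ => i.elim0) 0 (C c) (Nat.zero_le w) (fun x => by simp)
      (fun b i _ => i.elim0)
    rwa [aeval_C] at h1

theorem keep_entries {w s D : ℕ} {T : Build n} (h : T.Entries (Prg w s D)) (S : T.Idx → Bool) :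
    (T.keep S).Entries (Prg w (s + 1) D) := by
  have hind : ∀ b, Prg w (s + 1) D (ind b : MvPolynomial (Fin n) ℂ) := fun b => prg_const _
  have hif : ∀ (b : Bool) (g : MvPolynomial (Fin n) ℂ), Prg w s D g →
      Prg w (s + 1) D (if b then g else C 1) := by
    intro b g hg
    cases b
    · exact prg_const 1
    · exact prg_mono hg
  induction T with
  | vertex g => exact ⟨⟨hind _, hind _⟩, hif _ g h⟩
  | sum a b iha ihb => exact ⟨iha h.1 _, ihb h.2 _⟩
  | update g a ih => exact ⟨prg_mono h.1, ih h.2 S⟩
  | scale g g' a ih => exact ⟨⟨prg_mono h.1.1, prg_mono h.1.2⟩, ih h.2 S⟩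
  | border g a ih => exact ⟨⟨hind _, hind _⟩, hif _ g h.1, ⟨hind _, hind _⟩, ih h.2 _⟩

theorem occ1_C (c : ℂ) (x : Fin n) : occ1 (C c : MvPolynomial (Fin n) ℂ) x = 0 := by
  rw [occ1, vars_C, if_neg (Finset.notMem_empty x)]

theorem occ1_if (b : Bool) (g : MvPolynomial (Fin n) ℂ) (x : Fin n) :
    occ1 (if b then g else C 1) x ≤ occ1 g x := by
  cases b
  · rw [if_neg (by simp), occ1_C]
    exact Nat.zero_le _
  · rw [if_pos rfl]

theorem keep_reads (T : Build n) (S : T.Idx → Bool) (x : Fin n) :
    (T.keep S).reads x ≤ T.reads x := by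
  have h0 : ∀ b, occ1 (ind b : MvPolynomial (Fin n) ℂ) x = 0 := fun b => occ1_C _ x
  induction T with
  | vertex g =>
    have h1 := occ1_if (S ()) g x
    simp only [Build.keep, Build.reads, h0]
    omega
  | sum a b iha ihb =>
    have h1 := iha fun i => S (.inl i)
    have h2 := ihb fun i => S (.inr i)
    simp only [Build.keep, Build.reads]
    omega
  | update g a ih =>
    have h1 := ih S
    simp only [Build.keep, Build.reads]
    omega
  | scale g g' a ih =>
    have h1 := ih S
    simp only [Build.keep, Build.reads]
    omega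
  | border g a ih =>
    have h1 := occ1_if (S (.inr ())) g x
    have h2 := ih fun i => S (.inl i)
    simp only [Build.keep, Build.reads, h0]
    omega

theorem keep_size (T : Build n) (S : T.Idx → Bool) : (T.keep S).size ≤ 3 * T.size := by
  induction T with
  | vertex g =>
    simp only [Build.keep, Build.size]
    omega
  | sum a b iha ihb =>
    have h1 := iha fun i => S (.inl i)
    have h2 := ihb fun i => S (.inr i)
    simp only [Build.keep, Build.size]
    omega
  | update g a ih =>
    have h1 := ih S
    simp only [Build.keep, Build.size]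
    omega
  | scale g g' a ih =>
    have h1 := ih S
    simp only [Build.keep, Build.size]
    omega
  | border g a ih =>
    have h2 := ih fun i => S (.inl i)
    simp only [Build.keep, Build.size]
    omega

theorem keep_degree (T : Build n) (S : T.Idx → Bool) : (T.keep S).degree ≤ T.degree := by
  have h0 : ∀ b, (ind b : MvPolynomial (Fin n) ℂ).totalDegree = 0 := fun b => totalDegree_C _
  have hif : ∀ (b : Bool) (g : MvPolynomial (Fin n) ℂ),
      (if b then g else C 1).totalDegree ≤ g.totalDegree := by
    intro b g
    cases b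
    · rw [if_neg (by simp), totalDegree_C]
      exact Nat.zero_le _
    · rw [if_pos rfl]
  induction T with
  | vertex g =>
    have h1 := hif (S ()) g
    simp only [Build.keep, Build.degree, h0]
    omega
  | sum a b iha ihb =>
    have h1 := iha fun i => S (.inl i)
    have h2 := ihb fun i => S (.inr i)
    simp only [Build.keep, Build.degree]
    omega
  | update g a ih =>
    have h1 := ih S
    simp only [Build.keep, Build.degree]
    omega
  | scale g g' a ih =>
    have h1 := ih S
    simp only [Build.keep, Build.degree]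
    omega
  | border g a ih =>
    have h1 := hif (S (.inr ())) g
    have h2 := ih fun i => S (.inl i)
    simp only [Build.keep, Build.degree, h0]
    omega

/-- the descriptions of the principal submatrices on the sets `S ∪ {i, j}` -/
noncomputable def Build.cand (T : Build n) (S : Finset T.Idx) : List (Build n) :=
  (Finset.univ : Finset (T.Idx × T.Idx)).toList.map fun p =>
    T.keep fun a => decide (a ∈ insert p.1 (insert p.2 S))

/-- the list of the tests -/
noncomputable def Build.checks (T : Build n) (S : Finset T.Idx) :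
    List (MvPolynomial (Fin n) ℂ) := (T.cand S).flatMap Build.tests

theorem length_flatMap_le {α β : Type*} (l : List α) (f : α → List β) (B : ℕ)
    (h : ∀ a ∈ l, (f a).length ≤ B) : (l.flatMap f).length ≤ l.length * B := by
  induction l with
  | nil => simp
  | cons a l ih =>
    rw [List.flatMap_cons, List.length_append, List.length_cons]
    have h1 := h a List.mem_cons_self
    have h2 := ih fun b hb => h b (List.mem_cons_of_mem _ hb)
    rw [Nat.succ_mul]
    omega

theorem sum_map_le (l : List ℕ) (B : ℕ) (h : ∀ a ∈ l, a ≤ B) : l.sum ≤ l.length * B := by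
  have h1 := List.sum_le_card_nsmul l B h
  rwa [smul_eq_mul] at h1

theorem checks_length (T : Build n) (S : Finset T.Idx) :
    (T.checks S).length ≤ Fintype.card T.Idx ^ 2 * (12 * T.size) := by
  have h1 : (T.cand S).length = Fintype.card T.Idx ^ 2 := by
    rw [Build.cand, List.length_map, Finset.length_toList, Finset.card_univ, Fintype.card_prod, sq]
  rw [← h1]
  refine length_flatMap_le _ _ _ fun T' hT' => ?_
  obtain ⟨p, _, rfl⟩ := List.mem_map.1 hT'
  refine (tests_bound _).1.trans ?_
  have h2 := keep_size T fun a => decide (a ∈ insert p.1 (insert p.2 S))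
  omega

theorem checks_degree (T : Build n) (S : Finset T.Idx) :
    ((T.checks S).map totalDegree).sum ≤
      Fintype.card T.Idx ^ 2 * (12 * T.size) * T.degree := by
  have h1 := sum_map_le ((T.checks S).map totalDegree) T.degree (by
    intro a ha
    obtain ⟨g, hg, rfl⟩ := List.mem_map.1 ha
    obtain ⟨T', hT', hg⟩ := List.mem_flatMap.1 hg
    obtain ⟨p, _, rfl⟩ := List.mem_map.1 hT'
    exact ((tests_bound _).2 g hg).trans (keep_degree T _))
  rw [List.length_map] at h1
  exact h1.trans (Nat.mul_le_mul_right _ (checks_length T S))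

theorem checks_mem (T : Build n) (S : Finset T.Idx) (i j : T.Idx) :
    pmin T.mat (insert i (insert j S)) ∈ T.checks S := by
  rw [← keep_det]
  exact List.mem_flatMap.2 ⟨_, List.mem_map.2 ⟨(i, j), Finset.mem_toList.2 (Finset.mem_univ _),
    rfl⟩, (tests_self _).1⟩

theorem checks_adm {w s D N M : ℕ} (hm : ∀ σ : Fin n → ℂ, (∀ i, σ i ≠ 0) →
      ∀ g : MvPolynomial (Fin n) ℂ, Atoms w (s + 1) D σ g →
        sext g ∉ (rVan (sbase σ N)).I M ∅) {T : Build n} (hT : T.Entries (Prg w s D))
    (hr : ∀ x, T.reads x ≤ w) (S : Finset T.Idx) : AdmH N M (T.checks S) := by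
  refine adm_builds hm _ fun T' hT' => ?_
  obtain ⟨p, _, rfl⟩ := List.mem_map.1 hT'
  exact ⟨keep_entries hT _, fun x => (keep_reads T _ x).trans (hr x)⟩

/-- principal minors commute with ring homomorphisms -/
theorem pmin_map {ι R R' : Type*} [Fintype ι] [DecidableEq ι] [CommRing R] [CommRing R']
    (φ : R →+* R') (M : Matrix ι ι R) (S : Finset ι) : pmin (M.map φ) S = φ (pmin M S) := by
  rw [pmin, pmin, RingHom.map_det]
  rfl

end Pool.Agent.W936.VN
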