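import Mathlib
import Pool.Agent.W936.VN.Rk2

/-!
Every matrix whose graph is a forest can be built.
-/

set_option autoImplicit false

namespace Pool.Agent.W936.VN

open MvPolynomial Pool.Agent.H530R2 Pool.Agent.W936.RO Pool.Agent.W936.WB Pool.Agent.W936.XN
  Pool.Agent.W936.LC

variable {n : ℕ}

/-- the matrix `M` with an additional row and column, which have only the entries `β` (in row `q`),
`α` (in column `q`) and `γ` -/
noncomputable def gmat {ι : Type} [DecidableEq ι] (M : Matrix ι ι (MvPolynomial (Fin n) ℂ)) (q : ι)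
    (α β γ : MvPolynomial (Fin n) ℂ) :
    Matrix (ι ⊕ Unit) (ι ⊕ Unit) (MvPolynomial (Fin n) ℂ) :=
  Matrix.fromBlocks M (Matrix.of fun i _ => if i = q then β else 0)
    (Matrix.of fun _ j => if j = q then α else 0) (Matrix.of fun _ _ => γ)

theorem gmat_col {ι : Type} [DecidableEq ι] {M : Matrix ι ι (MvPolynomial (Fin n) ℂ)} {q i : ι}
    {α β γ : MvPolynomial (Fin n) ℂ} {u : Unit} (h : i = q) :
    gmat M q α β γ (.inl i) (.inr u) = β := if_pos h

theorem gmat_col' {ι : Type} [DecidableEq ι] {M : Matrix ι ι (MvPolynomial (Fin n) ℂ)} {q i : ι}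
    {α β γ : MvPolynomial (Fin n) ℂ} {u : Unit} (h : i ≠ q) :
    gmat M q α β γ (.inl i) (.inr u) = 0 := if_neg h

theorem gmat_row {ι : Type} [DecidableEq ι] {M : Matrix ι ι (MvPolynomial (Fin n) ℂ)} {q i : ι}
    {α β γ : MvPolynomial (Fin n) ℂ} {u : Unit} (h : i = q) :
    gmat M q α β γ (.inr u) (.inl i) = α := if_pos h

theorem gmat_row' {ι : Type} [DecidableEq ι] {M : Matrix ι ι (MvPolynomial (Fin n) ℂ)} {q i : ι}
    {α β γ : MvPolynomial (Fin n) ℂ} {u : Unit} (h : i ≠ q) :
    gmat M q α β γ (.inr u) (.inl i) = 0 := if_neg h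

/-- reordering -/
def sw (A B U : Type) : (A ⊕ B) ⊕ U ≃ (A ⊕ U) ⊕ B where
  toFun
    | .inl (.inl a) => .inl (.inl a)
    | .inl (.inr b) => .inr b
    | .inr u => .inl (.inr u)
  invFun
    | .inl (.inl a) => .inl (.inl a)
    | .inr b => .inl (.inr b)
    | .inl (.inr u) => .inr u
  left_inv := by rintro ((a | b) | u) <;> rfl
  right_inv := by rintro ((a | u) | b) <;> rfl

theorem ite_inl {A B : Type} [DecidableEq A] [DecidableEq B] (p q : A) {R : Type*} (x y : R) :
    (if (Sum.inl p : A ⊕ B) = Sum.inl q then x else y) = if p = q then x else y := by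
  by_cases h : p = q
  · rw [if_pos h, if_pos (by rw [h])]
  · rw [if_neg h, if_neg fun hc => h (Sum.inl_injective hc)]

theorem ite_inr {A B : Type} [DecidableEq A] [DecidableEq B] (p q : B) {R : Type*} (x y : R) :
    (if (Sum.inr p : A ⊕ B) = Sum.inr q then x else y) = if p = q then x else y := by
  by_cases h : p = q
  · rw [if_pos h, if_pos (by rw [h])]
  · rw [if_neg h, if_neg fun hc => h (Sum.inr_injective hc)]

theorem graft (T : Build n) (q : T.Idx) (α β γ : MvPolynomial (Fin n) ℂ) :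
    ∃ (T' : Build n) (e : T.Idx ⊕ Unit ≃ T'.Idx),
      (∀ i j, T'.mat (e i) (e j) = gmat T.mat q α β γ i j) ∧
      (∀ i, T'.col (e i) = Sum.elim T.col 0 i) ∧ (∀ i, T'.row (e i) = Sum.elim T.row 0 i) ∧
      (∀ L : MvPolynomial (Fin n) ℂ → Prop, T.Entries L → L α → L β → L γ → T'.Entries L) ∧
      (T.Balanced → (α = 0 ↔ β = 0) → T'.Balanced) ∧
      (∀ x, T'.reads x = T.reads x + (occ1 α x + occ1 β x + occ1 γ x)) ∧
      T'.size ≤ T.size + 3 ∧
      T'.degree = T.degree + (α.totalDegree + β.totalDegree + γ.totalDegree) := by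
  induction T with
  | vertex g =>
    refine ⟨.border g (.scale α β (.vertex γ)), Equiv.sumComm Unit Unit, ?_, ?_, ?_, ?_, ?_, ?_,
      ?_, ?_⟩
    · intro (i : Unit ⊕ Unit) (j : Unit ⊕ Unit)
      rcases i with ⟨⟨⟩⟩ | ⟨⟨⟩⟩ <;> rcases j with ⟨⟨⟩⟩ | ⟨⟨⟩⟩
      · rfl
      · exact (mul_one β).trans (gmat_col (Subsingleton.elim (α := Unit) _ _)).symm
      · exact (mul_one α).trans (gmat_row (Subsingleton.elim (α := Unit) _ _)).symm
      · rfl
    · intro (i : Unit ⊕ Unit)
      rcases i with ⟨⟨⟩⟩ | ⟨⟨⟩⟩ <;> rfl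
    · intro (i : Unit ⊕ Unit)
      rcases i with ⟨⟨⟩⟩ | ⟨⟨⟩⟩ <;> rfl
    · exact fun L h1 h2 h3 h4 => ⟨h1, ⟨h2, h3⟩, h4⟩
    · exact fun _ h => ⟨h, trivial⟩
    · intro x
      rfl
    · simp only [Build.size]
      omega
    · show γ.totalDegree + α.totalDegree + β.totalDegree + g.totalDegree =
        g.totalDegree + (α.totalDegree + β.totalDegree + γ.totalDegree)
      ring
  | sum a b iha ihb =>
    revert q
    intro (q : a.Idx ⊕ b.Idx)
    rcases q with q | q
    · obtain ⟨T', e, h1, h2, h3, h4, hB, h5, h6, h7⟩ := iha q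
      refine ⟨.sum T' b, (sw a.Idx b.Idx Unit).trans (Equiv.sumCongr e (Equiv.refl _)), ?_, ?_, ?_,
        ?_, ?_, ?_, ?_, ?_⟩
      · intro (i : (a.Idx ⊕ b.Idx) ⊕ Unit) (j : (a.Idx ⊕ b.Idx) ⊕ Unit)
        rcases i with (i | i) | i <;> rcases j with (j | j) | j
        · exact h1 (.inl i) (.inl j)
        · rfl
        · exact (h1 (.inl i) (.inr j)).trans (ite_inl i q β 0).symm
        · rfl
        · rfl
        · exact (gmat_col' (ι := a.Idx ⊕ b.Idx) Sum.inr_ne_inl).symm
        · exact (h1 (.inr i) (.inl j)).trans (ite_inl j q α 0).symm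
        · exact (gmat_row' (ι := a.Idx ⊕ b.Idx) Sum.inr_ne_inl).symm
        · exact h1 (.inr i) (.inr j)
      · intro (i : (a.Idx ⊕ b.Idx) ⊕ Unit)
        rcases i with (i | i) | i
        · exact h2 (.inl i)
        · rfl
        · exact h2 (.inr i)
      · intro (i : (a.Idx ⊕ b.Idx) ⊕ Unit)
        rcases i with (i | i) | i
        · exact h3 (.inl i)
        · rfl
        · exact h3 (.inr i)
      · exact fun L t1 t2 t3 t4 => ⟨h4 L t1.1 t2 t3 t4, t1.2⟩
      · exact fun t1 t2 => ⟨hB t1.1 t2, t1.2⟩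
      · intro x
        simp only [Build.reads, h5]
        ring
      · simp only [Build.size]
        omega
      · simp only [Build.degree, h7]
        ring
    · obtain ⟨T', e, h1, h2, h3, h4, hB, h5, h6, h7⟩ := ihb q
      refine ⟨.sum a T', (Equiv.sumAssoc a.Idx b.Idx Unit).trans
        (Equiv.sumCongr (Equiv.refl _) e), ?_, ?_, ?_, ?_, ?_, ?_, ?_, ?_⟩
      · intro (i : (a.Idx ⊕ b.Idx) ⊕ Unit) (j : (a.Idx ⊕ b.Idx) ⊕ Unit)
        rcases i with (i | i) | i <;> rcases j with (j | j) | j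
        · rfl
        · rfl
        · exact (gmat_col' (ι := a.Idx ⊕ b.Idx) Sum.inl_ne_inr).symm
        · rfl
        · exact h1 (.inl i) (.inl j)
        · exact (h1 (.inl i) (.inr j)).trans (ite_inr i q β 0).symm
        · exact (gmat_row' (ι := a.Idx ⊕ b.Idx) Sum.inl_ne_inr).symm
        · exact (h1 (.inr i) (.inl j)).trans (ite_inr j q α 0).symm
        · exact h1 (.inr i) (.inr j)
      · intro (i : (a.Idx ⊕ b.Idx) ⊕ Unit)
        rcases i with (i | i) | i
        · rfl
        · exact h2 (.inl i)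
        · exact h2 (.inr i)
      · intro (i : (a.Idx ⊕ b.Idx) ⊕ Unit)
        rcases i with (i | i) | i
        · rfl
        · exact h3 (.inl i)
        · exact h3 (.inr i)
      · exact fun L t1 t2 t3 t4 => ⟨t1.1, h4 L t1.2 t2 t3 t4⟩
      · exact fun t1 t2 => ⟨t1.1, hB t1.2 t2⟩
      · intro x
        simp only [Build.reads, h5]
        ring
      · simp only [Build.size]
        omega
      · simp only [Build.degree, h7]
        ring
  | update g a ih =>
    obtain ⟨T', e, h1, h2, h3, h4, hB, h5, h6, h7⟩ := ih q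
    refine ⟨.update g T', e, ?_, h2, h3, ?_, ?_, ?_, ?_, ?_⟩
    · intro (i : a.Idx ⊕ Unit) (j : a.Idx ⊕ Unit)
      show T'.mat (e i) (e j) + g * (T'.col (e i) * T'.row (e j)) = _
      rw [h1, h2, h3]
      rcases i with i | i <;> rcases j with j | j
      · rfl
      · show gmat a.mat q α β γ (.inl i) (.inr j) + g * (a.col i * 0) = _
        rw [mul_zero, mul_zero, add_zero]
        rfl
      · show gmat a.mat q α β γ (.inr i) (.inl j) + g * (0 * a.row j) = _
        rw [zero_mul, mul_zero, add_zero]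
        rfl
      · show γ + g * (0 * 0) = γ
        rw [zero_mul, mul_zero, add_zero]
    · exact fun L t1 t2 t3 t4 => ⟨t1.1, h4 L t1.2 t2 t3 t4⟩
    · exact fun t1 t2 => hB t1 t2
    · intro x
      simp only [Build.reads, h5]
      ring
    · simp only [Build.size]
      omega
    · simp only [Build.degree, h7]
      ring
  | scale g h a ih =>
    obtain ⟨T', e, h1, h2, h3, h4, hB, h5, h6, h7⟩ := ih q
    refine ⟨.scale g h T', e, h1, ?_, ?_, ?_, ?_, ?_, ?_, ?_⟩
    · intro (i : a.Idx ⊕ Unit)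
      show g * T'.col (e i) = _
      rw [h2]
      rcases i with i | i
      · rfl
      · exact mul_zero _
    · intro (i : a.Idx ⊕ Unit)
      show h * T'.row (e i) = _
      rw [h3]
      rcases i with i | i
      · rfl
      · exact mul_zero _
    · exact fun L t1 t2 t3 t4 => ⟨t1.1, h4 L t1.2 t2 t3 t4⟩
    · exact fun t1 t2 => ⟨t1.1, hB t1.2 t2⟩
    · intro x
      simp only [Build.reads, h5]
      ring
    · simp only [Build.size]
      omega
    · simp only [Build.degree, h7]
      ring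
  | border g a ih =>
    revert q
    intro (q : a.Idx ⊕ Unit)
    rcases q with q | q
    · obtain ⟨T', e, h1, h2, h3, h4, hB, h5, h6, h7⟩ := ih q
      refine ⟨.border g T', (sw a.Idx Unit Unit).trans (Equiv.sumCongr e (Equiv.refl _)), ?_, ?_,
        ?_, ?_, ?_, ?_, ?_, ?_⟩
      · intro (i : (a.Idx ⊕ Unit) ⊕ Unit) (j : (a.Idx ⊕ Unit) ⊕ Unit)
        rcases i with (i | i) | i <;> rcases j with (j | j) | j
        · exact h1 (.inl i) (.inl j)
        · exact h2 (.inl i)
        · exact (h1 (.inl i) (.inr j)).trans (ite_inl i q β 0).symm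
        · exact h3 (.inl j)
        · rfl
        · exact (h3 (.inr j)).trans (gmat_col' (ι := a.Idx ⊕ Unit) Sum.inr_ne_inl).symm
        · exact (h1 (.inr i) (.inl j)).trans (ite_inl j q α 0).symm
        · exact (h2 (.inr i)).trans (gmat_row' (ι := a.Idx ⊕ Unit) Sum.inr_ne_inl).symm
        · exact h1 (.inr i) (.inr j)
      · intro (i : (a.Idx ⊕ Unit) ⊕ Unit)
        rcases i with (i | i) | i <;> rfl
      · intro (i : (a.Idx ⊕ Unit) ⊕ Unit)
        rcases i with (i | i) | i <;> rfl
      · exact fun L t1 t2 t3 t4 => ⟨t1.1, h4 L t1.2 t2 t3 t4⟩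
      · exact fun t1 t2 => hB t1 t2
      · intro x
        simp only [Build.reads, h5]
        ring
      · simp only [Build.size]
        omega
      · simp only [Build.degree, h7]
        ring
    · refine ⟨.border g (.sum a (.scale α β (.vertex γ))), sw a.Idx Unit Unit, ?_, ?_, ?_, ?_, ?_,
        ?_, ?_, ?_⟩
      · intro (i : (a.Idx ⊕ Unit) ⊕ Unit) (j : (a.Idx ⊕ Unit) ⊕ Unit)
        rcases i with (i | i) | i <;> rcases j with (j | j) | j
        · rfl
        · rfl
        · exact (gmat_col' (ι := a.Idx ⊕ Unit) Sum.inl_ne_inr).symm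
        · rfl
        · rfl
        · exact (mul_one β).trans (gmat_col (ι := a.Idx ⊕ Unit) rfl).symm
        · exact (gmat_row' (ι := a.Idx ⊕ Unit) Sum.inl_ne_inr).symm
        · exact (mul_one α).trans (gmat_row (ι := a.Idx ⊕ Unit) rfl).symm
        · rfl
      · intro (i : (a.Idx ⊕ Unit) ⊕ Unit)
        rcases i with (i | i) | i <;> rfl
      · intro (i : (a.Idx ⊕ Unit) ⊕ Unit)
        rcases i with (i | i) | i <;> rfl
      · exact fun L t1 t2 t3 t4 => ⟨t1.1, t1.2, ⟨t2, t3⟩, t4⟩
      · exact fun t1 t2 => ⟨t1, t2, trivial⟩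
      · intro x
        simp only [Build.reads]
        ring
      · simp only [Build.size]
        omega
      · simp only [Build.degree]
        ring

end Pool.Agent.W936.VN
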