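import Mathlib
import Pool.Agent.W936.VN.Mat4

/-!
Every matrix whose graph is a forest can be built.
-/

set_option autoImplicit false

namespace Pool.Agent.W936.VN

open MvPolynomial Pool.Agent.H530R2 Pool.Agent.W936.RO Pool.Agent.W936.WB Pool.Agent.W936.XN
  Pool.Agent.W936.LC

variable {n : ℕ}

theorem double_sum {ι : Type} [DecidableEq ι] (φ : ι → ι → ℕ) (S : Finset ι) (i j : ι)
    (hi : i ∉ S) (hj : j ∈ S) :
    ∑ a ∈ S, ∑ b ∈ S, φ a b + (φ i j + φ j i + φ i i) ≤
      ∑ a ∈ insert i S, ∑ b ∈ insert i S, φ a b := by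
  have h1 : ∀ a, ∑ b ∈ insert i S, φ a b = φ a i + ∑ b ∈ S, φ a b := fun a =>
    Finset.sum_insert hi
  rw [Finset.sum_insert hi]
  simp only [h1, Finset.sum_add_distrib]
  have h2 : φ i j ≤ ∑ b ∈ S, φ i b := Finset.single_le_sum (fun _ _ => Nat.zero_le _) hj
  have h3 : φ j i ≤ ∑ b ∈ S, φ b i :=
    Finset.single_le_sum (f := fun b => φ b i) (fun _ _ => Nat.zero_le _) hj
  omega

theorem forest_ind {ι : Type} [DecidableEq ι] (M : Matrix ι ι (MvPolynomial (Fin n) ℂ))
    (h : ∀ S : Finset ι, S.Nonempty → ∃ i ∈ S, ∀ j ∈ S, ∀ k ∈ S, j ≠ i → k ≠ i →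
      (M i j ≠ 0 ∨ M j i ≠ 0) → (M i k ≠ 0 ∨ M k i ≠ 0) → j = k)
    (S : Finset ι) (hS : S.Nonempty) :
    ∃ (T : Build n) (f : T.Idx → ι), Function.Injective f ∧ (∀ i, i ∈ S ↔ ∃ a, f a = i) ∧
      (∀ a b, T.mat a b = M (f a) (f b)) ∧ T.Entries (fun g => ∃ i j, g = M i j) ∧
      ((∀ i j, M i j = 0 ↔ M j i = 0) → T.Balanced) ∧
      (∀ x, T.reads x ≤ ∑ i ∈ S, ∑ j ∈ S, occ1 (M i j) x) ∧ T.size ≤ 3 * S.card ∧
      T.degree ≤ ∑ i ∈ S, ∑ j ∈ S, (M i j).totalDegree := by
  induction hc : S.card generalizing S with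
  | zero => exact absurd hS (Finset.not_nonempty_iff_eq_empty.2 (Finset.card_eq_zero.1 hc))
  | succ c ih =>
    obtain ⟨i, hi, hi2⟩ := h S hS
    have hins : insert i (S.erase i) = S := Finset.insert_erase hi
    rcases (S.erase i).eq_empty_or_nonempty with h0 | h0
    · have hS1 : S = {i} := by rw [← hins, h0]; rfl
      subst hS1
      refine ⟨.vertex (M i i), fun _ => i, fun a b _ => Subsingleton.elim (α := Unit) a b, ?_, ?_,
        ⟨i, i, rfl⟩, fun _ => trivial, ?_, ?_, ?_⟩
      · intro j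
        rw [Finset.mem_singleton]
        exact ⟨fun h => ⟨(), h.symm⟩, fun ⟨_, h⟩ => h.symm⟩
      · intro a b
        rfl
      · intro x
        rw [Finset.sum_singleton, Finset.sum_singleton]
        exact le_rfl
      · show 1 ≤ _
        omega
      · rw [Finset.sum_singleton, Finset.sum_singleton]
        exact le_rfl
    · have hj : ∃ j ∈ S.erase i, ∀ k ∈ S.erase i, k ≠ j → M i k = 0 ∧ M k i = 0 := by
        by_cases hA : ∃ j ∈ S.erase i, M i j ≠ 0 ∨ M j i ≠ 0
        · obtain ⟨j, hj, hj2⟩ := hA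
          refine ⟨j, hj, fun k hk hkj => ?_⟩
          by_contra hcon
          rw [not_and_or] at hcon
          exact hkj (hi2 j (Finset.mem_of_mem_erase hj) k (Finset.mem_of_mem_erase hk)
            (Finset.ne_of_mem_erase hj) (Finset.ne_of_mem_erase hk) hj2 hcon).symm
        · obtain ⟨j, hj⟩ := h0
          refine ⟨j, hj, fun k hk _ => ?_⟩
          by_contra hcon
          rw [not_and_or] at hcon
          exact hA ⟨k, hk, hcon⟩
      obtain ⟨j, hjS, hj⟩ := hj
      have hcard : (S.erase i).card = c := by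
        rw [Finset.card_erase_of_mem hi, hc]
        rfl
      obtain ⟨T, f, t1, t2, t3, t4, tB, t5, t6, t7⟩ := ih (S.erase i) h0 hcard
      obtain ⟨q, hq⟩ := (t2 j).1 hjS
      obtain ⟨T', e, g1, g2, g3, g4, gB, g5, g6, g7⟩ := graft T q (M i j) (M j i) (M i i)
      have hfi : ∀ a, f a ≠ i := fun a ha => Finset.notMem_erase i S ((t2 i).2 ⟨a, ha⟩)
      have hfS : ∀ a, f a ∈ S.erase i := fun a => (t2 _).2 ⟨a, rfl⟩
      have hds := fun φ : ι → ι → ℕ => double_sum φ (S.erase i) i j (Finset.notMem_erase i S) hjS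
      rw [hins] at hds
      have key : ∀ a b : T.Idx ⊕ Unit, gmat T.mat q (M i j) (M j i) (M i i) a b =
          M (Sum.elim f (fun _ => i) a) (Sum.elim f (fun _ => i) b) := by
        rintro (a | a) (b | b)
        · exact t3 a b
        · by_cases haq : a = q
          · rw [gmat_col haq]
            show _ = M (f a) i
            rw [haq, hq]
          · rw [gmat_col' haq]
            exact (hj _ (hfS a) (fun hh => haq (t1 (hh.trans hq.symm)))).2.symm
        · by_cases haq : b = q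
          · rw [gmat_row haq]
            show _ = M i (f b)
            rw [haq, hq]
          · rw [gmat_row' haq]
            exact (hj _ (hfS b) (fun hh => haq (t1 (hh.trans hq.symm)))).1.symm
        · rfl
      refine ⟨T', fun a => Sum.elim f (fun _ => i) (e.symm a), ?_, ?_, ?_, ?_, ?_, ?_, ?_, ?_⟩
      · intro a b hab
        have hab' : Sum.elim f (fun _ => i) (e.symm a) = Sum.elim f (fun _ => i) (e.symm b) := hab
        apply e.symm.injective
        generalize e.symm a = a' at hab'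
        generalize e.symm b = b' at hab'
        rcases a' with a' | a' <;> rcases b' with b' | b'
        · exact congrArg _ (t1 hab')
        · exact absurd hab' (hfi a')
        · exact absurd hab'.symm (hfi b')
        · rfl
      · intro k
        constructor
        · intro hk
          by_cases hki : k = i
          · exact ⟨e (.inr ()), by beta_reduce; rw [e.symm_apply_apply]; exact hki.symm⟩
          · obtain ⟨a, ha⟩ := (t2 k).1 (Finset.mem_erase.2 ⟨hki, hk⟩)
            exact ⟨e (.inl a), by beta_reduce; rw [e.symm_apply_apply]; exact ha⟩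
        · rintro ⟨a, ha⟩
          beta_reduce at ha
          generalize e.symm a = a' at ha
          rcases a' with a' | a'
          · have ha' : f a' = k := ha
            rw [← ha']
            exact Finset.mem_of_mem_erase (hfS a')
          · have ha' : i = k := ha
            rw [← ha']
            exact hi
      · intro a b
        rw [← key, ← g1, e.apply_symm_apply, e.apply_symm_apply]
      · exact g4 _ t4 ⟨i, j, rfl⟩ ⟨j, i, rfl⟩ ⟨i, i, rfl⟩
      · exact fun hM => gB (tB hM) (hM i j)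
      · intro x
        rw [g5]
        exact (Nat.add_le_add_right (t5 x) _).trans (hds fun a b => occ1 (M a b) x)
      · omega
      · rw [g7]
        exact (Nat.add_le_add_right t7 _).trans (hds fun a b => (M a b).totalDegree)

theorem acyclic_deg {ι : Type} [DecidableEq ι] {G : SimpleGraph ι} (hG : G.IsAcyclic)
    (S : Finset ι) (hS : S.Nonempty) :
    ∃ i ∈ S, ∀ j ∈ S, ∀ k ∈ S, G.Adj i j → G.Adj i k → j = k := by
  classical
  obtain ⟨i, hi⟩ := hS
  by_cases hsub : ∀ j ∈ S, j = i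
  · exact ⟨i, hi, fun j hj k hk _ _ => (hsub j hj).trans (hsub k hk).symm⟩
  · push Not at hsub
    obtain ⟨j, hj, hji⟩ := hsub
    have : Nonempty (S : Set ι) := ⟨⟨i, hi⟩⟩
    have : Nontrivial (S : Set ι) := ⟨⟨j, hj⟩, ⟨i, hi⟩, fun h => hji (congrArg Subtype.val h)⟩
    obtain ⟨F, hF1, hF2, hF3⟩ :=
      (SimpleGraph.connected_top (V := (S : Set ι))).exists_isTree_le_of_le_of_isAcyclic
        le_top (hG.induce (S : Set ι))
    obtain ⟨v, hv⟩ := hF3.exists_vert_degree_one_of_nontrivial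
    rw [SimpleGraph.degree_eq_one_iff_existsUnique_adj] at hv
    obtain ⟨u, _, hu⟩ := hv
    refine ⟨v, v.2, fun j hj k hk h1 h2 => ?_⟩
    have e1 := hu ⟨j, hj⟩ (hF1 h1)
    have e2 := hu ⟨k, hk⟩ (hF1 h2)
    exact congrArg Subtype.val (e1.trans e2.symm)

/-- Every square matrix whose graph is a forest can be built from its entries, with a balanced
description if the pattern of its zeros is symmetric. -/
theorem forest_build' {N : ℕ} (M : Matrix (Fin (N + 1)) (Fin (N + 1)) (MvPolynomial (Fin n) ℂ))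
    (h : (SimpleGraph.fromRel fun i j => M i j ≠ 0).IsAcyclic) :
    ∃ (T : Build n) (e : Fin (N + 1) ≃ T.Idx), (∀ i j, M i j = T.mat (e i) (e j)) ∧
      T.Entries (fun g => ∃ i j, g = M i j) ∧ ((∀ i j, M i j = 0 ↔ M j i = 0) → T.Balanced) ∧
      (∀ x, T.reads x ≤ ∑ i, ∑ j, occ1 (M i j) x) ∧
      T.size ≤ 3 * (N + 1) ∧ T.degree ≤ ∑ i, ∑ j, (M i j).totalDegree := by
  obtain ⟨T, f, t1, t2, t3, t4, tB, t5, t6, t7⟩ := forest_ind M (fun S hS => by
    obtain ⟨i, hi, h1⟩ := acyclic_deg h S hS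
    refine ⟨i, hi, fun j hj k hk hji hki h2 h3 => h1 j hj k hk ?_ ?_⟩
    · exact (SimpleGraph.fromRel_adj _ _ _).2 ⟨hji.symm, h2⟩
    · exact (SimpleGraph.fromRel_adj _ _ _).2 ⟨hki.symm, h3⟩) Finset.univ Finset.univ_nonempty
  refine ⟨T, (Equiv.ofBijective f ⟨t1, fun i => (t2 i).1 (Finset.mem_univ i)⟩).symm, ?_, t4, tB,
    t5, ?_, t7⟩
  · intro i j
    rw [t3]
    rw [← Equiv.ofBijective_apply f ⟨t1, fun i => (t2 i).1 (Finset.mem_univ i)⟩,
      ← Equiv.ofBijective_apply f ⟨t1, fun i => (t2 i).1 (Finset.mem_univ i)⟩,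
      Equiv.apply_symm_apply, Equiv.apply_symm_apply]
  · rwa [Finset.card_univ, Fintype.card_fin] at t6

/-- Every square matrix whose graph is a forest can be built from its entries. -/
theorem forest_build {N : ℕ} (M : Matrix (Fin (N + 1)) (Fin (N + 1)) (MvPolynomial (Fin n) ℂ))
    (h : (SimpleGraph.fromRel fun i j => M i j ≠ 0).IsAcyclic) :
    ∃ (T : Build n) (e : Fin (N + 1) ≃ T.Idx), (∀ i j, M i j = T.mat (e i) (e j)) ∧
      T.Entries (fun g => ∃ i j, g = M i j) ∧ (∀ x, T.reads x ≤ ∑ i, ∑ j, occ1 (M i j) x) ∧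
      T.size ≤ 3 * (N + 1) ∧ T.degree ≤ ∑ i, ∑ j, (M i j).totalDegree := by
  obtain ⟨T, e, h1, h2, _, h3⟩ := forest_build' M h
  exact ⟨T, e, h1, h2, h3⟩

end Pool.Agent.W936.VN
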